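import Pool.Agent.Lib.DM.GL.SpecB
import Pool.Agent.Lib.DT.GL.App
import Pool.Agent.Lib.DT.GL.Arch
import Pool.Agent.Lib.DT.GL.Kap
import Pool.Agent.Lib.DT.GL.Stb

/-!
# Theorem DM, part GL, module Cu: cube classes
-/

set_option autoImplicit false

open scoped Pointwise

noncomputable section

namespace Pool.Agent.DM.GL

open Pool.Agent.MuZ Pool.Agent.FW Pool.Agent.DN Pool.Agent.DM
open Pool.Agent.DI (io ofC io_inj exists_io io_ofC ofC_io VP MP UP TP ex)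
open Pool.Agent.DT (kap cbr)
open Pool.Agent.DI.GL (Fx StP mem_of_Fx Fx.mul Fx.inv Fx.one)

private theorem Cu_z3 {m : ℕ} (hm : 1 ≤ m) : (zet 3 : Om) ^ 3 ^ m = 1 := by
  obtain ⟨k, rfl⟩ : ∃ k, m = k + 1 := ⟨m - 1, by omega⟩
  have h3 : (zet 3 : Om) ^ 3 = 1 := DT.GL.zet3_prim.pow_eq_one
  rw [pow_succ, mul_comm, pow_mul, h3, one_pow]

theorem tCu : S_Cu := by
  intro hCpt hA L LN P hS N hN ζ hζ w hw hwU hd
  have hP : P.IsPrime := hS.prime
  have hKap := DT.GL.tKap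
  have hw0 : w ≠ 0 := hwU.ne_zero
  -- the field contains the roots of unity
  have hζL : ζ ∈ LN N := mem_of_Fx fun τ hτ => ((hS.lnx N ζ hN hζ τ).1 hτ).2
  have hz3 : zet 3 ∈ LN N := by
    obtain ⟨i, -, hi⟩ := hζ.eq_pow_of_pow_eq_one (Cu_z3 hN)
    rw [← hi]
    exact pow_mem hζL i
  obtain ⟨r0, hr0⟩ := IsAlgClosed.exists_pow_nat_eq w (show 0 < 3 by norm_num)
  -- elements of `DD` fix `r0`
  have h1 : ∀ d : Gal(Om/ℚ), DT.GL.DD LN P d → d r0 = r0 := by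
    intro d h
    have hF : Fx (LN N) d := h.2 N hN
    exact (hKap.1 w r0 d hw0 hr0 (hF w hw) (hF _ hz3)).1 (hd d h)
  obtain ⟨m0, hm0⟩ := hCpt L LN P hS r0 h1
  have hm : ∀ d : Gal(Om/ℚ), DT.GL.DL L P (max m0 N) d → kap w d = 0 := by
    intro d h
    have h2 : d r0 = r0 := hm0 _ (le_max_left _ _) d h
    have h3 : d w = w := by rw [← hr0, map_pow, h2]
    exact (hKap.1 w r0 d hw0 hr0 h3 (h.2.2 _ (Cu_z3 (le_trans hN (le_max_right _ _))))).2 h2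
  obtain ⟨j, hj⟩ := hA L LN P hS N hN ζ hζ w hw hw0 _ hm
  obtain ⟨r, hr⟩ := IsAlgClosed.exists_pow_nat_eq (w * ζ ^ j) (show 0 < 3 by norm_num)
  have hrL : r ^ 3 ∈ LN N := by
    rw [hr]
    exact mul_mem hw (pow_mem hζL j)
  have hζU : UP P ζ := by
    refine DI.UP.of_pow (n := 3 ^ N) (by positivity) ?_
    rw [hζ.pow_eq_one]
    exact DI.UP.one
  have hrU : UP P r := by
    refine DI.UP.of_pow (n := 3) (by norm_num) ?_
    rw [hr]
    exact hwU.mul (hζU.pow j)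
  refine ⟨j, fun M => ?_⟩
  obtain ⟨r', hr'L, y, hy, hry⟩ := DT.GL.tApp DT.GL.tStb DT.GL.tArch (LN N) P hP hS.three hz3 r hrL
    (hj r hr) M
  have h3V : VP P ((3 : Om) ^ M) := (show VP P (3 : Om) by exact_mod_cast DI.VP.nat (P := P) 3).pow M
  have hVr' : VP P r' := by
    have e : r' = r - 3 ^ M * y := by linear_combination -hry
    rw [e]
    exact hrU.1.sub (h3V.mul hy)
  refine ⟨r', hr'L, hVr', y * (r ^ 2 + r * r' + r' ^ 2),
    hy.mul (((hrU.1.pow 2).add (hrU.1.mul hVr')).add (hVr'.pow 2)), ?_⟩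
  rw [← hr]
  linear_combination (r ^ 2 + r * r' + r' ^ 2) * hry

end Pool.Agent.DM.GL
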