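import Pool.Agent.Lib.DM.GL.Spec

/-!
# Theorem DM, part GL, module `FixH`: the derivative of elements fixed by `H'` (helper1)

See the docstring of `S_FixH` (`DM/GL/Spec.lean`).
-/

set_option autoImplicit false

open scoped Pointwise

noncomputable section

namespace Pool.Agent.DM.GL

open Pool.Agent.MuZ Pool.Agent.FW Pool.Agent.DN Pool.Agent.DM
open Pool.Agent.DI (io ofC io_inj exists_io io_ofC ofC_io VP MP UP TP ex)
open Pool.Agent.DT (kap cbr)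

variable {n t : ℕ}

private theorem hq_one {f N : ℕ} : Hq f N (1 : OO n t) := by
  refine ⟨?_, ?_, ?_⟩
  · rw [sub_self]
    exact dvd_zero _
  · rw [sub_self]
    exact dvd_zero _
  · rw [Nm_one, sub_self]
    exact dvd_zero _

private theorem hq_cop {f N : ℕ} {h : OO n t} (hh : Hq f N h) : Cop h 3 := by
  have h1 : ((3 : ℕ) : OO n t) ∣ 1 - h := by
    obtain ⟨u, hu⟩ := hh.2.1
    refine ⟨-(3 * u), ?_⟩
    have e : (1 : OO n t) - h = -(h - 1) := by ring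
    rw [e, hu]
    push_cast
    ring
  exact cop_congr h1 (cop_one 3)

private theorem hq_ch {f f' N : ℕ} (hN : 3 ≤ N) {u v : OO n t} (hv : Hq f N v)
    (h2 : (f' : OO n t) ∣ u - 1) (h1 : ((3 ^ N : ℕ) : OO n t) ∣ u - v) : Hq f' N u := by
  refine ⟨h2, ?_, ?_⟩
  · have h4 : (9 : OO n t) ∣ ((3 ^ N : ℕ) : OO n t) := by
      refine ⟨((3 ^ (N - 2) : ℕ) : OO n t), ?_⟩
      have e : 3 ^ N = 9 * 3 ^ (N - 2) := by
        have e1 : (9 : ℕ) = 3 ^ 2 := by norm_num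
        rw [e1, ← pow_add]
        exact congrArg _ (by omega)
      rw [e]
      push_cast
      ring
    have e : u - 1 = (u - v) + (v - 1) := by ring
    rw [e]
    exact dvd_add (h4.trans h1) hv.2.1
  · have h4 : ((3 ^ N : ℕ) : ℤ) ∣ Nm u - Nm v := Nm_congr h1
    have h5 : (3 : ℤ) ^ N ∣ Nm u - Nm v := by
      push_cast at h4
      exact h4
    have e : Nm u - 1 = (Nm u - Nm v) + (Nm v - 1) := by ring
    rw [e]
    exact dvd_add h5 hv.2.2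

theorem tFixH : S_FixH := by
  classical
  intro hFix _ hRep hPi hSur hSum hGen n t _ P hP f N z0 d hp hN f' hf' hff' x y hD hx
  have hPp : P.IsPrime := hP.1.1
  obtain ⟨-, hG, -, -⟩ := hGen n t P hP f N z0 d hp
  obtain ⟨hPi1, -, hPi2, -, hPi4⟩ := hPi n t P hP f N z0 d hp
  obtain ⟨r1, -, r3⟩ := hRep n t N (by omega)
  obtain ⟨T, hT⟩ := r1 (Hq f N)
  obtain ⟨h1, hh1, hd1⟩ := hT.ex 1 hq_one
  have hpi1 : pH z0 d (1 : OO n t) = pH z0 d h1 := hPi2 1 h1 hd1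
  obtain ⟨-, hs2⟩ := (hSum n t P hP f N z0 d hp).1 hN T hT h1 hh1
  have hq0 : (0 : ℚ) ≤ 3 / 8 - 4 / 3 ^ N := by
    have h3 : (27 : ℚ) ≤ 3 ^ N := by
      have h4 : (3 : ℚ) ^ 3 ≤ 3 ^ N := pow_le_pow_right₀ (by norm_num) hN
      norm_num at h4
      exact h4
    have h5 : (4 : ℚ) / 3 ^ N ≤ 4 / 27 := div_le_div_of_nonneg_left (by norm_num) (by norm_num) h3
    linarith
  have hq2 : (3 / 8 - 4 / 3 ^ N : ℚ) ≤ 2 := by
    have h3 : (0 : ℚ) ≤ 4 / 3 ^ N := by positivity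
    linarith
  have hvO : VP P (vO (⊤ : Ideal (OO n t)) (z0 + d)) := by
    have h3 := (hPi1 1 (cop_one 3)).2.2.2.2.2.2
    rw [toC_one, one_mul] at h3
    exact h3.1
  refine hFix P 3 1 (P.inertia Gal(Om/ℚ)) _ _ hG 2 (3 / 8 - 4 / 3 ^ N)
    (vO (⊤ : Ideal (OO n t)) (z0 + d)) (T.image (pH z0 d)) hvO ?_ hq0 hq2 ?_ x y hD ?_
  · rw [hpi1]
    exact Finset.mem_image_of_mem _ hh1
  · rw [hpi1]
    exact hs2
  · intro r hr
    obtain ⟨a, ha, rfl⟩ := Finset.mem_image.1 hr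
    obtain ⟨u, hu1, hu2⟩ := (r3 f' hf'.pos hf'.cop).1 a
    have hu : Hq f' N u := hq_ch hN (hT.mem a ha) hu1 hu2
    obtain ⟨τ, hτ⟩ := hSur n t P hP f' N hf' (by omega) u hu.1 (hq_cop hu)
    refine ⟨τ, hτ.ine, ?_, hx u τ hτ hu⟩
    rw [hPi4 f' u τ hf' hff' hτ 1, mul_one]
    exact hPi2 u a hu2

end Pool.Agent.DM.GL
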