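import Pool.Agent.Lib.DM.GL.Spec

/-!
# Theorem DM, part GL, module Gen: the instance of the abstract theory (author helper71)
-/

set_option autoImplicit false

open scoped Pointwise

noncomputable section

namespace Pool.Agent.DM.GL

open Pool.Agent.MuZ Pool.Agent.FW Pool.Agent.DN Pool.Agent.DM
open Pool.Agent.DI (io ofC io_inj exists_io io_ofC ofC_io VP MP UP TP ex)
open Pool.Agent.DT (kap cbr)

variable {n t : ℕ}

/-- Different classes give different conjugates. -/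
private theorem dvd_of_eq (pi : C_Pi) [Ine3 n t] {P : Ideal ZZ} (hP : Ab3 P) {f N : ℕ} {z0 d : ℂ}
    (hpt : Pt n t f N z0 d) {h h' : OO n t} (hc : Cop h 3) (hc' : Cop h' 3)
    (he : pH z0 d h = pH z0 d h') : ((3 ^ N : ℕ) : OO n t) ∣ h - h' := by
  classical
  by_contra hne
  have hN := hpt.pos
  have hex : ∃ j : ℕ, ¬ ((3 ^ (j + 1) : ℕ) : OO n t) ∣ h - h' := by
    refine ⟨N - 1, ?_⟩
    rw [show N - 1 + 1 = N by omega]
    exact hne
  have hlt : Nat.find hex ≤ N - 1 := by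
    refine Nat.find_min' hex ?_
    rw [show N - 1 + 1 = N by omega]
    exact hne
  have hmem : ((3 ^ (Nat.find hex) : ℕ) : OO n t) ∣ h - h' := by
    rcases Nat.eq_zero_or_pos (Nat.find hex) with h0 | h0
    · rw [h0, pow_zero, Nat.cast_one]
      exact one_dvd _
    · have h1 := Nat.find_min hex (m := Nat.find hex - 1) (by omega)
      rw [not_not, show Nat.find hex - 1 + 1 = Nat.find hex by omega] at h1
      exact h1
  obtain ⟨h4, -⟩ := (pi n t P hP f N z0 d hpt).2.2.2.1 h h' (Nat.find hex) hc hc' (by omega) hmem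
    (Nat.find_spec hex)
  exact h4 (sub_eq_zero.2 he)

private theorem cop_cg {h h' : OO n t} {N : ℕ} (hN : 1 ≤ N) (hd : ((3 ^ N : ℕ) : OO n t) ∣ h - h')
    (hc : Cop h 3) : Cop h' 3 := by
  refine cop_congr ?_ hc
  have h1 : ((3 : ℕ) : OO n t) ∣ ((3 ^ N : ℕ) : OO n t) := by
    obtain ⟨s, hs⟩ := dvd_pow_self 3 (show N ≠ 0 by omega)
    exact ⟨(s : OO n t), by rw [hs]; push_cast; ring⟩
  exact dvd_trans h1 hd

open Classical in
private theorem mem_orb (pi : C_Pi) [Ine3 n t] {P : Ideal ZZ} (hP : Ab3 P) {f N : ℕ} {z0 d : ℂ}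
    (hpt : Pt n t f N z0 d) (r : Om) :
    r ∈ orb n t N z0 d ↔ ∃ h : OO n t, Cop h 3 ∧ r = pH z0 d h := by
  have hN := hpt.pos
  unfold orb
  rw [Finset.mem_image]
  constructor
  · rintro ⟨⟨x, y⟩, hp, hr⟩
    rw [Finset.mem_filter] at hp
    refine ⟨⟨x, y⟩, ?_, hr.symm⟩
    rw [cop3_iff, three_dvd_iff]
    rintro ⟨h1, h2⟩
    change (3 : ℤ) ∣ (x : ℤ) at h1
    change (3 : ℤ) ∣ (y : ℤ) at h2
    exact hp.2 ⟨by omega, by omega⟩
  · rintro ⟨h, hc, hr⟩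
    have hq : (0 : ℤ) < ((3 ^ N : ℕ) : ℤ) := by positivity
    obtain ⟨x, hx⟩ : ∃ x : ℕ, (x : ℤ) = h.re % ((3 ^ N : ℕ) : ℤ) :=
      ⟨(h.re % ((3 ^ N : ℕ) : ℤ)).toNat, Int.toNat_of_nonneg (Int.emod_nonneg _ hq.ne')⟩
    obtain ⟨y, hy⟩ : ∃ y : ℕ, (y : ℤ) = h.im % ((3 ^ N : ℕ) : ℤ) :=
      ⟨(h.im % ((3 ^ N : ℕ) : ℤ)).toNat, Int.toNat_of_nonneg (Int.emod_nonneg _ hq.ne')⟩
    have hx1 : x < 3 ^ N := by
      have := Int.emod_lt_of_pos h.re hq
      omega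
    have hy1 : y < 3 ^ N := by
      have := Int.emod_lt_of_pos h.im hq
      omega
    have hd : ((3 ^ N : ℕ) : OO n t) ∣ h - (⟨x, y⟩ : OO n t) := by
      rw [nat_dvd_iff, QuadraticAlgebra.re_sub, QuadraticAlgebra.im_sub]
      change ((3 ^ N : ℕ) : ℤ) ∣ h.re - (x : ℤ) ∧ ((3 ^ N : ℕ) : ℤ) ∣ h.im - (y : ℤ)
      rw [hx, hy]
      exact ⟨Int.dvd_self_sub_emod, Int.dvd_self_sub_emod⟩
    have hc2 := cop_cg hN hd hc
    refine ⟨(x, y), ?_, ?_⟩
    · rw [Finset.mem_filter, Finset.mem_product, Finset.mem_range, Finset.mem_range]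
      refine ⟨⟨hx1, hy1⟩, ?_⟩
      rintro ⟨h1, h2⟩
      rw [cop3_iff, three_dvd_iff] at hc2
      refine hc2 ⟨?_, ?_⟩
      · change (3 : ℤ) ∣ (x : ℤ)
        change 3 ∣ x at h1
        omega
      · change (3 : ℤ) ∣ (y : ℤ)
        change 3 ∣ y at h2
        omega
    · rw [hr]
      exact ((pi n t P hP f N z0 d hpt).2.2.1 h ⟨x, y⟩ hd).symm

theorem tGen : S_Gen := by
  classical
  intro k0 inn rep pi sur sum n t _ P hP f N z0 d hpt
  have hN := hpt.pos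
  have hm := mem_orb pi hP hpt
  obtain ⟨p1, -, p3, -, p5⟩ := pi n t P hP f N z0 d hpt
  obtain ⟨-, inn⟩ := inn n t P hP
  obtain ⟨r1, -, r3⟩ := rep n t N hN
  obtain ⟨r3, r4, -⟩ := r3 f hpt.fok.pos hpt.fok.cop
  have hc1 : Cop (1 : OO n t) 3 := cop_one 3
  -- the characterization of the stabilizer
  have hst : ∀ f' : ℕ, Fok f' → f ∣ f' → ∀ (h : OO n t) (τ : Gal(Om/ℚ)), Cls P f' N h τ →
      (τ (pH z0 d (1 : OO n t)) = pH z0 d (1 : OO n t) ↔ ((3 ^ N : ℕ) : OO n t) ∣ h - 1) := by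
    intro f' hf' hff h τ hτ
    rw [p5 f' h τ hf' hff hτ 1, mul_one]
    exact ⟨fun he => dvd_of_eq pi hP hpt hτ.cop hc1 he, fun hd => p3 h 1 hd⟩
  -- the system of representatives
  obtain ⟨T, hT⟩ := r1 (Un f)
  have horb : orb n t N z0 d = T.image (pH z0 d) := by
    ext r
    rw [hm r, Finset.mem_image]
    constructor
    · rintro ⟨h, hc, hr⟩
      obtain ⟨v, hv1, hv2⟩ := r3 h
      have hcv : Cop v 3 := cop_cg hN (by rw [dvd_sub_comm]; exact hv2) hc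
      obtain ⟨u, hu, hu1⟩ := hT.ex v ⟨hv1, hcv⟩
      exact ⟨u, hu, by rw [hr, ← p3 v h hv2, p3 v u hu1]⟩
    · rintro ⟨h, hh, hr⟩
      exact ⟨h, (hT.mem h hh).2, hr.symm⟩
  have hinj : Set.InjOn (pH z0 d : OO n t → Om) (T : Set (OO n t)) := by
    intro h hh h' hh' he
    exact hT.uni h hh h' hh' (dvd_of_eq pi hP hpt (hT.mem h hh).2 (hT.mem h' hh').2 he)
  have hcard : (orb n t N z0 d).card = 8 * 9 ^ (N - 1) := by
    rw [horb, Finset.card_image_of_injOn hinj, r4 T hT]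
  refine ⟨hm, ?_, ?_, ?_⟩
  · refine ⟨hP.1.1, pl hP, fun σ hσ => hσ, one_pos, ?_, ?_, ?_, ?_, ?_, ?_, ?_⟩
    · intro x hx hx0
      obtain ⟨j, hj⟩ := k0 P 3 hP.1.1 Nat.prime_three (pl hP) x hx hx0
      exact ⟨j, by rw [hj, Nat.cast_one, div_one]⟩
    · exact (hm _).2 ⟨1, hc1, rfl⟩
    · intro σ hσ r hr
      obtain ⟨h', hc', hr'⟩ := (hm r).1 hr
      obtain ⟨h, hh⟩ := (inn f N hpt.fok hN).1 σ hσ
      rw [hr', p5 f h σ hpt.fok (dvd_refl f) hh h']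
      exact (hm _).2 ⟨h * h', cop_mul hh.cop hc', rfl⟩
    · intro r hr
      obtain ⟨h, hc, hr'⟩ := (hm r).1 hr
      obtain ⟨v, hv1, hv2⟩ := r3 h
      have hcv : Cop v 3 := cop_cg hN (by rw [dvd_sub_comm]; exact hv2) hc
      obtain ⟨τ, hτ⟩ := sur n t P hP f N hpt.fok hN v hv1 hcv
      refine ⟨τ, hτ.ine, ?_⟩
      rw [p5 f v τ hpt.fok (dvd_refl f) hτ 1, mul_one, hr', p3 v h hv2]
    · intro σ hσ hσπ r hr
      obtain ⟨h', hc', hr'⟩ := (hm r).1 hr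
      obtain ⟨h, hh⟩ := (inn f N hpt.fok hN).1 σ hσ
      have hd := (hst f hpt.fok (dvd_refl f) h σ hh).1 hσπ
      rw [hr', p5 f h σ hpt.fok (dvd_refl f) hh h']
      refine p3 (h * h') h' ?_
      have e : h * h' - h' = (h - 1) * h' := by ring
      rw [e]
      exact dvd_mul_of_dvd_left hd _
    · exact (p1 1 hc1).1
    · rw [hcard]
      have h1 := (p1 1 hc1).2.1
      change DL.vl P 3 (pH z0 d (1 : OO n t)) = _ at h1
      rw [h1]
      push_cast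
      rw [one_mul]
  · obtain ⟨h0, hh0, hd0⟩ := hT.ex 1 ⟨by rw [sub_self]; exact dvd_zero _, hc1⟩
    have h2 := ((sum n t P hP f N z0 d hpt).2 T hT h0 hh0).2
    rw [← p3 1 h0 hd0, ← horb] at h2
    exact h2
  · intro f' hf' hff
    refine ⟨hst f' hf' hff, fun x hx σ hσ hσπ => ?_⟩
    obtain ⟨h, hh⟩ := (inn f' N hf' hN).1 σ hσ
    have hd := (hst f' hf' hff h σ hh).1 hσπ
    refine hx σ ((inn f' N hf' hN).2.2.1 σ h 1 hh ?_ ?_)
    · rw [sub_self]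
      exact dvd_zero _
    · rw [dvd_sub_comm]
      exact hd

end Pool.Agent.DM.GL
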