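import Pool.Agent.Lib.DM.GL.SpecB

/-!
# Theorem DM, part GL, module Kud: the Kummer relation between `X(z)` and `X(z + u)`
-/

set_option autoImplicit false

open scoped Pointwise

noncomputable section

namespace Pool.Agent.DM.GL

open Pool.Agent.MuZ Pool.Agent.FW Pool.Agent.DN Pool.Agent.DM
open Pool.Agent.DI (io ofC io_inj exists_io io_ofC ofC_io VP MP UP TP ex)
open Pool.Agent.DT (kap cbr)
open Pool.Agent.DI.GL (Fx StP mem_of_Fx Fx.mul Fx.inv Fx.one)

private theorem kud_two {n t : ℕ} [SqN n t] {b : Ideal (OO n t)} (hb : G30 b) : PrI b 2 := by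
  have h30 : (30 : ℕ) = 2 * 15 := rfl
  have h := hb.cop
  rw [h30] at h
  exact (((aO6 n t).2.1 2 15 b).1 h).1

theorem tKud : S_Kud := by
  intro hBC hR1 n t _ b hb z u hz hu hzL huL hzu hzu' X X' U W W' V b2 b4 b6 b8 hX hX' hU hW hW' hV
    hb2 hb4 hb6 hb8
  obtain ⟨hc, -, hxw, -⟩ := (hR1 n t).1 b hb
  have B : BC b := (hBC n t b hb.ne (kud_two hb)).1
  have iX : io X = XC b z := by rw [hX]; exact (hxw z hz).1
  have iX' : io X' = XC b (z + u) := by rw [hX']; exact (hxw _ (tor_add hz hu)).1
  have iU : io U = XC b u := by rw [hU]; exact (hxw u hu).1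
  have iW : io W = WC b z := by rw [hW]; exact (hxw z hz).2
  have iW' : io W' = WC b (z + u) := by rw [hW']; exact (hxw _ (tor_add hz hu)).2
  have iV : io V = WC b u := by rw [hV]; exact (hxw u hu).2
  have k1 := B.kad z u hzL huL hzu hzu'
  have k2 := B.kml z u hzL huL hzu hzu'
  have k3 := B.ksb z u hzL huL hzu hzu'
  -- the product of the two derivatives
  have k4 : WC b (z + u) * WC b u =
      2 * XC b z * (XC b (z + u) - XC b u) ^ 2 -
        (2 * XC b (z + u) * XC b u * (XC b (z + u) + XC b u) +
          (1 - 8 * cC b) * (XC b (z + u) * XC b u) + 2 * cC b ^ 2 * (XC b (z + u) + XC b u)) := by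
    by_cases h2 : z + u + u ∈ Lam b
    · have e1 : z + u = -u + (z + u + u) := by ring
      have h3 := B.per (-u) (z + u + u) h2
      have h4 := B.neg u
      have hx : XC b (z + u) = XC b u := by rw [e1, h3.1, h4.1]
      have hw : WC b (z + u) = -WC b u := by rw [e1, h3.2, h4.2]
      have h5 := B.crv u huL
      rw [hx, hw]
      linear_combination -h5
    · have e2 : z + u - u = z := by ring
      have m1 := B.kad (z + u) u hzu huL h2 (by rwa [e2])
      have m3 := B.ksb (z + u) u hzu huL h2 (by rwa [e2])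
      rw [e2] at m1 m3
      linear_combination m3 - m1
  rw [hb2, hb4, hb6, hb8]
  refine ⟨?_, ?_, ?_⟩
  · apply io_inj
    simp only [map_add, map_sub, map_mul, map_pow, map_neg, map_zero, map_one, map_ofNat, iX, iX', iU, hc]
    linear_combination XC b (z + u) * k1 - k2
  · apply io_inj
    simp only [map_add, map_sub, map_mul, map_pow, map_neg, map_zero, map_one, map_ofNat, iX, iX', iU, iW,
      iV, hc]
    linear_combination k1 + k3
  · apply io_inj
    simp only [map_add, map_sub, map_mul, map_pow, map_zero, map_one, map_ofNat, iX, iX', iU, iW,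
      iW', iV, hc]
    linear_combination -WC b z * k4

end Pool.Agent.DM.GL
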