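import Pool.Agent.Lib.DM.GL.SpecB
import Pool.Agent.Lib.DT.GL.RR
import Pool.Agent.Lib.DT.GL.Lin
import Pool.Agent.Lib.DT.GL.Kap
import Pool.Agent.Lib.DT.GL.Arch

/-!
# Theorem DM, part GL, module LSS: the local step up to the exact sum

The root of unity `zet 3` is in `L'_N`: this uses `S_GM` (one more hypothesis than in `S_LSS`).
-/

set_option autoImplicit false

open scoped Pointwise

noncomputable section

namespace Pool.Agent.DM.GL

open Pool.Agent.MuZ Pool.Agent.FW Pool.Agent.DN Pool.Agent.DM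
open Pool.Agent.DI (io ofC io_inj exists_io io_ofC ofC_io VP MP UP TP ex)
open Pool.Agent.DT (kap cbr)
open Pool.Agent.DI.GL (Fx StP mem_of_Fx Fx.mul Fx.inv Fx.one)

variable {n t : ℕ}

/-- The decomposition of a sum over `D`. -/
private theorem LSS_split {ι : Type} {n : ℕ} (D : Finset ι) (χ : ι → Om) (b : Fin n → ι)
    (c : Fin n → ι → ℕ) (C : ι → Om) : ∑ v ∈ D, χ v * C v =
      ∑ v ∈ D, (χ v - ∑ i, (c i v : Om) * χ (b i)) * C v +
        ∑ i, χ (b i) * ∑ v ∈ D, (c i v : Om) * C v := by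
  have h1 : ∑ i, χ (b i) * ∑ v ∈ D, (c i v : Om) * C v =
      ∑ v ∈ D, (∑ i, (c i v : Om) * χ (b i)) * C v := by
    simp only [Finset.mul_sum, Finset.sum_mul]
    rw [Finset.sum_comm]
    refine Finset.sum_congr rfl fun v _ => Finset.sum_congr rfl fun i _ => ?_
    ring
  rw [h1, ← Finset.sum_add_distrib]
  refine Finset.sum_congr rfl fun v _ => ?_
  ring

/-- The values of `oN`. -/
private theorem LSS_oN (c : Ideal (OO n t)) (e : ℕ) : oN c ^ e = 0 ∨ (oN c ^ e) ^ 2 = 1 := by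
  have h : oN c = 0 ∨ oN c ^ 2 = 1 := by
    unfold oN
    split_ifs
    · exact Or.inr (one_pow 2)
    · exact Or.inr (by norm_num)
    · exact Or.inl rfl
  rcases h with h | h
  · rcases Nat.eq_zero_or_pos e with he | he
    · rw [he, pow_zero]
      exact Or.inr (one_pow 2)
    · rw [h]
      exact Or.inl (zero_pow he.ne')
  · exact Or.inr (by rw [← pow_mul, mul_comm, pow_mul, h, one_pow])

private theorem LSS_zet (hGM : S_GM) (n t : ℕ) [Ine3 n t] (f : ℕ) (hf : Fok f) (g : Gal(Om/ℚ))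
    (hg : Fx (Mn n t f 1) g) : g (zet 3) = zet 3 := by
  obtain ⟨-, -, -, -, -, -, -, h⟩ := hGM n t f hf
  have hp : IsPrimitiveRoot (zet 3) (3 ^ 1) := by
    rw [pow_one]
    exact DT.GL.zet3_prim
  exact ((h 1 le_rfl (zet 3) hp g).1 hg).2

/-- The result, with the hypothesis `S_GM`. -/
theorem tLSS : S_GM → S_LSS := by
  intro hGM hG3 hDer hLDr hCPi hGen hRou hPnt hZtD hUn4 hRes n t _ f e m χ P hFM hχ hP N T D hN hT hD
    hsum
  have hPi : P.IsPrime := hP.1.1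
  have h3 : MP P 3 := hP.2
  have hFok : Fok f := hFM.toFok
  obtain ⟨z0, d, hPt, hzd, hz0⟩ := hPnt n t f N hFok (by omega)
  have hW : VP P (vO (⊤ : Ideal (OO n t)) (z0 + d)) := by
    obtain ⟨h1, -⟩ := hCPi n t P hP f N z0 d hPt
    have h2 := (h1 1 (cop_one 3)).2.2.2.2.2.2
    have e1 : z0 + toC (1 : OO n t) * d = z0 + d := by
      rw [toC_one, one_mul]
    rw [e1] at h2
    exact h2.1
  obtain ⟨-, hGen1, hGen2, -⟩ := hGen n t P hP f N z0 d hPt
  have hq2 : (2 : ℚ) ≤ vP P (DL.dl (orb n t N z0 d) (pH z0 d (1 : OO n t))) := by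
    rw [hGen2]
    have : (3 : ℚ) ≤ N := by exact_mod_cast hN
    linarith
  obtain ⟨-, -, -, hL4, hL5, -, -⟩ := hLDr P 3 1 _ _ _ hGen1 2 _ (by norm_num) hq2 hW
  obtain ⟨ζ, hζ⟩ : ∃ ζ : Om, IsPrimitiveRoot ζ (3 ^ N) := 
    ⟨DT.zet (3 ^ N), DT.GL.zet_prim (3 ^ N) (by positivity)⟩
  obtain ⟨th, hth, hthG, hthE⟩ := hZtD n t P hP f N z0 d hPt hN ζ hζ
  have hG : ∀ c : Ideal (OO n t), c ≠ ⊥ → PrI c (3 * f) →
      uN f N m T c ∈ Mn n t f N ∧ UP P (uN f N m T c) := fun c hc hc' => by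
    obtain ⟨h3, -, h4, -⟩ := hG3 n t f m N T hFM (by omega) hT c hc hc'
    exact ⟨h3, h4 P hP.1⟩
  have hU : ∀ c ∈ D, LD n t P z0 d (uN f N m T c) (SN f N m T c) ∧
      GE P (3 / 8 - 4 / 3 ^ N) (SN f N m T c) := fun c hc =>
    hUn4 n t P hP f N m T hFM hN hT.mem (fun c hc hc' => (hG c hc hc').1) z0 d hPt hzd hz0 c
      (hD c hc).1 (hD c hc).2
  obtain ⟨m0, hm0, hχ'⟩ := hχ.cop
  obtain ⟨χ', hχ'def⟩ : ∃ χ' : Ideal (OO n t) → Om, ∀ c, χ' c = χ c * oN c ^ e := ⟨_, fun _ => rfl⟩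
  have hm' : (2 * m0).Coprime 3 := Nat.Coprime.mul_left (by norm_num) hm0
  have hχ1 : ∀ c, χ' c = 0 ∨ χ' c ^ (2 * m0) = 1 := by
    intro c
    rw [hχ'def]
    by_cases h : c = ⊥ ∨ ¬ PrI c (3 * f)
    · exact Or.inl (by rw [hχ.zero c h, zero_mul])
    · rw [not_or, not_not] at h
      rcases LSS_oN c e with h1 | h1
      · exact Or.inl (by rw [h1, mul_zero])
      · right
        rw [mul_pow, pow_mul' (χ c), hχ' c h.1 h.2, one_pow, one_mul, pow_mul, h1, one_pow]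
  have hm'0 : 0 < 2 * m0 := by
    rcases Nat.eq_zero_or_pos m0 with h | h
    · rw [h] at hm0
      norm_num at hm0
    · omega
  have hV : ∀ v, VP P (χ' v) := by
    intro v
    rcases hχ1 v with h | h
    · rw [h]
      exact DI.VP.zero
    · refine DI.VP.of_pow hm'0 ?_
      rw [h]
      exact DI.VP.one
  have hI : ∀ v, ∀ τ ∈ P.inertia Gal(Om/ℚ), τ (χ' v) = χ' v := by
    intro v τ hτ
    rcases hχ1 v with h | h
    · rw [h, map_zero]
    · exact (hRou P hP _ _ hm' h).2.2 τ hτ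
  obtain ⟨r, b, ε, hind, he⟩ := DT.GL.tLin P hPi h3 (Ideal (OO n t)) χ' hV D
  have hRR := DT.GL.tRR DT.GL.tArch
  have hρ : ∀ c ∈ D, GE P 1 (χ' c - ∑ i, (ε i c : Om) * χ' (b i)) := by
    intro v hv
    refine (DL.GE.two_iff (pl hP)).2 ?_
    have h5 := hRR _ χ' (2 * m0) hm' hχ1 P hPi h3 _ ?_ (he v hv)
    · simpa using h5
    refine sub_mem (Algebra.subset_adjoin ⟨v, rfl⟩) (sum_mem fun i _ => ?_)
    exact mul_mem (natCast_mem _ _) (Algebra.subset_adjoin ⟨b i, rfl⟩)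
  have hw1 : ∀ i, (∏ c ∈ D, uN f N m T c ^ ε i c) ∈ Mn n t f N := fun i =>
    prod_mem fun v hv => pow_mem (hG v (hD v hv).1 (hD v hv).2).1 _
  have hkap : ∀ i, ∀ g : Gal(Om/ℚ), DT.GL.DD (Mn n t f) P g →
      kap (∏ c ∈ D, uN f N m T c ^ ε i c) g = 0 := by
    intro i g hg
    have hz3 : g (zet 3) = zet 3 := LSS_zet hGM n t f hFok g (hg.2 1 le_rfl)
    have h3 := hsum g ⟨hg.1, fun N hN => hg.2 N hN⟩
    have h3' : MP P (∑ c ∈ D, χ' c * ((kap (uN f N m T c) g).val : Om)) := by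
      have e1 : ∑ c ∈ D, χ' c * ((kap (uN f N m T c) g).val : Om)
          = ∑ c ∈ D, χ c * oN c ^ e * ((kap (uN f N m T c) g).val : Om) :=
        Finset.sum_congr rfl fun c _ => by rw [hχ'def]
      rw [e1]
      exact h3
    rw [LSS_split D χ' b ε] at h3'
    have h4 : MP P (∑ v ∈ D, (χ' v - ∑ i, (ε i v : Om) * χ' (b i)) *
        ((kap (uN f N m T v) g).val : Om)) :=
      DI.MP.sum D _ fun v hv => DI.MP.mul_right (he v hv) (DI.VP.nat _)
    have h5 := h3'.sub h4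
    rw [add_sub_cancel_left] at h5
    have h6 : ∑ i, χ' (b i) * ∑ v ∈ D, (ε i v : Om) * ((kap (uN f N m T v) g).val : Om) =
        ∑ i, ((∑ v ∈ D, ε i v * (kap (uN f N m T v) g).val : ℕ) : Om) * χ' (b i) := by
      refine Finset.sum_congr rfl fun i _ => ?_
      push_cast
      ring
    rw [h6] at h5
    have h7 := hind _ h5 i
    rw [DT.GL.tKap.2.2.2 _ D (uN f N m T) (ε i) g hz3
      (fun v hv => ⟨(hG v (hD v hv).1 (hD v hv).2).2.ne_zero,
        hg.2 N (by omega) _ (hG v (hD v hv).1 (hD v hv).2).1⟩)]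
    have h8 := (ZMod.natCast_eq_zero_iff _ 3).2 h7
    push_cast at h8
    simpa only [ZMod.natCast_zmod_val] using h8
  have hwi : ∀ i, ∃ j : ℕ, GE P (11 / 8 - 4 / 3 ^ N)
      (∑ c ∈ D, (ε i c : Om) * SN f N m T c + j * th) := fun i =>
    hRes n t P hP f N z0 d hPt hN ζ th hζ hth _ (hw1 i) (hkap i) _
      (hL5 (Ideal (OO n t)) D (fun c => uN f N m T c ^ ε i c)
        (fun c => (ε i c : Om) * SN f N m T c) fun c hc => hL4 _ _ _ (hU c hc).1)
  choose j hj using hwi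
  have hq : (1 : ℚ) + (3 / 8 - 4 / 3 ^ N) = 11 / 8 - 4 / 3 ^ N := by ring
  have key : GE P (11 / 8 - 4 / 3 ^ N)
      (∑ c ∈ D, χ' c * SN f N m T c + (∑ i, (j i : Om) * χ' (b i)) * th) := by
    have e1 : ∑ c ∈ D, χ' c * SN f N m T c + (∑ i, (j i : Om) * χ' (b i)) * th =
        ∑ v ∈ D, (χ' v - ∑ i, (ε i v : Om) * χ' (b i)) * SN f N m T v +
        ∑ i, χ' (b i) * (∑ v ∈ D, (ε i v : Om) * SN f N m T v + j i * th) := by
      rw [LSS_split D χ' b ε, add_assoc, Finset.sum_mul, ← Finset.sum_add_distrib]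
      congr 1
      refine Finset.sum_congr rfl fun i _ => ?_
      ring
    rw [e1]
    refine DL.GE.add (pl hP) (DL.GE.sum (pl hP) _ _ fun c hc => ?_) (DL.GE.sum (pl hP) _ _
      fun i _ => DL.GE.mul_left (pl hP) (hV _) (hj i))
    have h3 := DL.GE.mul (pl hP) (hρ c hc) (hU c hc).2
    rwa [hq] at h3
  refine ⟨∑ i, (j i : Om) * χ' (b i), th, ⟨?_, ?_⟩, hthG, hthE, ?_⟩
  · exact DI.VP.sum _ _ fun i _ => (DI.VP.nat (j i)).mul (hV (b i))
  · intro τ hτ
    rw [map_sum]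
    refine Finset.sum_congr rfl fun i _ => ?_
    rw [map_mul, map_natCast, hI (b i) τ hτ]
  · have h9 := DL.GE.neg (pl hP) key
    have e2 : ∑ c ∈ D, χ c * oN c ^ e * (rO (⊤ : Ideal (OO n t)) c *
          ∑ h ∈ T, toO h * gO m c (toC h / (f * 3 ^ N : ℕ))) - (∑ i, (j i : Om) * χ' (b i)) * th
        = -(∑ c ∈ D, χ' c * SN f N m T c + (∑ i, (j i : Om) * χ' (b i)) * th) := by
      have e3 : ∑ c ∈ D, χ c * oN c ^ e * (rO (⊤ : Ideal (OO n t)) c *
          ∑ h ∈ T, toO h * gO m c (toC h / (f * 3 ^ N : ℕ)))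
          = -∑ c ∈ D, χ' c * SN f N m T c := by
        rw [← Finset.sum_neg_distrib]
        refine Finset.sum_congr rfl fun c _ => ?_
        rw [hχ'def]
        unfold SN
        ring
      rw [e3]
      ring
    rw [e2]
    exact h9

end Pool.Agent.DM.GL
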