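import Pool.Agent.Lib.DM.GL.SpecB

/-!
# Theorem DM, part GL: inertia and the fields `Mn`
-/

set_option autoImplicit false

open scoped Pointwise

noncomputable section

namespace Pool.Agent.DM.GL

open Pool.Agent.MuZ Pool.Agent.FW Pool.Agent.DN Pool.Agent.DM
open Pool.Agent.DI (io ofC io_inj exists_io io_ofC ofC_io VP MP UP TP ex)
open Pool.Agent.DT (kap cbr)
open Pool.Agent.DI.GL (Fx StP mem_of_Fx Fx.mul Fx.inv Fx.one)

private theorem Mnf_ne {n t : ℕ} {h : OO n t} (hc : Cop h 3) : h ≠ 0 := by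
  rintro rfl
  unfold Cop at hc
  rw [Nm_zero] at hc
  have h1 := isCoprime_zero_left.1 hc
  rw [Int.isUnit_iff] at h1
  norm_num at h1

private theorem Mnf_two {n t f : ℕ} (hf : f.Coprime 3) {h : OO n t} (h1 : (f : OO n t) ∣ h - 1)
    (h4 : ((3 : ℕ) : OO n t) ∣ h - 1) : ((3 * f : ℕ) : OO n t) ∣ h - 1 := by
  obtain ⟨a1, a2⟩ := (nat_dvd_iff _ _).1 h1
  obtain ⟨b1, b2⟩ := (nat_dvd_iff _ _).1 h4
  have hc : IsCoprime ((3 : ℕ) : ℤ) (f : ℤ) :=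
    Nat.isCoprime_iff_coprime.2 hf.symm
  rw [nat_dvd_iff]
  push_cast
  push_cast at hc b1 b2
  exact ⟨hc.mul_dvd b1 a1, hc.mul_dvd b2 a2⟩

/-- **Mnf.** -/
theorem tMnf : S_Mnf := by
  intro hGM hIn n t _ P hP f f' N h τ hF hN hF' hff hcls hHq x hx
  obtain ⟨hIn1, hIn2⟩ := hIn n t P hP
  have hτ : τ ∈ GK n t := hIn1 τ hcls.ine
  have h1 : Cls P f N h τ := (hIn2 f' N hF' hN).2.2.2.2.2.2.2 τ h f N hcls hF hff hN le_rfl
  have hd3 : ((3 : ℕ) : OO n t) ∣ h - 1 := by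
    rcases hHq with hq | hq
    · refine Dvd.dvd.trans ?_ hq.2.1
      exact ⟨3, by norm_num⟩
    · refine Dvd.dvd.trans ?_ hq
      exact Nat.cast_dvd_cast (dvd_pow_self 3 (by omega))
  have hNm : (3 : ℤ) ^ N ∣ Nm h - 1 := by
    rcases hHq with hq | hq
    · exact hq.2.2
    · have h2 := Nm_congr hq
      rw [Nm_one] at h2
      push_cast at h2
      exact h2
  have h2f : ((3 * f : ℕ) : OO n t) ∣ h - 1 := Mnf_two hF.cop h1.one hd3
  have hcop : Cop h (3 * f) := by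
    refine cop_congr ?_ (cop_one (3 * f))
    rw [← neg_sub, dvd_neg]
    exact h2f
  have hG := (hGM n t f hF).2.2.2.2.2.2.1 N hN τ hτ (sp h) h1.psi
  refine hG.2 ⟨h, Mnf_ne h1.cop, ⟨⟨hcop, 0, ?_⟩, hNm⟩, ?_⟩ x hx
  · rw [pow_zero, pow_one]
    exact h2f
  · exact (aO7 n t (f * 3 ^ N) (Nat.mul_pos hF.pos (pow_pos (by norm_num) N))).1 _

end Pool.Agent.DM.GL
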