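import Pool.Agent.Lib.DM.GL.SpecB

/-!
# Theorem DM, part GL, module Odq: the points `z + d`, `z` of order prime to `3`, `d` of order a power of `3`
-/

set_option autoImplicit false

open scoped Pointwise

noncomputable section

namespace Pool.Agent.DM.GL

open Pool.Agent.MuZ Pool.Agent.FW Pool.Agent.DN Pool.Agent.DM
open Pool.Agent.DI (io ofC io_inj exists_io io_ofC ofC_io VP MP UP TP ex)
open Pool.Agent.DT (kap cbr)
open Pool.Agent.DI.GL (Fx StP mem_of_Fx Fx.mul Fx.inv Fx.one)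

variable {n t : ℕ}

private theorem cop_not [SqN n t] {P : Ideal ZZ} [P.IsPrime] (h3 : MP P 3) {f : ℕ} (hf : f.Coprime 3) :
    ¬ MP P (toO ((f : ℕ) : OO n t)) := by
  intro h
  rw [toO_nat] at h
  obtain ⟨a, c, hac⟩ := Nat.isCoprime_iff_coprime.2 hf
  refine DI.MP.one_not (P := P) ?_
  have e : (1 : Om) = (a : Om) * ((f : ℕ) : Om) + (c : Om) * 3 := by
    have := congrArg (fun w : ℤ => (w : Om)) hac
    push_cast at this
    exact this.symm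
  rw [e]
  exact DI.MP.add (DI.MP.mul_left (DI.VP.int a) h) (DI.MP.mul_left (DI.VP.int c) h3)

private theorem int_lam [SqN n t] {b : Ideal (OO n t)} {z : ℂ} (j : ℤ) (h : z ∈ Lam b) :
    (j : ℂ) * z ∈ Lam b := by
  rw [← toC_int (n := n) (t := t)]
  exact lam_mul _ h

private theorem core (d2 : S_D2) [Ine3 n t] {P : Ideal ZZ} (hP : Ab3 P) {b : Ideal (OO n t)} (hb : G30 b)
    {f N : ℕ} {z d : ℂ} (hf : Fok f) (hz : (f : ℂ) * z ∈ Lam b) (hzn : z ∉ Lam b)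
    (hd : (3 : ℂ) ^ N * d ∈ Lam b) :
    ¬ Qp P b (z + d) ∧ ¬ IK P b (z + d) ∧ Tor n t (z + d) ∧ z + d ∉ Lam b ∧ VP P (xO b (z + d)) ∧
      VP P (vO b (z + d)) := by
  have hPp : P.IsPrime := hP.1.1
  have h3 : MP P 3 := hP.2
  have hfd : ((f * 3 ^ N : ℕ) : ℂ) * (z + d) ∈ Lam b := by
    have e : ((f * 3 ^ N : ℕ) : ℂ) * (z + d) = ((3 ^ N : ℕ) : ℂ) * ((f : ℂ) * z) + (f : ℂ) * ((3 : ℂ) ^ N * d) := by
      push_cast
      ring
    rw [e]
    exact lam_add (lam_nat _ hz) (lam_nat _ hd)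
  have hq : ¬ Qp P b (z + d) := by
    intro h
    have h4 := h ((f : ℕ) : OO n t) ((3 ^ N : ℕ) : OO n t) (cop_not h3 hf.cop) (by
      rw [← Nat.cast_mul, toC_nat]
      exact hfd)
    rw [toC_nat] at h4
    have h5 : ((3 ^ N : ℕ) : ℂ) * z ∈ Lam b := by
      have e : ((3 ^ N : ℕ) : ℂ) * z = ((3 ^ N : ℕ) : ℂ) * (z + d) - (3 : ℂ) ^ N * d := by
        push_cast
        ring
      rw [e]
      exact lam_sub h4 hd
    have hcop : IsCoprime ((3 ^ N : ℕ) : ℤ) (f : ℤ) :=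
      Nat.isCoprime_iff_coprime.2 (Nat.Coprime.pow_left _ hf.cop.symm)
    obtain ⟨a, c, hac⟩ := hcop
    apply hzn
    have hac' : (a : ℂ) * ((3 ^ N : ℕ) : ℂ) + (c : ℂ) * (f : ℂ) = 1 := by
      have := congrArg (fun w : ℤ => (w : ℂ)) hac
      push_cast at this ⊢
      exact this
    have e : z = (a : ℂ) * (((3 ^ N : ℕ) : ℂ) * z) + (c : ℂ) * ((f : ℂ) * z) := by
      linear_combination (-z) * hac'
    rw [e]
    exact lam_add (int_lam a h5) (int_lam c hz)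
  have ht : Tor n t (z + d) := (tor_iff hb.ne).2 ⟨f * 3 ^ N, by have := hf.pos; positivity, hfd⟩
  have hl : z + d ∉ Lam b := fun h => hq fun α β _ _ => lam_mul β h
  obtain ⟨-, -, -, q4, -, q6, -⟩ := d2 n t P hP b hb
  have hik := q6 (z + d) ht hq
  obtain ⟨r1, r2⟩ := q4 (z + d) ht hik
  exact ⟨hq, hik, ht, hl, r1, r2⟩

private theorem coreU (d2 : S_D2) [Ine3 n t] {P : Ideal ZZ} (hP : Ab3 P) {b : Ideal (OO n t)} (hb : G30 b)
    {f N : ℕ} {z d : ℂ} (hf : Fok f) (hz : (f : ℂ) * z ∈ Lam b) (hzn : z ∉ Lam b) (hzn2 : 2 * z ∉ Lam b)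
    (hd : (3 : ℂ) ^ N * d ∈ Lam b) : UP P (vO b (z + d)) := by
  have ht := (core d2 hP hb hf hz hzn hd).2.2.1
  have h1 : (f : ℂ) * (2 * z) ∈ Lam b := by
    have := lam_nat 2 hz
    rw [Nat.cast_ofNat] at this
    rwa [mul_left_comm] at this
  have h2 : (3 : ℂ) ^ N * (2 * d) ∈ Lam b := by
    have := lam_nat 2 hd
    rw [Nat.cast_ofNat] at this
    rwa [mul_left_comm] at this
  have h3 := (core d2 hP hb hf h1 hzn2 h2).2.1
  rw [← mul_add] at h3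
  obtain ⟨-, -, -, -, q5, -, -⟩ := d2 n t P hP b hb
  exact q5 (z + d) ht h3

theorem tOdq : S_Odq := by
  intro d2 hin act n t _ P hP b hb f N z d hf hz hzn hd
  obtain ⟨a1, a2, a3, a4, a5, a6⟩ := core d2 hP hb hf hz hzn hd
  have h0 : (3 : ℂ) ^ 0 * (0 : ℂ) ∈ Lam b := by
    rw [mul_zero]
    exact lam_zero b
  obtain ⟨-, -, -, -, b5, b6⟩ := core d2 hP hb hf hz hzn h0
  rw [add_zero] at b5 b6
  refine ⟨a1, a2, a3, a4, a5, a6, fun h2 => ⟨coreU d2 hP hb hf hz hzn h2 hd, ?_⟩, ⟨b5, ?_⟩, ⟨b6, ?_⟩⟩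
  · have := coreU d2 hP hb hf hz hzn h2 h0
    rwa [add_zero] at this
  · intro τ hτ
    obtain ⟨h, hc⟩ := ((hin n t P hP).2 f 1 hf le_rfl).1 τ hτ
    exact (((act n t P hP f 1 h τ hf le_rfl hc).2 b hb).2.2.2.1 z hz).1
  · intro τ hτ
    obtain ⟨h, hc⟩ := ((hin n t P hP).2 f 1 hf le_rfl).1 τ hτ
    exact (((act n t P hP f 1 h τ hf le_rfl hc).2 b hb).2.2.2.1 z hz).2

end Pool.Agent.DM.GL
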