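import Pool.Agent.Lib.DM.GL.Spec

/-!
# DM, part GL, module Pi: the valuations of the uniformizer and of its conjugates (helper2)
-/

set_option autoImplicit false

open scoped Pointwise

noncomputable section

namespace Pool.Agent.DM.GL

open Pool.Agent.MuZ Pool.Agent.FW Pool.Agent.DN Pool.Agent.DM
open Pool.Agent.DI (io ofC io_inj exists_io io_ofC ofC_io VP MP UP TP ex)
open Pool.Agent.DT (kap cbr)

variable {n t : ℕ}

private theorem pi_gtop : G30 (⊤ : Ideal (OO n t)) := ⟨top_ne_bot, top_sup_eq _⟩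

private theorem pi_three : ((3 : ℕ) : OO n t) = 3 := by norm_cast

/-- Multiplication by an element prime to `3` on the points of order `3`. -/
private theorem pi_cop [Ine3 n t] {v : OO n t} (hv : Cop v 3) {x : ℂ}
    (h2 : 3 * x ∈ Lam (⊤ : Ideal (OO n t))) (h : toC v * x ∈ Lam (⊤ : Ideal (OO n t))) :
    x ∈ Lam (⊤ : Ideal (OO n t)) := by
  obtain ⟨b, -, c, hc⟩ := cop_inv hv
  have h3 : toC b * (toC v * x) ∈ Lam (⊤ : Ideal (OO n t)) := lam_mul b h
  have h4 : toC c * (3 * x) ∈ Lam (⊤ : Ideal (OO n t)) := lam_mul c h2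
  have e1 : toC (v * b) = 1 + 3 * toC c := by
    have e2 : v * b = 1 + ((3 : ℕ) : OO n t) * c := by rw [← hc]; ring
    rw [e2, toC_add, toC_mul, toC_one, toC_nat]
    push_cast
    ring
  have e3 : x = toC b * (toC v * x) - toC c * (3 * x) := by
    have e4 : toC b * (toC v * x) = toC (v * b) * x := by rw [toC_mul]; ring
    rw [e4, e1]
    ring
  rw [e3]
  exact lam_sub h3 h4

/-- The exact order of `v d`, `v = 3 ^ j v'`, `v'` prime to `3`. -/
private theorem pi_ord [Ine3 n t] {N j : ℕ} {v : OO n t} {d : ℂ} (hj : j < N)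
    (hd : (3 : ℂ) ^ N * d ∈ Lam (⊤ : Ideal (OO n t))) (hn : (3 : ℂ) ^ (N - 1) * d ∉ Lam (⊤ : Ideal (OO n t)))
    (h1 : ((3 ^ j : ℕ) : OO n t) ∣ v) (h2 : ¬ ((3 ^ (j + 1) : ℕ) : OO n t) ∣ v) :
    (3 : ℂ) ^ (N - 1 - j + 1) * (toC v * d) ∈ Lam (⊤ : Ideal (OO n t)) ∧
      (3 : ℂ) ^ (N - 1 - j) * (toC v * d) ∉ Lam (⊤ : Ideal (OO n t)) := by
  obtain ⟨u, rfl⟩ := h1
  have hu : Cop u 3 := by
    rw [cop3_iff]
    intro h3
    apply h2
    obtain ⟨w, rfl⟩ := h3
    refine ⟨w, ?_⟩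
    push_cast
    ring
  have e1 : toC (((3 ^ j : ℕ) : OO n t) * u) = 3 ^ j * toC u := by
    rw [toC_mul, toC_nat]
    push_cast
    ring
  rw [e1]
  constructor
  · have e2 : (3 : ℂ) ^ (N - 1 - j + 1) * (3 ^ j * toC u * d) = toC u * (3 ^ N * d) := by
      have e3 : (3 : ℂ) ^ N = 3 ^ (N - 1 - j + 1) * 3 ^ j := by
        rw [← pow_add]
        exact congrArg _ (by omega)
      rw [e3]
      ring
    rw [e2]
    exact lam_mul u hd
  · intro h3
    have e2 : (3 : ℂ) ^ (N - 1 - j) * (3 ^ j * toC u * d) = toC u * (3 ^ (N - 1) * d) := by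
      have e3 : (3 : ℂ) ^ (N - 1) = 3 ^ (N - 1 - j) * 3 ^ j := by
        rw [← pow_add]
        exact congrArg _ (by omega)
      rw [e3]
      ring
    rw [e2] at h3
    refine hn (pi_cop hu ?_ h3)
    have e4 : (3 : ℂ) * (3 ^ (N - 1) * d) = 3 ^ N * d := by
      have e5 : (3 : ℂ) ^ N = 3 * 3 ^ (N - 1) := by
        rw [← pow_succ']
        exact congrArg _ (by omega)
      rw [e5]
      ring
    rw [e4]
    exact hd

/-- Points of level `f 3 ^ N`. -/
private theorem pi_lev [Ine3 n t] {f N : ℕ} {z0 d : ℂ} (hz : (f : ℂ) * z0 ∈ Lam (⊤ : Ideal (OO n t)))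
    (hd : (3 : ℂ) ^ N * d ∈ Lam (⊤ : Ideal (OO n t))) (v : OO n t) :
    ((f * 3 ^ N : ℕ) : ℂ) * (z0 + toC v * d) ∈ Lam (⊤ : Ideal (OO n t)) := by
  have e1 : ((f * 3 ^ N : ℕ) : ℂ) * (z0 + toC v * d) =
      ((3 ^ N : ℕ) : ℂ) * (f * z0) + (f : ℂ) * (toC v * (3 ^ N * d)) := by
    push_cast
    ring
  rw [e1]
  exact lam_add (lam_nat _ hz) (lam_nat _ (lam_mul v hd))

/-- Numbers prime to `3` are units at the primes above `3`. -/
private theorem pi_not {P : Ideal ZZ} [P.IsPrime] (h3 : MP P 3) {f : ℕ} (hf : f.Coprime 3) :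
    ¬ MP P (f : Om) := by
  intro h
  obtain ⟨a, b, hab⟩ := Nat.isCoprime_iff_coprime.2 hf
  have h4 : MP P ((f : Om) * (a : Om)) := DI.MP.mul_right h (DI.VP.int a)
  have h5 : MP P ((3 : Om) * (b : Om)) := DI.MP.mul_right h3 (DI.VP.int b)
  have h6 := h4.add h5
  have e : (f : Om) * (a : Om) + (3 : Om) * (b : Om) = 1 := by
    have e1 : ((a * (f : ℤ) + b * ((3 : ℕ) : ℤ) : ℤ) : Om) = 1 := by rw [hab, Int.cast_one]
    push_cast at e1
    linear_combination e1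
  rw [e] at h6
  exact DI.MP.one_not h6

theorem tPi : S_Pi := by
  intro hX hD1 hD2 hD10 hAct n t _ P hP f N z0 d hp
  have hPp : P.IsPrime := hP.1.1
  have h3 : MP P 3 := hP.2
  have gt : G30 (⊤ : Ideal (OO n t)) := pi_gtop
  have hf0 : 0 < f := hp.fok.pos
  have hN1 := hp.pos
  have hm2 : ¬ MP P 2 := by
    have h4 := pi_not h3 (f := 2) (by norm_num)
    rwa [Nat.cast_ofNat] at h4
  obtain ⟨hD21, -, -, hD24, hD25, hD26, -, -⟩ := hD2 n t P hP ⊤ gt
  obtain ⟨hD11, -, hD13, -, -, -, -⟩ := hD1 n t P hP.1 hm2 ⊤ gt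
  have xX := hX n t ⊤ gt
  -- torsion points
  have tz0 : Tor n t z0 := (tor_iff top_ne_bot).2 ⟨f, hf0, hp.z⟩
  have td : Tor n t d := (tor_iff top_ne_bot).2 ⟨3 ^ N, by positivity, by
    push_cast
    exact hp.dd⟩
  have tz : ∀ v : OO n t, Tor n t (z0 + toC v * d) := fun v => tor_add tz0 (tor_mul v td)
  have t2 : ∀ z : ℂ, Tor n t z → Tor n t (2 * z) := fun z hz => by
    have h4 := tor_mul (2 : OO n t) hz
    rwa [toC_two] at h4
  have l2 : ∀ z : ℂ, z ∈ Lam (⊤ : Ideal (OO n t)) → 2 * z ∈ Lam (⊤ : Ideal (OO n t)) := fun z hz => by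
    have h4 := lam_mul (2 : OO n t) hz
    rwa [toC_two] at h4
  -- the kernel of reduction
  have kz0 : ¬ IK P (⊤ : Ideal (OO n t)) (2 * z0) := by
    refine hD26 (2 * z0) (t2 z0 tz0) fun hq => hp.zn ?_
    have h4 := hq (f : OO n t) 1 (by
      rw [toO_nat]
      exact pi_not h3 hp.fok.cop) (by
      rw [mul_one, toC_nat]
      have e : (f : ℂ) * (2 * z0) = 2 * (f * z0) := by ring
      rw [e]
      exact l2 _ hp.z)
    rwa [toC_one, one_mul] at h4
  have kd : ∀ v : OO n t, IK P (⊤ : Ideal (OO n t)) (toC v * d) := fun v => by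
    refine hD21 _ N ?_
    have e : (3 : ℂ) ^ N * (toC v * d) = toC v * (3 ^ N * d) := by ring
    rw [e]
    exact lam_mul v hp.dd
  have kz : ∀ v : OO n t, ¬ IK P (⊤ : Ideal (OO n t)) (2 * (z0 + toC v * d)) := by
    intro v hk
    have h4 := hD11 _ _ hk (kd (-2 * v))
    have e : 2 * (z0 + toC v * d) + toC (-2 * v) * d = 2 * z0 := by
      rw [toC_mul, toC_neg, toC_two]
      ring
    rw [e] at h4
    exact kz0 h4
  have k1 : ∀ z : ℂ, ¬ IK P (⊤ : Ideal (OO n t)) (2 * z) → ¬ IK P (⊤ : Ideal (OO n t)) z := by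
    intro z h4 h5
    have h6 := hD13 (2 : OO n t) z h5
    rw [toC_two] at h6
    exact h4 h6
  -- the case `j = 0` of the orders
  have hcop : ∀ h : OO n t, Cop h 3 → ((3 ^ 0 : ℕ) : OO n t) ∣ h ∧ ¬ ((3 ^ (0 + 1) : ℕ) : OO n t) ∣ h := by
    intro h hh
    refine ⟨?_, ?_⟩
    · rw [pow_zero, Nat.cast_one]
      exact one_dvd h
    · rw [zero_add, pow_one, pi_three]
      exact (cop3_iff h).1 hh
  have main : ∀ (z : ℂ) (v : OO n t) (j : ℕ), Tor n t z → ¬ IK P (⊤ : Ideal (OO n t)) (2 * z) → j < N →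
      ((3 ^ j : ℕ) : OO n t) ∣ v → ¬ ((3 ^ (j + 1) : ℕ) : OO n t) ∣ v →
      xO (⊤ : Ideal (OO n t)) (z + toC v * d) - xO (⊤ : Ideal (OO n t)) z ≠ 0 ∧
      vP P (xO (⊤ : Ideal (OO n t)) (z + toC v * d) - xO (⊤ : Ideal (OO n t)) z) =
        9 ^ j / (8 * 9 ^ (N - 1)) := by
    intro z v j hz hk hj hv1 hv2
    obtain ⟨o1, o2⟩ := pi_ord hj hp.dd hp.dn hv1 hv2
    have h4 := hD10 n t P hP ⊤ gt (N - 1 - j) z (toC v * d) hz hk o1 o2
    have hpos : 0 < 8 * 9 ^ (N - 1 - j) := by positivity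
    constructor
    · intro h0
      rw [h0, zero_pow hpos.ne', zero_div] at h4
      exact DI.UP.ne_zero h4 rfl
    · have h5 : UP P ((xO (⊤ : Ideal (OO n t)) (z + toC v * d) - xO (⊤ : Ideal (OO n t)) z) ^
          (8 * 9 ^ (N - 1 - j)) / ((3 : ℕ) : Om) ^ (1 : ℤ)) := by
        rw [zpow_one, Nat.cast_ofNat]
        exact h4
      have h6 := DL.vl_eq (pl hP) hpos h5
      have e1 : (9 : ℚ) ^ (N - 1) = 9 ^ (N - 1 - j) * 9 ^ j := by
        rw [← pow_add]
        exact congrArg _ (by omega)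
      have e2 : ((1 : ℤ) : ℚ) / ((8 * 9 ^ (N - 1 - j) : ℕ) : ℚ) = 9 ^ j / (8 * 9 ^ (N - 1)) := by
        rw [e1]
        push_cast
        field_simp
      exact h6.trans e2
  refine ⟨?_, (hD24 z0 tz0 (k1 z0 kz0)).1, ?_, ?_, ?_⟩
  · intro h hh
    obtain ⟨c1, c2⟩ := hcop h hh
    obtain ⟨m1, m2⟩ := main z0 h 0 tz0 kz0 (by omega) c1 c2
    rw [pow_zero] at m2
    refine ⟨m1, m2, tz h, fun h4 => k1 _ (kz h) ⟨tz h, Or.inl h4⟩, kz h, (hD24 _ (tz h) (k1 _ (kz h))).1,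
      hD25 _ (tz h) (kz h)⟩
  · intro h h' hd
    unfold pH
    congr 1
    refine (xX.cng _ _ ?_).1
    obtain ⟨u, hu⟩ := hd
    have e : z0 + toC h * d - (z0 + toC h' * d) = toC u * (3 ^ N * d) := by
      have e1 : toC h - toC h' = 3 ^ N * toC u := by
        rw [← toC_sub, hu, toC_mul, toC_nat]
        push_cast
        ring
      linear_combination d * e1
    rw [e]
    exact lam_mul u hp.dd
  · intro h h' j _ _ hj hd1 hd2
    obtain ⟨m1, m2⟩ := main (z0 + toC h' * d) (h - h') j (tz h') (kz h') hj hd1 hd2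
    have e : z0 + toC h' * d + toC (h - h') * d = z0 + toC h * d := by
      rw [toC_sub]
      ring
    have e1 : pH z0 d h - pH z0 d h' =
        xO (⊤ : Ideal (OO n t)) (z0 + toC h' * d + toC (h - h') * d) -
          xO (⊤ : Ideal (OO n t)) (z0 + toC h' * d) := by
      rw [e]
      unfold pH
      ring
    rw [← e1] at m1 m2
    exact ⟨m1, m2⟩
  · intro f' h τ hf' hff' hc h'
    obtain ⟨-, hA⟩ := hAct n t P hP f' N h τ hf' hN1 hc
    obtain ⟨-, -, hx, hx0, -⟩ := hA ⊤ gt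
    have hz' : (f' : ℂ) * z0 ∈ Lam (⊤ : Ideal (OO n t)) := by
      obtain ⟨c, rfl⟩ := hff'
      have e : ((f * c : ℕ) : ℂ) * z0 = (c : ℂ) * (f * z0) := by
        push_cast
        ring
      rw [e]
      exact lam_nat c hp.z
    unfold pH
    rw [map_sub, (hx0 z0 hz').1, (hx _ (pi_lev hz' hp.dd h')).1]
    congr 1
    refine (xX.cng _ _ ?_).1
    obtain ⟨u, hu⟩ := hc.one
    have e : toC h * (z0 + toC h' * d) - (z0 + toC (h * h') * d) = toC u * (f' * z0) := by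
      have e1 : toC h - 1 = f' * toC u := by
        rw [← toC_one (n := n) (t := t), ← toC_sub, hu, toC_mul, toC_nat]
      rw [toC_mul]
      linear_combination z0 * e1
    rw [e]
    exact lam_mul u hz'

end Pool.Agent.DM.GL
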