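import Pool.Agent.Lib.DM.GL.SpecT

/-!
# DM, part GL, module Pz: traces of the powers of `ζ + ζ⁻¹ - 2`, `ζ` of order `3 ^ N`
-/

set_option autoImplicit false

open scoped Pointwise

noncomputable section

namespace Pool.Agent.DM.GL

open Pool.Agent.MuZ Pool.Agent.FW
open Pool.Agent.DI (VP MP UP TP)

private theorem mem_od {N a : ℕ} : a ∈ od N ↔ a < (3 ^ N + 1) / 2 ∧ a % 3 ≠ 0 := by
  unfold od
  rw [Finset.mem_filter, Finset.mem_range]

/-- The two halves. -/
private theorem half {R : Type*} [AddCommMonoid R] {N : ℕ} (hN : 1 ≤ N) (F : ℕ → R) :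
    ∑ a ∈ (Finset.range (3 ^ N)).filter (fun a => a % 3 ≠ 0), F a =
      ∑ a ∈ od N, F a + ∑ a ∈ od N, F (3 ^ N - a) := by
  have h3 : 3 ^ N % 3 = 0 := by
    obtain ⟨m, rfl⟩ : ∃ m, N = m + 1 := ⟨N - 1, by omega⟩
    rw [pow_succ]
    omega
  have hodd : 3 ^ N % 2 = 1 := by
    rw [Nat.pow_mod]
    norm_num
  rw [← Finset.sum_filter_add_sum_filter_not _ (fun a => a < (3 ^ N + 1) / 2)]
  congr 1
  · refine Finset.sum_congr ?_ fun _ _ => rfl
    ext a
    rw [Finset.mem_filter, Finset.mem_filter, Finset.mem_range, mem_od]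
    omega
  · have e : ((Finset.range (3 ^ N)).filter (fun a => a % 3 ≠ 0)).filter
        (fun a => ¬ a < (3 ^ N + 1) / 2) = (od N).image (fun a => 3 ^ N - a) := by
      ext a
      rw [Finset.mem_filter, Finset.mem_filter, Finset.mem_range, Finset.mem_image]
      constructor
      · rintro ⟨⟨h1, h2⟩, h4⟩
        exact ⟨3 ^ N - a, mem_od.2 (by omega), by omega⟩
      · rintro ⟨b, hb, rfl⟩
        rw [mem_od] at hb
        omega
    rw [e, Finset.sum_image]
    intro a ha b hb hab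
    have ha' := mem_od.1 ha
    have hb' := mem_od.1 hb
    have hab' : 3 ^ N - a = 3 ^ N - b := hab
    omega

/-- The multiples of `3`. -/
private theorem three {R : Type*} [AddCommMonoid R] (Q : ℕ) (F : ℕ → R) :
    ∑ a ∈ Finset.range (3 * Q), F a =
      ∑ a ∈ (Finset.range (3 * Q)).filter (fun a => a % 3 ≠ 0), F a + ∑ b ∈ Finset.range Q, F (3 * b) := by
  rw [← Finset.sum_filter_add_sum_filter_not (Finset.range (3 * Q)) (fun a => a % 3 ≠ 0)]
  congr 1
  have e : (Finset.range (3 * Q)).filter (fun a => ¬ a % 3 ≠ 0) = (Finset.range Q).image (fun b => 3 * b) := by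
    ext a
    rw [Finset.mem_filter, Finset.mem_range, Finset.mem_image]
    constructor
    · rintro ⟨h1, h2⟩
      refine ⟨a / 3, ?_, by omega⟩
      rw [Finset.mem_range]
      omega
    · rintro ⟨b, hb, rfl⟩
      rw [Finset.mem_range] at hb
      omega
  rw [e, Finset.sum_image]
  intro a _ b _ hab
  have hab' : 3 * a = 3 * b := hab
  omega

private theorem od_card {N : ℕ} (hN : 1 ≤ N) : (od N).card = 3 ^ (N - 1) := by
  have e : 3 ^ N = 3 * 3 ^ (N - 1) := by
    rw [← pow_succ']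
    congr 1
    omega
  have h1 := half hN (fun _ => (1 : ℕ))
  have h2 := three (3 ^ (N - 1)) (fun _ => (1 : ℕ))
  rw [← e, h1] at h2
  simp only [Finset.sum_const, Finset.card_range, smul_eq_mul, mul_one] at h2
  omega

private theorem expand {x : Om} (hx : x ≠ 0) (j : ℕ) :
    (x + x⁻¹ - 2) ^ j =
      ∑ m ∈ Finset.range (2 * j + 1), ((-1) ^ m * (Nat.choose (2 * j) m : Om)) * x ^ ((j : ℤ) - m) := by
  have e1 : x + x⁻¹ - 2 = (-1 + x) ^ 2 * x⁻¹ := by
    field_simp
    ring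
  rw [e1, mul_pow, ← pow_mul, add_pow, Finset.sum_mul]
  refine Finset.sum_congr rfl fun m hm => ?_
  rw [Finset.mem_range] at hm
  have e2 : x ^ ((j : ℤ) - m) = x ^ (2 * j - m) * x⁻¹ ^ j := by
    have e3 : ((j : ℤ) - m) = ((2 * j - m : ℕ) : ℤ) - (j : ℤ) := by
      have : m ≤ 2 * j := by omega
      push_cast [this]
      ring
    rw [e3, zpow_sub₀ hx, zpow_natCast, zpow_natCast, inv_pow]
    rfl
  rw [e2]
  ring

/-- The sum over the half system and its negative. -/
private theorem vanish {N : ℕ} (hN : 1 ≤ N) {y : Om} (_hy : y ≠ 0) (h4 : y ^ 3 ^ N = 1) (h2 : y ^ 3 ≠ 1) :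
    ∑ a ∈ od N, y ^ a + ∑ a ∈ od N, y⁻¹ ^ a = 0 := by
  have e : 3 ^ N = 3 * 3 ^ (N - 1) := by
    rw [← pow_succ']
    congr 1
    omega
  have h1 := half hN (fun a => y ^ a)
  have h3 := three (3 ^ (N - 1)) (fun a => y ^ a)
  rw [← e, h1] at h3
  have hy1 : y - 1 ≠ 0 := by
    intro h
    apply h2
    rw [sub_eq_zero.1 h, one_pow]
  have g1 : ∑ a ∈ Finset.range (3 ^ N), y ^ a = 0 := by
    have h := geom_sum_mul y (3 ^ N)
    rw [h4, sub_self] at h
    rcases mul_eq_zero.1 h with h | h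
    · exact h
    · exact absurd h hy1
  have g2 : ∑ b ∈ Finset.range (3 ^ (N - 1)), y ^ (3 * b) = 0 := by
    have h := geom_sum_mul (y ^ 3) (3 ^ (N - 1))
    rw [← pow_mul, ← e, h4, sub_self] at h
    rcases mul_eq_zero.1 h with h | h
    · rw [← h]
      exact Finset.sum_congr rfl fun b _ => pow_mul y 3 b
    · exact absurd (sub_eq_zero.1 h) h2
  rw [g1, g2, add_zero] at h3
  rw [h3]
  congr 1
  refine Finset.sum_congr rfl fun a ha => ?_
  have ha' := mem_od.1 ha
  rw [inv_pow]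
  apply inv_eq_of_mul_eq_one_left
  rw [← pow_add, Nat.sub_add_cancel (by omega), h4]

private theorem zpow_swap (ζ : Om) (a : ℕ) (e : ℤ) : (ζ ^ a) ^ e = (ζ ^ e) ^ a := by
  rw [← zpow_natCast ζ a, ← zpow_natCast (ζ ^ e) a, ← zpow_mul, ← zpow_mul, mul_comm]

private theorem luc (r : ℕ) : ∀ j : ℕ, j < 3 ^ r → ¬ 3 ∣ Nat.choose (2 * j) j → 2 * j < 3 ^ r := by
  induction r with
  | zero =>
    intro j hj _
    rw [pow_zero] at hj ⊢
    omega
  | succ r ih =>
    intro j hj hd
    have hp : Fact (Nat.Prime 3) := ⟨Nat.prime_three⟩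
    have hL : Nat.choose (2 * j) j ≡ Nat.choose (2 * j % 3) (j % 3) * Nat.choose (2 * j / 3) (j / 3) [MOD 3] :=
      Choose.choose_modEq_choose_mod_mul_choose_div_nat
    rw [pow_succ] at hj ⊢
    have hq : j / 3 < 3 ^ r := by omega
    have hi : j % 3 = 0 ∨ j % 3 = 1 ∨ j % 3 = 2 := by omega
    have hdvd : ¬ 3 ∣ Nat.choose (2 * j % 3) (j % 3) * Nat.choose (2 * j / 3) (j / 3) := by
      intro h
      exact hd ((Nat.ModEq.dvd_iff hL (dvd_refl 3)).2 h)
    have hne2 : j % 3 ≠ 2 := by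
      intro h
      apply hdvd
      have e : 2 * j % 3 = 1 := by omega
      rw [e, h]
      simp
    have e2 : 2 * j / 3 = 2 * (j / 3) := by omega
    rw [e2] at hdvd
    have h3 := ih (j / 3) hq (fun h => hdvd (h.mul_left _))
    omega

theorem tPz : S_Pz := by
  classical
  intro N ζ hN hζ
  have hζ0 : ζ ≠ 0 := hζ.ne_zero (by positivity)
  have e3 : 3 ^ N = 3 * 3 ^ (N - 1) := by
    rw [← pow_succ']
    congr 1
    omega
  have hodd : 3 ^ N % 2 = 1 := by
    rw [Nat.pow_mod]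
    norm_num
  refine ⟨?_, ?_, od_card hN, ?_, ?_⟩
  · intro j hj
    have hS : ∀ e : ℤ, e ≠ 0 → |e| ≤ j →
        ∑ a ∈ od N, (ζ ^ a) ^ e + ∑ a ∈ od N, ((ζ ^ a)⁻¹) ^ e = 0 := by
      intro e he hej
      have hy : ζ ^ e ≠ 0 := zpow_ne_zero e hζ0
      have h4 : (ζ ^ e) ^ 3 ^ N = 1 := by
        rw [← zpow_natCast (ζ ^ e), ← zpow_mul, mul_comm, zpow_mul, zpow_natCast, hζ.pow_eq_one,
          one_zpow]
      have h2 : (ζ ^ e) ^ 3 ≠ 1 := by
        intro h
        rw [← zpow_natCast (ζ ^ e) 3, ← zpow_mul, hζ.zpow_eq_one_iff_dvd] at h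
        obtain ⟨c, hc⟩ := h
        have hc0 : c ≠ 0 := by
          rintro rfl
          rw [mul_zero] at hc
          push_cast at hc
          exact he (by omega)
        have h5 : (3 ^ N : ℤ) ≤ |e * 3| := by
          push_cast at hc
          rw [hc, abs_mul]
          have h6 : (1 : ℤ) ≤ |c| := Int.one_le_abs hc0
          have h7 : |(3 ^ N : ℤ)| = 3 ^ N := abs_of_nonneg (by positivity)
          rw [h7]
          nlinarith [h6, (by positivity : (0 : ℤ) < 3 ^ N)]
        rw [abs_mul] at h5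
        have h8 : |(3 : ℤ)| = 3 := abs_of_nonneg (by norm_num)
        rw [h8] at h5
        have h9 : (3 ^ N : ℤ) = 3 * 3 ^ (N - 1) := by exact_mod_cast e3
        have h10 : (j : ℤ) < 3 ^ (N - 1) := by exact_mod_cast hj
        linarith
      have h := vanish hN hy h4 h2
      rw [← h]
      congr 1
      · refine Finset.sum_congr rfl fun i _ => zpow_swap ζ _ e
      · refine Finset.sum_congr rfl fun i _ => ?_
        rw [inv_zpow, zpow_swap, inv_pow]
    have hE : ∀ a ∈ od N, (ζ ^ a + (ζ ^ a)⁻¹ - 2) ^ j + (ζ ^ a + (ζ ^ a)⁻¹ - 2) ^ j =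
        ∑ m ∈ Finset.range (2 * j + 1), ((-1) ^ m * (Nat.choose (2 * j) m : Om)) *
          ((ζ ^ a) ^ ((j : ℤ) - m) + ((ζ ^ a)⁻¹) ^ ((j : ℤ) - m)) := by
      intro a _
      have hx : ζ ^ a ≠ 0 := pow_ne_zero _ hζ0
      have g1 := expand hx j
      have g2 := expand (inv_ne_zero hx) j
      rw [inv_inv, add_comm (ζ ^ a)⁻¹ (ζ ^ a)] at g2
      conv_lhs =>
        congr
        · rw [g1]
        · rw [g2]
      rw [← Finset.sum_add_distrib]
      refine Finset.sum_congr rfl fun m _ => ?_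
      ring
    have hT : ∑ a ∈ od N, (ζ ^ a + (ζ ^ a)⁻¹ - 2) ^ j + ∑ a ∈ od N, (ζ ^ a + (ζ ^ a)⁻¹ - 2) ^ j =
        2 * ((-1) ^ j * 3 ^ (N - 1) * (Nat.choose (2 * j) j : Om)) := by
      rw [← Finset.sum_add_distrib, Finset.sum_congr rfl hE, Finset.sum_comm,
        Finset.sum_eq_single_of_mem j (Finset.mem_range.2 (by omega))]
      · rw [← Finset.mul_sum]
        simp only [sub_self, zpow_zero]
        rw [Finset.sum_const, od_card hN, nsmul_eq_mul]
        push_cast
        ring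
      · intro m hm hmj
        rw [Finset.mem_range] at hm
        rw [← Finset.mul_sum, Finset.sum_add_distrib, hS _ _ _, mul_zero]
        · intro h
          apply hmj
          omega
        · rw [abs_le]
          constructor
          · omega
          · omega
    have h2 : (2 : Om) ≠ 0 := two_ne_zero
    apply mul_left_cancel₀ h2
    rw [← hT]
    ring
  · intro j hj hj2
    by_contra h
    have h3 := luc (N - 1) j hj h
    omega
  · intro a ha a' ha' h
    rw [mem_od] at ha ha'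
    have hx : ζ ^ a ≠ 0 := pow_ne_zero _ hζ0
    have hy : ζ ^ a' ≠ 0 := pow_ne_zero _ hζ0
    have h1 : (ζ ^ a - ζ ^ a') * (ζ ^ a * ζ ^ a' - 1) = 0 := by
      field_simp at h
      linear_combination h
    rcases mul_eq_zero.1 h1 with h2 | h2
    · exact hζ.pow_inj (by omega) (by omega) (sub_eq_zero.1 h2)
    · exfalso
      have h3 : ζ ^ (a + a') = 1 := by
        rw [pow_add]
        exact sub_eq_zero.1 h2
      have h4 := (hζ.pow_eq_one_iff_dvd _).1 h3
      have h5 := Nat.le_of_dvd (by omega) h4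
      omega
  · intro c hc a ha
    rw [mem_od] at ha
    have hpos : 0 < 3 ^ N := by positivity
    have hr := Nat.mod_lt (c * a) hpos
    have h3 : 3 ^ N % 3 = 0 := by omega
    have hne : (c * a) % 3 ^ N % 3 ≠ 0 := by
      rw [Nat.mod_mod_of_dvd _ (dvd_pow_self 3 (by omega : N ≠ 0))]
      intro h
      rcases (Nat.Prime.dvd_mul Nat.prime_three).1 (Nat.dvd_of_mod_eq_zero h) with h | h
      · exact hc (Nat.mod_eq_zero_of_dvd h)
      · exact ha.2 (Nat.mod_eq_zero_of_dvd h)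
    have hpow : ζ ^ (c * a) = ζ ^ ((c * a) % 3 ^ N) := by
      conv_lhs => rw [← Nat.div_add_mod (c * a) (3 ^ N), pow_add, pow_mul, hζ.pow_eq_one, one_pow, one_mul]
    by_cases hlt : (c * a) % 3 ^ N < (3 ^ N + 1) / 2
    · exact ⟨(c * a) % 3 ^ N, mem_od.2 ⟨hlt, hne⟩, Or.inl hpow⟩
    · refine ⟨3 ^ N - (c * a) % 3 ^ N, mem_od.2 ⟨?_, ?_⟩, Or.inr ?_⟩
      · omega
      · omega
      · rw [hpow]
        apply eq_inv_of_mul_eq_one_left
        rw [← pow_add]
        have e : (c * a) % 3 ^ N + (3 ^ N - (c * a) % 3 ^ N) = 3 ^ N := by omega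
        rw [e, hζ.pow_eq_one]

end Pool.Agent.DM.GL
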