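import Pool.Agent.Lib.DM.GL.SpecB

/-!
# Theorem DM, part GL, module Res: the local lemma with `ζ ^ b`
-/

set_option autoImplicit false

open scoped Pointwise

noncomputable section

namespace Pool.Agent.DM.GL

open Pool.Agent.MuZ Pool.Agent.FW Pool.Agent.DN Pool.Agent.DM
open Pool.Agent.DI (io ofC io_inj exists_io io_ofC ofC_io VP MP UP TP ex)
open Pool.Agent.DT (kap cbr)
open Pool.Agent.DI.GL (Fx StP mem_of_Fx Fx.mul Fx.inv Fx.one)

theorem tRes : S_Res := by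
  intro hDer hLDr hRt hPi hGen hFixH hMnf hCu hSitM n t _ P hP f N z0 d hp hN ζ th hζ hLDζ w hw hkap y hLD
  have := hP.1.1
  have hfok := hp.fok
  have hN1 : 1 ≤ N := hp.pos
  have hS := hSitM n t P hP f hfok
  obtain ⟨j, hj⟩ := hCu (Mf n t f) (Mn n t f) P hS N hN1 ζ hζ w hw hLD.1 hkap
  obtain ⟨r, hr, hrV, s, hsV, hs⟩ := hj 2
  have hζM : ζ ∈ Mn n t f N := mem_of_Fx fun τ hτ => ((hS.lnx N ζ hN1 hζ τ).1 hτ).2
  have hsM : s ∈ Mn n t f N := by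
    have e1 : s = (w * ζ ^ j - r ^ 3) / 3 ^ 2 := by
      rw [hs]
      field_simp
    rw [e1]
    exact div_mem (sub_mem (mul_mem hw (pow_mem hζM j)) (pow_mem hr 3)) (pow_mem (natCast_mem _ 3) 2)
  have hG := hGen n t P hP f N z0 d hp
  have hFp : ∀ x ∈ Mn n t f N, DL.Fp (P.inertia Gal(Om/ℚ)) (pH z0 d (1 : OO n t)) x := fun x hx =>
    (hG.2.2.2 f hfok (dvd_refl f)).2 x fun τ hτ =>
      hMnf n t P hP f f N 1 τ hfok hN1 hfok (dvd_refl f) hτ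
        (Or.inr (by rw [sub_self]; exact dvd_zero _)) x hx
  have hGe := hG.2.1
  have hq : (2 : ℚ) ≤ DL.vl P 3 (DL.dl (orb n t N z0 d) (pH z0 d (1 : OO n t))) := by
    have h1 : DL.vl P 3 (DL.dl (orb n t N z0 d) (pH z0 d (1 : OO n t))) = N - 1 / 8 := hG.2.2.1
    have h3 : (3 : ℚ) ≤ N := by exact_mod_cast hN
    rw [h1]
    linarith
  have hc1 : Cop (1 : OO n t) 3 := by
    unfold Cop
    rw [Nm_one]
    exact isCoprime_one_left
  have hWV : VP P (vO (⊤ : Ideal (OO n t)) (z0 + d)) := by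
    have h1 := ((hPi n t P hP f N z0 d hp).1 1 hc1).2.2.2.2.2.2.1
    rwa [toC_one, one_mul] at h1
  have h02 : (0 : ℚ) ≤ 2 := by norm_num
  obtain ⟨-, -, -, -, -, -, -, hD8, -⟩ := hDer P 3 1 (P.inertia Gal(Om/ℚ)) _ _ hGe 2 _ h02 hq hWV
  obtain ⟨y1, hy1⟩ := hD8 r (hFp r hr) hrV
  have hG1 : GE P (3 / 8 - 4 / 3 ^ N) y1 :=
    hFixH n t P hP f N z0 d hp hN f hfok (dvd_refl f) r y1 hy1 fun h τ hc hHq =>
      hMnf n t P hP f f N h τ hfok hN1 hfok (dvd_refl f) hc (Or.inl hHq) r hr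
  have hL4 := (hLDr P 3 1 (P.inertia Gal(Om/ℚ)) _ _ hGe 2 _ h02 hq hWV).2.2.2.1 ζ th j hLDζ
  have hU : UP P (ζ ^ j) := hL4.1
  have hne : ζ ^ j ≠ 0 := DI.UP.ne_zero hU
  have hvl : DL.vl P 3 (ζ ^ j) = 0 := DL.vl_of_up (pl hP) hU
  have hkey := hRt P 3 1 (P.inertia Gal(Om/ℚ)) _ _ hGe 2 _ h02 hq hWV Nat.prime_three w y (ζ ^ j)
    (ζ ^ j * (j * th)) r y1 s (3 / 8 - 4 / 3 ^ N) 2 hLD hne hU.1 hL4.2.2.2 hy1 (hFp s hsM) hsV hG1 (by
      push_cast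
      linear_combination hs) (by
      rw [hvl]
      norm_num)
  refine ⟨j, ?_⟩
  rw [hvl, mul_div_cancel_left₀ _ hne] at hkey
  refine hkey.mono (le_min ?_ (le_min ?_ ?_))
  · push_cast
    linarith
  · have h4 : (0 : ℚ) < 4 / 3 ^ N := by positivity
    push_cast
    linarith
  · have h4 : (0 : ℚ) < 4 / 3 ^ N := by positivity
    linarith

end Pool.Agent.DM.GL
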