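import Pool.Agent.Lib.DM.GL.SpecB

/-!
# Theorem DM, part GL: roots of unity of order prime to `3`
-/

set_option autoImplicit false

open scoped Pointwise

noncomputable section

namespace Pool.Agent.DM.GL

open Pool.Agent.MuZ Pool.Agent.FW Pool.Agent.DN Pool.Agent.DM
open Pool.Agent.DI (io ofC io_inj exists_io io_ofC ofC_io VP MP UP TP ex)
open Pool.Agent.DT (kap cbr)
open Pool.Agent.DI.GL (Fx StP mem_of_Fx Fx.mul Fx.inv Fx.one)

/-- Roots of unity of order prime to `3`. -/
theorem tRou : S_Rou := by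
  intro P hP x m hm hx
  have hPr : P.IsPrime := hP.1.1
  have h3 : MP P 3 := hP.2
  have hm0 : 0 < m := by
    rcases Nat.eq_zero_or_pos m with rfl | h
    · norm_num at hm
    · exact h
  have up : ∀ y : Om, y ^ m = 1 → UP P y := fun y hy =>
    DI.UP.of_pow (n := m) hm0 (by rw [hy]; exact DI.UP.one)
  have uni : ∀ y : Om, y ^ m = 1 → MP P (y - 1) → y = 1 := by
    intro y hy h
    by_contra hne
    have hy1 : y - 1 ≠ 0 := sub_ne_zero.2 hne
    have hs : ∑ i ∈ Finset.range m, y ^ i = 0 := by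
      have h1 := geom_sum_mul y m
      rw [hy, sub_self] at h1
      exact (mul_eq_zero.1 h1).resolve_right hy1
    have h2 : MP P (∑ i ∈ Finset.range m, (y ^ i - 1)) := by
      refine DI.MP.sum _ _ fun i _ => ?_
      rw [← geom_sum_mul y i]
      exact DI.MP.mul_left (DI.VP.sum _ _ fun j _ => DI.VP.pow (up y hy).1 j) h
    rw [Finset.sum_sub_distrib, hs, Finset.sum_const, Finset.card_range, nsmul_eq_mul, mul_one,
      zero_sub] at h2
    have h4 := h2.neg
    rw [neg_neg] at h4
    obtain ⟨a, b, hab⟩ := Nat.isCoprime_iff_coprime.2 hm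
    have h5 : MP P ((a : Om) * (m : Om) + (b : Om) * 3) :=
      DI.MP.add (DI.MP.mul_left (DI.VP.int a) h4) (DI.MP.mul_left (DI.VP.int b) h3)
    have e : (a : Om) * (m : Om) + (b : Om) * 3 = 1 := by exact_mod_cast hab
    rw [e] at h5
    exact DI.MP.one_not h5
  refine ⟨up x hx, uni x hx, fun τ hτ => ?_⟩
  have hxu := up x hx
  have hx0 := hxu.ne_zero
  have h6 : τ x / x = 1 := by
    refine uni _ ?_ ?_
    · rw [div_pow, ← map_pow, hx, map_one, div_one]
    · have h7 := DI.MP.mul_right (DI.VP.inertia hτ hxu.1) hxu.inv.1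
      have e : (τ x - x) * x⁻¹ = τ x / x - 1 := by field_simp
      rwa [e] at h7
  rw [div_eq_one_iff_eq hx0] at h6
  exact h6

end Pool.Agent.DM.GL
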