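import Pool.Agent.Lib.DM.GL.SpecB
import Pool.Agent.Lib.DT.GL.Iu

/-!
# Theorem DM, part GL, module SitM: the abstract tower applies to `L'`, `L'_N` (helper86)
-/

set_option autoImplicit false

open scoped Pointwise

noncomputable section

namespace Pool.Agent.DM.GL

open Pool.Agent.MuZ Pool.Agent.FW Pool.Agent.DN Pool.Agent.DM
open Pool.Agent.DI (io ofC io_inj exists_io io_ofC ofC_io VP MP UP TP ex)
open Pool.Agent.DT (kap cbr)
open Pool.Agent.DI.GL (Fx StP mem_of_Fx Fx.mul Fx.inv Fx.one)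

variable {n t : ℕ}

private theorem sitm_pwm {z : Om} {M a b : ℕ} (hz : z ^ M = 1) (h : a ≡ b [MOD M]) :
    z ^ a = z ^ b := by
  have h1 : a ≡ b [MOD orderOf z] := h.of_dvd (orderOf_dvd_of_pow_eq_one hz)
  rw [← pow_mod_orderOf z a, ← pow_mod_orderOf z b]
  exact congrArg _ h1

private theorem sitm_upw (m u : ℕ) (hu : u % 3 = 1) : 1 ≡ u ^ 3 ^ m [MOD 3 ^ m] := by
  rw [Nat.modEq_iff_dvd]
  push_cast
  induction m with
  | zero => simp
  | succ m ih =>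
    obtain ⟨c, hc⟩ := ih
    have h1 : (3 : ℤ) ∣ (u : ℤ) ^ 3 ^ m - 1 := by
      have h2 : (3 : ℤ) ∣ (u : ℤ) - 1 := by omega
      have h3 := sub_dvd_pow_sub_pow (u : ℤ) 1 (3 ^ m)
      rw [one_pow] at h3
      exact h2.trans h3
    obtain ⟨y, hy⟩ := h1
    have h4 : (u : ℤ) ^ 3 ^ m = 1 + 3 * y := by linarith
    obtain ⟨d, hd⟩ : ∃ d : ℤ, ((u : ℤ) ^ 3 ^ m) ^ 2 + (u : ℤ) ^ 3 ^ m + 1 = 3 * d := by
      rw [h4]
      exact ⟨3 * y ^ 2 + 3 * y + 1, by ring⟩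
    refine ⟨c * d, ?_⟩
    have e : (u : ℤ) ^ 3 ^ (m + 1) - 1 =
        ((u : ℤ) ^ 3 ^ m - 1) * (((u : ℤ) ^ 3 ^ m) ^ 2 + (u : ℤ) ^ 3 ^ m + 1) := by
      rw [pow_succ 3 m, pow_mul]
      ring
    rw [e, hc, hd, pow_succ]
    ring

/-- On the roots of unity of order `3 ^ m` the exponent `u` is an eighth power. -/
private theorem sitm_exU (m u : ℕ) (hu : u % 3 = 1) :
    ∃ v : ℕ, v % 3 = 1 ∧ ∀ z : Om, z ^ 3 ^ m = 1 → z ^ v ^ 8 = z ^ u := by
  obtain ⟨j, hj⟩ : ∃ j : ℕ, 3 ^ m * 3 ^ m = 8 * j + 1 := by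
    induction m with
    | zero => exact ⟨0, by norm_num⟩
    | succ m ih =>
      obtain ⟨j, hj⟩ := ih
      refine ⟨9 * j + 1, ?_⟩
      have e : 3 ^ (m + 1) * 3 ^ (m + 1) = 9 * (3 ^ m * 3 ^ m) := by ring
      rw [e, hj]
      ring
  refine ⟨u ^ (7 * j + 1), ?_, fun z hz => ?_⟩
  · rw [Nat.pow_mod, hu, one_pow, Nat.mod_eq_of_lt (by norm_num)]
  refine sitm_pwm hz ?_
  have h1 : (u ^ (7 * j + 1)) ^ 8 = (u ^ 3 ^ m) ^ (7 * 3 ^ m) * u := by
    rw [← pow_mul, ← pow_mul, ← pow_succ]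
    congr 1
    have e : 3 ^ m * (7 * 3 ^ m) = 7 * (3 ^ m * 3 ^ m) := by ring
    rw [e, hj]
    ring
  have h3 := ((sitm_upw m u hu).pow (7 * 3 ^ m)).mul_right u
  rw [one_pow, one_mul] at h3
  rw [h1]
  exact h3.symm

private theorem sitm_pow {ι : Gal(Om/ℚ)} {v : ℕ} {z : Om} (h : ι z = z ^ v) (i : ℕ) :
    (ι ^ i) z = z ^ v ^ i := by
  induction i with
  | zero => rw [pow_zero, pow_zero, pow_one, AlgEquiv.one_apply]
  | succ i ih => rw [pow_succ, AlgEquiv.mul_apply, h, map_pow, ih, ← pow_mul, ← pow_succ]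

theorem tSitM : S_SitM := by
  intro hTam hGM n t _ P hP f hf
  have hG := hGM n t f hf
  exact {
    prime := hP.1.1
    three := hP.2
    iul := by
      intro m u hu
      obtain ⟨v, hv, hvz⟩ := sitm_exU m u hu
      have hvc : v.Coprime 3 := by
        rw [Nat.coprime_comm, Nat.Prime.coprime_iff_not_dvd Nat.prime_three]
        omega
      obtain ⟨ι, hι, hιz⟩ := DT.GL.tIu P hP.1.1 hP.2 m v hvc
      refine ⟨ι ^ 8, pow_mem hι 8, ?_, ?_⟩
      · exact fun x hx => hTam n t f hf.pos ((by norm_num : 5 ∣ 20).trans hf.dvd) hf.cop P hP ι hι x hx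
      · intro z hz
        rw [sitm_pow (hιz z hz) 8, hvz z hz]
    lnx := by
      intro N ζ hN hζ τ
      exact hG.2.2.2.2.2.2.2 N hN ζ hζ τ }

end Pool.Agent.DM.GL
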