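import Pool.Agent.Lib.DM.GL.Spec

/-!
# Theorem DM, part GL, module Sum (helper26; edit of `DN/GL/Sum.lean`, `DN/GL/SumU.lean`): sums of the valuations of the
differences of the conjugates
-/

set_option autoImplicit false

open scoped Pointwise

noncomputable section

namespace Pool.Agent.DM.GL

open Pool.Agent.MuZ Pool.Agent.FW Pool.Agent.DN Pool.Agent.DM
open Pool.Agent.DI (io ofC io_inj exists_io io_ofC ofC_io VP MP UP TP ex)
open Pool.Agent.DT (kap cbr)

variable {n t : ℕ}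

/-! ## Groups of residues -/

/-- the condition `C` is a group modulo `3 ^ N` -/
private structure Sum_Gr (f N : ℕ) (C : OO n t → Prop) : Prop where
  one : ∀ h, C h → (f : OO n t) ∣ h - 1
  two : ∀ h, C h → Cop h 3
  mul : ∀ h h', C h → C h' → C (h * h')
  inv : ∀ h u, C h → ((3 ^ N : ℕ) : OO n t) ∣ h * u - 1 → (f : OO n t) ∣ u - 1 → C u

private theorem Sum_dm {a h h' : OO n t} (h1 : a ∣ h - 1) (h2 : a ∣ h' - 1) : a ∣ h * h' - 1 := by
  have e : h * h' - 1 = (h - 1) * h' + (h' - 1) := by ring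
  rw [e]
  exact dvd_add (h1.mul_right _) h2

private theorem Sum_di {a h u : OO n t} (h1 : a ∣ h - 1) (h2 : a ∣ h * u - 1) : a ∣ u - 1 := by
  have e : u - 1 = (h * u - 1) - (h - 1) * u := by ring
  rw [e]
  exact dvd_sub h2 (h1.mul_right _)

private theorem Sum_cast {i j : ℕ} (h : i ≤ j) : ((3 ^ i : ℕ) : OO n t) ∣ ((3 ^ j : ℕ) : OO n t) := by
  obtain ⟨c, hc⟩ := pow_dvd_pow 3 h
  rw [hc]
  exact ⟨(c : OO n t), by push_cast; ring⟩

private theorem Sum_cop {h : OO n t} {i : ℕ} (hi : 1 ≤ i) (h1 : ((3 ^ i : ℕ) : OO n t) ∣ h - 1) : Cop h 3 := by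
  have h2 : ((3 ^ 1 : ℕ) : OO n t) ∣ h - 1 := (Sum_cast hi).trans h1
  have h3 : ((3 : ℕ) : OO n t) ∣ 1 - h := by
    rw [← neg_sub h 1]
    exact (dvd_neg).2 (by simpa using h2)
  exact cop_congr h3 (cop_one 3)

private theorem Sum_nine {h : OO n t} : (9 : OO n t) ∣ h ↔ ((3 ^ 2 : ℕ) : OO n t) ∣ h := by
  norm_num

private theorem Sum_Hq {f N : ℕ} (hN : 2 ≤ N) : Sum_Gr (n := n) (t := t) f N (Hq f N) where
  one h hh := hh.1
  two h hh := Sum_cop (i := 2) (by norm_num) (Sum_nine.1 hh.2.1)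
  mul h h' hh hh' := by
    refine ⟨Sum_dm hh.1 hh'.1, Sum_dm hh.2.1 hh'.2.1, ?_⟩
    have e : Nm (h * h') - 1 = (Nm h - 1) * Nm h' + (Nm h' - 1) := by
      rw [Nm_mul]
      ring
    rw [e]
    exact dvd_add (hh.2.2.mul_right _) hh'.2.2
  inv h u hh h1 h2 := by
    refine ⟨h2, ?_, ?_⟩
    · rw [Sum_nine]
      exact Sum_di (Sum_nine.1 hh.2.1) ((Sum_cast hN).trans h1)
    · have h3 := Nm_congr h1
      rw [Nm_mul, Nm_one] at h3
      have e : Nm u - 1 = (Nm h * Nm u - 1) - (Nm h - 1) * Nm u := by ring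
      rw [e]
      refine dvd_sub ?_ (hh.2.2.mul_right _)
      exact_mod_cast h3

private theorem Sum_Un {f N : ℕ} (hN : 1 ≤ N) : Sum_Gr (n := n) (t := t) f N (Un f) where
  one h hh := hh.1
  two h hh := hh.2
  mul h h' hh hh' := ⟨Sum_dm hh.1 hh'.1, cop_mul hh.2 hh'.2⟩
  inv h u hh h1 h2 := by
    refine ⟨h2, ?_⟩
    have h3 : Cop (h * u) 3 := Sum_cop hN h1
    unfold Cop at h3 ⊢
    rw [Nm_mul] at h3
    exact IsCoprime.of_mul_left_right h3

open Classical in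
/-- translation by an element of the group -/
private theorem Sum_tr {f N : ℕ} {C : OO n t → Prop} (hG : Sum_Gr f N C) {T : Finset (OO n t)}
    (hT : IsR N C T) {h0 : OO n t} (h0T : h0 ∈ T) :
    ∃ T' : Finset (OO n t), IsR N C T' ∧ ∀ i ≤ N,
      (T'.filter (fun h => ((3 ^ i : ℕ) : OO n t) ∣ h - 1)).card =
        (T.filter (fun h => ((3 ^ i : ℕ) : OO n t) ∣ h0 - h)).card := by
  have hC0 := hT.mem h0 h0T
  have hcop : Cop h0 (3 ^ N * f) := by
    have h1 : Cop h0 f := by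
      refine cop_congr (a := 1) ?_ (cop_one f)
      rw [← neg_sub h0 1]
      exact (dvd_neg).2 (hG.one h0 hC0)
    have h2 : Cop h0 3 := hG.two h0 hC0
    unfold Cop at h1 h2 ⊢
    push_cast
    refine IsCoprime.mul_right (IsCoprime.pow_right ?_) h1
    exact_mod_cast h2
  obtain ⟨u, _, hu⟩ := cop_inv hcop
  have hu2 : ((3 ^ N : ℕ) : OO n t) ∣ h0 * u - 1 :=
    Dvd.dvd.trans ⟨(f : OO n t), by push_cast; ring⟩ hu
  have huf : (f : OO n t) ∣ h0 * u - 1 :=
    Dvd.dvd.trans ⟨((3 ^ N : ℕ) : OO n t), by push_cast; ring⟩ hu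
  have hCu : C u := hG.inv h0 u hC0 hu2 (Sum_di (hG.one h0 hC0) huf)
  have key : ∀ i ≤ N, ∀ x : OO n t, ((3 ^ i : ℕ) : OO n t) ∣ x * u → ((3 ^ i : ℕ) : OO n t) ∣ x := by
    intro i hi x hx
    have e : x = x * u * h0 - x * (h0 * u - 1) := by ring
    rw [e]
    exact dvd_sub (hx.mul_right _) (((Sum_cast hi).trans hu2).mul_left _)
  have hinj : ∀ h ∈ T, ∀ h' ∈ T, h * u = h' * u → h = h' := by
    intro h hh h' hh' he
    refine hT.uni h hh h' hh' (key N le_rfl _ ?_)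
    have : (h - h') * u = 0 := by rw [sub_mul, he, sub_self]
    rw [this]
    exact dvd_zero _
  refine ⟨T.image (fun h => h * u), ⟨?_, ?_, ?_⟩, ?_⟩
  · intro v hv
    obtain ⟨h, hh, rfl⟩ := Finset.mem_image.1 hv
    exact hG.mul h u (hT.mem h hh) hCu
  · intro v hv
    obtain ⟨h, hh, h1⟩ := hT.ex (v * h0) (hG.mul v h0 hv hC0)
    refine ⟨h * u, Finset.mem_image_of_mem _ hh, ?_⟩
    have e : v - h * u = (v * h0 - h) * u - v * (h0 * u - 1) := by ring
    rw [e]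
    exact dvd_sub (h1.mul_right _) (hu2.mul_left _)
  · intro v hv v' hv' h1
    obtain ⟨h, hh, rfl⟩ := Finset.mem_image.1 hv
    obtain ⟨h', hh', rfl⟩ := Finset.mem_image.1 hv'
    have h2 : ((3 ^ N : ℕ) : OO n t) ∣ h - h' := by
      refine key N le_rfl _ ?_
      rw [sub_mul]
      exact h1
    rw [hT.uni h hh h' hh' h2]
  · intro i hi
    rw [Finset.filter_image, Finset.card_image_of_injOn]
    · congr 1
      refine Finset.filter_congr fun h _ => ?_
      constructor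
      · intro h1
        refine key i hi _ ?_
        have e : (h0 - h) * u = (h0 * u - 1) - (h * u - 1) := by ring
        rw [e]
        exact dvd_sub ((Sum_cast hi).trans hu2) h1
      · intro h1
        have e : h * u - 1 = (h0 * u - 1) - (h0 - h) * u := by ring
        show ((3 ^ i : ℕ) : OO n t) ∣ h * u - 1
        rw [e]
        exact dvd_sub ((Sum_cast hi).trans hu2) (h1.mul_right _)
    · intro h hh h' hh' he
      exact hinj h (Finset.mem_filter.1 hh).1 h' (Finset.mem_filter.1 hh').1 he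

/-! ## The weights -/

private def Sum_c : ℕ → ℚ
  | 0 => 1
  | i + 1 => 9 ^ (i + 1) - 9 ^ i

private theorem Sum_c_succ (i : ℕ) : Sum_c (i + 1) = 9 ^ (i + 1) - 9 ^ i := rfl

private theorem Sum_c_nonneg (i : ℕ) : 0 ≤ Sum_c i := by
  cases i with
  | zero => exact zero_le_one
  | succ i =>
    rw [Sum_c_succ, pow_succ]
    have : (0 : ℚ) ≤ 9 ^ i := by positivity
    linarith

private theorem Sum_tel (j : ℕ) : ∑ i ∈ Finset.range (j + 1), Sum_c i = 9 ^ j := by
  induction j with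
  | zero => simp [Sum_c]
  | succ j ih =>
    rw [Finset.sum_range_succ, ih, Sum_c_succ]
    ring

private theorem Sum_geo (p : ℕ → Prop) [DecidablePred p] {j N : ℕ} (hj : j < N) (hp : ∀ i, p i ↔ i ≤ j) :
    ∑ i ∈ Finset.range N, (if p i then Sum_c i else 0) = 9 ^ j := by
  rw [← Finset.sum_filter, ← Sum_tel j]
  congr 1
  ext i
  rw [Finset.mem_filter, Finset.mem_range, Finset.mem_range, hp]
  omega

open Classical in
private theorem Sum_val (hPi : C_Pi) [Ine3 n t] {P : Ideal ZZ} (hP : Ab3 P) {f N : ℕ} {z0 d : ℂ}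
    (hPt : Pt n t f N z0 d) {h0 h : OO n t} (c0 : Cop h0 3) (c1 : Cop h 3)
    (hn : ¬ ((3 ^ N : ℕ) : OO n t) ∣ h0 - h) :
    pH z0 d h0 - pH z0 d h ≠ 0 ∧ vP P (pH z0 d h0 - pH z0 d h) * (8 * 9 ^ (N - 1)) =
      ∑ i ∈ Finset.range N, (if ((3 ^ i : ℕ) : OO n t) ∣ h0 - h then Sum_c i else 0) := by
  obtain ⟨_, _, _, hV, _⟩ := hPi n t P hP f N z0 d hPt
  have hex : ∃ m, ¬ ((3 ^ m : ℕ) : OO n t) ∣ h0 - h := ⟨N, hn⟩
  obtain ⟨m, hm, hmin⟩ : ∃ m, ¬ ((3 ^ m : ℕ) : OO n t) ∣ h0 - h ∧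
      ∀ i < m, ((3 ^ i : ℕ) : OO n t) ∣ h0 - h :=
    ⟨Nat.find hex, Nat.find_spec hex, fun i hi => not_not.1 (Nat.find_min hex hi)⟩
  have hm0 : m ≠ 0 := by
    rintro rfl
    apply hm
    rw [pow_zero, Nat.cast_one]
    exact one_dvd _
  obtain ⟨j, rfl⟩ := Nat.exists_eq_succ_of_ne_zero hm0
  have hjN : j < N := by
    by_contra hc
    exact hn ((Sum_cast (not_lt.1 hc)).trans (hmin j (Nat.lt_succ_self j)))
  obtain ⟨h1, h2⟩ := hV h0 h j c0 c1 hjN (hmin j (Nat.lt_succ_self j)) hm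
  refine ⟨h1, ?_⟩
  rw [h2, Sum_geo _ hjN]
  · have h4 : (8 : ℚ) * 9 ^ (N - 1) ≠ 0 := by positivity
    exact div_mul_cancel₀ _ h4
  · intro i
    constructor
    · intro hi
      by_contra hc
      exact hm ((Sum_cast (by omega : j + 1 ≤ i)).trans hi)
    · intro hi
      exact hmin i (by omega)

open Classical in
private theorem Sum_tot (hPi : C_Pi) [Ine3 n t] {P : Ideal ZZ} (hP : Ab3 P) {f N : ℕ} {z0 d : ℂ}
    (hPt : Pt n t f N z0 d) {C : OO n t → Prop} (hG : Sum_Gr f N C) {T : Finset (OO n t)}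
    (hT : IsR N C T) {h0 : OO n t} (h0T : h0 ∈ T) :
    ∏ h ∈ T.erase h0, (pH z0 d h0 - pH z0 d h) ≠ 0 ∧
      vP P (∏ h ∈ T.erase h0, (pH z0 d h0 - pH z0 d h)) * (8 * 9 ^ (N - 1)) =
        ∑ i ∈ Finset.range N, Sum_c i *
          (((T.filter (fun h => ((3 ^ i : ℕ) : OO n t) ∣ h0 - h)).card : ℚ) - 1) := by
  have hpr : P.IsPrime := hP.1.1
  have hall : ∀ h ∈ T.erase h0, pH z0 d h0 - pH z0 d h ≠ 0 ∧
      vP P (pH z0 d h0 - pH z0 d h) * (8 * 9 ^ (N - 1)) =
        ∑ i ∈ Finset.range N, (if ((3 ^ i : ℕ) : OO n t) ∣ h0 - h then Sum_c i else 0) := by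
    intro h hh
    obtain ⟨hne, hhT⟩ := Finset.mem_erase.1 hh
    refine Sum_val hPi hP hPt (hG.two _ (hT.mem _ h0T)) (hG.two _ (hT.mem _ hhT)) fun hd => ?_
    exact hne (hT.uni h0 h0T h hhT hd).symm
  refine ⟨Finset.prod_ne_zero_iff.2 fun h hh => (hall h hh).1, ?_⟩
  have hvp : vP P (∏ h ∈ T.erase h0, (pH z0 d h0 - pH z0 d h)) =
      ∑ h ∈ T.erase h0, vP P (pH z0 d h0 - pH z0 d h) :=
    DL.vl_prod (pl hP) _ _ fun h hh => (hall h hh).1
  rw [hvp, Finset.sum_mul, Finset.sum_congr rfl fun h hh => (hall h hh).2, Finset.sum_comm]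
  refine Finset.sum_congr rfl fun i _ => ?_
  rw [← Finset.sum_filter, Finset.sum_const, nsmul_eq_mul, mul_comm]
  congr 1
  have e : (T.erase h0).filter (fun h => ((3 ^ i : ℕ) : OO n t) ∣ h0 - h) =
      (T.filter (fun h => ((3 ^ i : ℕ) : OO n t) ∣ h0 - h)).erase h0 := by
    ext h
    simp only [Finset.mem_filter, Finset.mem_erase]
    tauto
  have hmem : h0 ∈ T.filter (fun h => ((3 ^ i : ℕ) : OO n t) ∣ h0 - h) := by
    rw [Finset.mem_filter, sub_self]
    exact ⟨h0T, dvd_zero _⟩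
  rw [e, Finset.card_erase_of_mem hmem, Nat.cast_pred (Finset.card_pos.2 ⟨h0, hmem⟩)]

open Classical in
/-- the product of the differences -/
private theorem Sum_dl (hPi : C_Pi) [Ine3 n t] {P : Ideal ZZ} (hP : Ab3 P) {f N : ℕ} {z0 d : ℂ}
    (hPt : Pt n t f N z0 d) {C : OO n t → Prop} (hG : Sum_Gr f N C) {T : Finset (OO n t)}
    (hT : IsR N C T) {h0 : OO n t} (h0T : h0 ∈ T) :
    DL.dl (T.image (pH z0 d)) (pH z0 d h0) = ∏ h ∈ T.erase h0, (pH z0 d h0 - pH z0 d h) := by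
  have hinj : ∀ h ∈ T, ∀ h' ∈ T, pH z0 d h = pH z0 d h' → h = h' := by
    intro h hh h' hh' he
    by_contra hc
    have h1 : ¬ ((3 ^ N : ℕ) : OO n t) ∣ h - h' := fun hd => hc (hT.uni h hh h' hh' hd)
    exact (Sum_val hPi hP hPt (hG.two _ (hT.mem _ hh)) (hG.two _ (hT.mem _ hh')) h1).1
      (sub_eq_zero.2 he)
  have e : (T.image (pH z0 d)).erase (pH z0 d h0) = (T.erase h0).image (pH z0 d) := by
    ext x
    simp only [Finset.mem_erase, Finset.mem_image]
    constructor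
    · rintro ⟨h1, h, hh, rfl⟩
      exact ⟨h, ⟨fun hc => h1 (by rw [hc]), hh⟩, rfl⟩
    · rintro ⟨h, ⟨h1, hh⟩, rfl⟩
      exact ⟨fun hc => h1 (hinj h hh h0 h0T hc), h, hh, rfl⟩
  unfold DL.dl
  rw [e, Finset.prod_image]
  intro h hh h' hh' he
  exact hinj h (Finset.mem_of_mem_erase hh) h' (Finset.mem_of_mem_erase hh') he

/-! ## The sums -/

private theorem Sum_low (M m : ℕ) (hm : m ≤ M) :
    ∑ i ∈ Finset.range m, Sum_c (i + 3) * ((3 : ℚ) ^ (M - i) - 1) =
      324 * 3 ^ M * (3 ^ m - 1) - 81 * (9 ^ m - 1) := by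
  induction m with
  | zero => simp
  | succ m ih =>
    rw [Finset.sum_range_succ, ih (by omega), show m + 3 = (m + 2) + 1 from rfl, Sum_c_succ]
    have e : (3 : ℚ) ^ M = 3 ^ (M - m) * 3 ^ m := by
      rw [← pow_add]
      congr 1
      omega
    have e4 : (9 : ℚ) ^ m = 3 ^ m * 3 ^ m := by
      rw [← mul_pow]
      norm_num
    rw [pow_add 9 (m + 2) 1, pow_add 9 m 2, pow_succ 9 m, pow_succ 3 m, e, e4]
    ring

private theorem Sum_split (F : ℕ → ℚ) (M : ℕ) :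
    ∑ i ∈ Finset.range (M + 3), F i = (F 0 + F 1 + F 2) + ∑ i ∈ Finset.range M, F (i + 3) := by
  calc ∑ i ∈ Finset.range (M + 3), F i
      = ∑ i ∈ Finset.range M, F (i + 1 + 1 + 1) + F (0 + 1 + 1) + F (0 + 1) + F 0 := by
        rw [Finset.sum_range_succ', Finset.sum_range_succ', Finset.sum_range_succ']
    _ = (F 0 + F 1 + F 2) + ∑ i ∈ Finset.range M, F (i + 3) := by
        show ∑ i ∈ Finset.range M, F (i + 3) + F 2 + F 1 + F 0 = _
        ring

theorem tSum : S_Sum := by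
  classical
  intro hRep hPi hHj n t _ P hP f N z0 d hPt
  have hfpos := hPt.fok.pos
  have hfcop := hPt.fok.cop
  refine ⟨?_, ?_⟩
  · intro hN T hT h0 h0T
    obtain ⟨M, rfl⟩ : ∃ M, N = M + 3 := ⟨N - 3, by omega⟩
    have e1 : M + 3 - 1 = M + 2 := by omega
    have e2 : M + 3 - 2 = M + 1 := by omega
    have ha : (0 : ℚ) < 3 ^ M := by positivity
    have e4 : (9 : ℚ) ^ M = 3 ^ M * 3 ^ M := by
      rw [← mul_pow]
      norm_num
    have hG : Sum_Gr (n := n) (t := t) f (M + 3) (Hq f (M + 3)) := Sum_Hq (by omega)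
    obtain ⟨hne, hv⟩ := Sum_tot hPi hP hPt hG hT h0T
    have hdl := Sum_dl hPi hP hPt hG hT h0T
    rw [hdl]
    refine ⟨hne, ?_⟩
    obtain ⟨T', hT', hcard⟩ := Sum_tr hG hT h0T
    have hlow : ∀ i, 2 ≤ i → i ≤ M + 3 → (3 : ℚ) ^ (M + 3 - i) ≤
        ((T.filter (fun h => ((3 ^ i : ℕ) : OO n t) ∣ h0 - h)).card : ℚ) := by
      intro i hi2 hi
      have h1 := hHj n t f (M + 3) hfpos hfcop i hi2 hi T' hT'
      rw [hcard i hi] at h1
      exact_mod_cast h1
    have hlow2 : ∀ i, i ≤ 2 → (3 : ℚ) ^ (M + 1) ≤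
        ((T.filter (fun h => ((3 ^ i : ℕ) : OO n t) ∣ h0 - h)).card : ℚ) := by
      intro i hi
      have h1 := hlow 2 le_rfl (by omega)
      rw [e2] at h1
      refine h1.trans ?_
      have h2 : (T.filter (fun h => ((3 ^ 2 : ℕ) : OO n t) ∣ h0 - h)).card ≤
          (T.filter (fun h => ((3 ^ i : ℕ) : OO n t) ∣ h0 - h)).card := by
        refine Finset.card_le_card fun h hh => ?_
        rw [Finset.mem_filter] at hh ⊢
        exact ⟨hh.1, (Sum_cast hi).trans hh.2⟩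
      exact_mod_cast h2
    rw [e1, Sum_split] at hv
    have c0 : Sum_c 0 = 1 := rfl
    have c1 : Sum_c 1 = 8 := by rw [show (1 : ℕ) = 0 + 1 from rfl, Sum_c_succ]; norm_num
    have c2 : Sum_c 2 = 72 := by rw [show (2 : ℕ) = 1 + 1 from rfl, Sum_c_succ]; norm_num
    have b0 := hlow2 0 (by norm_num)
    have b1 := hlow2 1 (by norm_num)
    have b2 := hlow2 2 le_rfl
    have hrest : ∑ i ∈ Finset.range M, Sum_c (i + 3) * ((3 : ℚ) ^ (M - i) - 1) ≤
        ∑ i ∈ Finset.range M, Sum_c (i + 3) *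
          (((T.filter (fun h => ((3 ^ (i + 3) : ℕ) : OO n t) ∣ h0 - h)).card : ℚ) - 1) := by
      refine Finset.sum_le_sum fun i hi => ?_
      rw [Finset.mem_range] at hi
      have h1 := hlow (i + 3) (by omega) (by omega)
      rw [show M + 3 - (i + 3) = M - i by omega] at h1
      exact mul_le_mul_of_nonneg_left (by linarith) (Sum_c_nonneg _)
    rw [Sum_low M M le_rfl] at hrest
    rw [c0, c1, c2] at hv
    rw [pow_succ] at b0 b1 b2
    have hS : (243 : ℚ) * 9 ^ M - 81 * 3 ^ M ≤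
        vP P (∏ h ∈ T.erase h0, (pH z0 d h0 - pH z0 d h)) * (8 * 9 ^ (M + 2)) := by
      rw [hv, e4]
      rw [e4] at hrest
      nlinarith [hrest, b0, b1, b2]
    rw [pow_add 9 M 2, e4] at hS
    rw [pow_add 3 M 3]
    set V : ℚ := vP P (∏ h ∈ T.erase h0, (pH z0 d h0 - pH z0 d h)) with hV
    set a : ℚ := 3 ^ M with haa
    have hpos : (0 : ℚ) < 8 * (a * a * 9 ^ 2) := by positivity
    refine le_of_mul_le_mul_right (le_trans ?_ hS) hpos
    have e5 : (3 / 8 - 4 / (a * 3 ^ 3)) * (8 * (a * a * 9 ^ 2)) = 243 * (a * a) - 96 * a := by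
      field_simp
      ring
    rw [e5]
    linarith
  · intro T hT h0 h0T
    obtain ⟨M, rfl⟩ : ∃ M, N = M + 1 := ⟨N - 1, by have := hPt.pos; omega⟩
    obtain ⟨_, _, hR⟩ := hRep n t (M + 1) (by omega)
    obtain ⟨_, hR3, hR4⟩ := hR f hfpos hfcop
    have hG : Sum_Gr (n := n) (t := t) f (M + 1) (Un f) := Sum_Un (by omega)
    obtain ⟨hne, hv⟩ := Sum_tot hPi hP hPt hG hT h0T
    have hdl := Sum_dl hPi hP hPt hG hT h0T
    rw [hdl]
    refine ⟨hne, ?_⟩
    obtain ⟨T', hT', hcard⟩ := Sum_tr hG hT h0T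
    have hn0 : ((T.filter (fun h => ((3 ^ 0 : ℕ) : OO n t) ∣ h0 - h)).card : ℚ) = 8 * 9 ^ M := by
      have e6 : T.filter (fun h => ((3 ^ 0 : ℕ) : OO n t) ∣ h0 - h) = T := by
        refine Finset.filter_true_of_mem fun h _ => ?_
        rw [pow_zero, Nat.cast_one]
        exact one_dvd _
      rw [e6, hR3 T hT, show M + 1 - 1 = M by omega]
      push_cast
      ring
    have hn1 : ∀ i ∈ Finset.range M,
        ((T.filter (fun h => ((3 ^ (i + 1) : ℕ) : OO n t) ∣ h0 - h)).card : ℚ) = 9 ^ (M - i) := by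
      intro i hi
      rw [Finset.mem_range] at hi
      rw [← hcard (i + 1) (by omega)]
      have h1 : IsR (M + 1) (Uj f (i + 1))
          (T'.filter (fun h => ((3 ^ (i + 1) : ℕ) : OO n t) ∣ h - 1)) := by
        refine ⟨?_, ?_, ?_⟩
        · intro h hh
          rw [Finset.mem_filter] at hh
          exact ⟨(hT'.mem h hh.1).1, hh.2⟩
        · intro v hv'
          obtain ⟨h, hh, h2⟩ := hT'.ex v ⟨hv'.1, Sum_cop (by omega : 1 ≤ i + 1) hv'.2⟩
          refine ⟨h, ?_, h2⟩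
          rw [Finset.mem_filter]
          refine ⟨hh, ?_⟩
          have e7 : h - 1 = (v - 1) - (v - h) := by ring
          rw [e7]
          exact dvd_sub hv'.2 ((Sum_cast (by omega : i + 1 ≤ M + 1)).trans h2)
        · intro h hh h' hh' h2
          exact hT'.uni h (Finset.mem_filter.1 hh).1 h' (Finset.mem_filter.1 hh').1 h2
      rw [hR4 (i + 1) (by omega) _ h1, show M + 1 - (i + 1) = M - i by omega]
      push_cast
      ring
    have hterm : ∀ i ∈ Finset.range M, Sum_c (i + 1) *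
        (((T.filter (fun h => ((3 ^ (i + 1) : ℕ) : OO n t) ∣ h0 - h)).card : ℚ) - 1) =
          8 * 9 ^ M - Sum_c (i + 1) := by
      intro i hi
      rw [hn1 i hi, Sum_c_succ]
      rw [Finset.mem_range] at hi
      have e : (9 : ℚ) ^ M = 9 ^ (M - i) * 9 ^ i := by
        rw [← pow_add]
        congr 1
        omega
      rw [e, pow_succ]
      ring
    have hc : ∑ i ∈ Finset.range M, Sum_c (i + 1) = 9 ^ M - 1 := by
      have h1 := Sum_tel M
      rw [Finset.sum_range_succ'] at h1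
      have c0 : Sum_c 0 = 1 := rfl
      rw [c0] at h1
      linarith
    rw [show M + 1 - 1 = M by omega, Finset.sum_range_succ', Finset.sum_congr rfl hterm,
      Finset.sum_sub_distrib, hc, Finset.sum_const, Finset.card_range, nsmul_eq_mul, hn0] at hv
    have c0 : Sum_c 0 = 1 := rfl
    rw [c0] at hv
    have hpos : (8 : ℚ) * 9 ^ M ≠ 0 := by positivity
    apply mul_right_cancel₀ hpos
    rw [hv]
    push_cast
    ring

end Pool.Agent.DM.GL
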