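import Pool.Agent.Lib.DM.GL.Spec

/-!
# Theorem DM, part GL, module `Sur`: total ramification
-/

set_option autoImplicit false

open scoped Pointwise

noncomputable section

namespace Pool.Agent.DM.GL

open Pool.Agent.MuZ Pool.Agent.FW Pool.Agent.DN Pool.Agent.DM
open Pool.Agent.DI (io ofC io_inj exists_io io_ofC ofC_io VP MP UP TP ex)
open Pool.Agent.DT (kap cbr)

variable {n t : ℕ}

/-- `1/M` is not a lattice point for `M ≥ 2` -/
private theorem Sur_one_div [SqN n t] {M : ℕ} (hM : 2 ≤ M) : (1 : ℂ) / M ∉ Lam (⊤ : Ideal (OO n t)) := by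
  intro h
  have h1 := (aL6.1 n t (⊤ : Ideal (OO n t)) M top_ne_bot (by omega) (by unfold PrI; rw [top_sup_eq]) 1).1
    (by rw [toC_one]; exact h)
  rw [nat_dvd_iff] at h1
  obtain ⟨h2, -⟩ := h1
  rw [re_one] at h2
  have h3 := Int.le_of_dvd one_pos h2
  omega

private theorem Sur_pt [SqN n t] {f N : ℕ} (hf : Fok f) (hN : 1 ≤ N) :
    Pt n t f N (1 / f) (1 / (3 ^ N : ℕ)) where
  fok := hf
  pos := hN
  z := one_div_lam _ hf.pos
  zn := by
    intro h
    have h1 := (aL6.1 n t (⊤ : Ideal (OO n t)) f top_ne_bot hf.pos (by unfold PrI; rw [top_sup_eq]) 2).1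
      (by
        have e : toC (2 : OO n t) / (f : ℂ) = 2 * (1 / (f : ℂ)) := by
          rw [show (2 : OO n t) = 1 + 1 by norm_num, toC_add, toC_one]
          ring
        rw [e]
        exact h)
    rw [nat_dvd_iff] at h1
    obtain ⟨h2, -⟩ := h1
    have h4 : (2 : OO n t).re = 2 := by
      have h6 := re_nat (n := n) (t := t) 2
      rw [Nat.cast_ofNat] at h6
      exact h6
    rw [h4] at h2
    have h3 := Int.le_of_dvd two_pos h2
    have h5 := Nat.le_of_dvd hf.pos hf.dvd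
    omega
  dd := by
    have h := one_div_lam (⊤ : Ideal (OO n t)) (N := 3 ^ N) (by positivity)
    push_cast at h ⊢
    exact h
  dn := by
    have h := Sur_one_div (n := n) (t := t) (M := 3) (by norm_num)
    have e : (3 : ℂ) ^ (N - 1) * (1 / ((3 ^ N : ℕ) : ℂ)) = 1 / ((3 : ℕ) : ℂ) := by
      obtain ⟨j, rfl⟩ := Nat.exists_eq_add_of_le' hN
      rw [Nat.add_sub_cancel]
      push_cast
      rw [pow_succ]
      field_simp
    rw [e]
    exact h

theorem tSur : S_Sur := by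
  intro K0 In Rep Pi n t _ P hP f N hf hN h hh1 hh2
  classical
  have hpr := hP.1.1
  obtain ⟨hp1, -, hp3, -, hp5⟩ := Pi n t P hP f N (1 / f) (1 / (3 ^ N : ℕ)) (Sur_pt hf hN)
  obtain ⟨T, hT⟩ := (Rep n t N hN).1 (Un f)
  have hTc := ((Rep n t N hN).2.2 f hf.pos hf.cop).2.1 T hT
  obtain ⟨hI1, -, hI3, hI4, hI5, -⟩ := (In n t P hP).2 f N hf hN
  set z0 : ℂ := 1 / f with hz0
  set d : ℂ := 1 / (3 ^ N : ℕ) with hd
  set A : Finset (OO n t) := T.filter (fun g => ∃ τ, Cls P f N g τ) with hA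
  have hAm : ∀ g, g ∈ A ↔ g ∈ T ∧ ∃ τ, Cls P f N g τ := by
    intro g
    rw [hA, Finset.mem_filter]
  -- the set is not empty
  have hne : A.Nonempty := by
    obtain ⟨g, hg, hgg⟩ := hT.ex 1 ⟨hI5.one, hI5.cop⟩
    refine ⟨g, (hAm g).2 ⟨hg, 1, hI3 1 1 g hI5 (hT.mem g hg).1 ?_⟩⟩
    rw [← neg_sub]
    exact hgg.neg_right
  have hnz : ∀ g ∈ A, pH z0 d g ≠ 0 := fun g hg => (hp1 g (hT.mem g ((hAm g).1 hg).1).2).1
  set x : Om := ∏ g ∈ A, pH z0 d g with hx
  have hx0 : x ≠ 0 := Finset.prod_ne_zero_iff.2 hnz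
  -- the product is fixed by the inertia group
  have hfix : ∀ τ ∈ P.inertia Gal(Om/ℚ), τ x = x := by
    intro τ hτ
    obtain ⟨h0, hh0⟩ := hI1 τ hτ
    have hch : ∀ g ∈ A, ∃ r ∈ A, ((3 ^ N : ℕ) : OO n t) ∣ h0 * g - r := by
      intro g hg
      obtain ⟨hgT, τ', hτ'⟩ := (hAm g).1 hg
      have hc := hI4 τ τ' h0 g hh0 hτ'
      obtain ⟨r, hr, hrr⟩ := hT.ex (h0 * g) ⟨hc.one, hc.cop⟩
      refine ⟨r, (hAm r).2 ⟨hr, τ * τ', hI3 _ _ r hc (hT.mem r hr).1 ?_⟩, hrr⟩
      rw [← neg_sub]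
      exact hrr.neg_right
    choose! r hrA hrr using hch
    have hinj : Set.InjOn r (A : Set (OO n t)) := by
      intro g hg g' hg' he
      have h1 := hrr g hg
      have h2 := hrr g' hg'
      rw [← he] at h2
      have h3 := h1.sub h2
      have h4 : h0 * g - r g - (h0 * g' - r g) = h0 * (g - g') := by ring
      rw [h4] at h3
      obtain ⟨b, -, hb⟩ := cop_inv (show Cop h0 (3 ^ N) by
        have := hh0.cop
        unfold Cop at this ⊢
        push_cast
        exact this.pow_right)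
      refine hT.uni g ((hAm g).1 hg).1 g' ((hAm g').1 hg').1 ?_
      have h5 : g - g' = b * (h0 * (g - g')) - (h0 * b - 1) * (g - g') := by ring
      rw [h5]
      exact (h3.mul_left _).sub (hb.mul_right _)
    have himg : A.image r = A := by
      refine Finset.eq_of_subset_of_card_le ?_ ?_
      · intro g hg
        obtain ⟨g', hg', rfl⟩ := Finset.mem_image.1 hg
        exact hrA g' hg'
      · rw [Finset.card_image_of_injOn hinj]
    have h6 : τ x = ∏ g ∈ A, pH z0 d (r g) := by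
      rw [hx, map_prod]
      refine Finset.prod_congr rfl fun g hg => ?_
      rw [hp5 f h0 τ hf dvd_rfl hh0 g]
      exact hp3 _ _ (hrr g hg)
    rw [h6, ← Finset.prod_image (f := fun g => pH z0 d g) hinj, himg]
  obtain ⟨j, hj⟩ := K0 P 3 hpr Nat.prime_three (pl hP) x hfix hx0
  have hval : DL.vl P 3 x = A.card / (8 * 9 ^ (N - 1)) := by
    rw [hx, DL.vl_prod (pl hP) A _ hnz]
    have h7 : ∀ g ∈ A, DL.vl P 3 (pH z0 d g) = 1 / (8 * 9 ^ (N - 1)) := by
      intro g hg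
      exact (hp1 g (hT.mem g ((hAm g).1 hg).1).2).2.1
    rw [Finset.sum_congr rfl h7, Finset.sum_const, nsmul_eq_mul]
    ring
  rw [hval] at hj
  have hAT : A ⊆ T := fun g hg => ((hAm g).1 hg).1
  have hle : T.card ≤ A.card := by
    have h1 : (0 : ℚ) < 8 * 9 ^ (N - 1) := by positivity
    rw [div_eq_iff h1.ne'] at hj
    have h3 : (A.card : ℤ) = j * (8 * 9 ^ (N - 1)) := by exact_mod_cast hj
    have h4 : (0 : ℤ) < 8 * 9 ^ (N - 1) := by positivity
    have h8 : 0 < A.card := hne.card_pos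
    have h5 : 0 < j := by
      by_contra h6
      have h7 : j * (8 * 9 ^ (N - 1)) ≤ 0 := mul_nonpos_of_nonpos_of_nonneg (not_lt.1 h6) h4.le
      rw [← h3] at h7
      omega
    have h6 : (8 * 9 ^ (N - 1) : ℤ) ≤ A.card := by
      rw [h3]
      nlinarith
    rw [hTc]
    exact_mod_cast h6
  have hEq : A = T := Finset.eq_of_subset_of_card_le hAT hle
  obtain ⟨g, hg, hgg⟩ := hT.ex h ⟨hh1, hh2⟩
  rw [← hEq] at hg
  obtain ⟨-, τ, hτ⟩ := (hAm g).1 hg
  exact ⟨τ, hI3 τ g h hτ hh1 hgg⟩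

end Pool.Agent.DM.GL
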