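import Pool.Agent.Lib.DM.GL.SpecT

/-!
# DM, part GL, module Tc: the action of inertia on `w8` (helper2)
-/

set_option autoImplicit false

open scoped Pointwise

noncomputable section

namespace Pool.Agent.DM.GL

open Pool.Agent.MuZ Pool.Agent.FW Pool.Agent.DN Pool.Agent.DM
open Pool.Agent.DI (io ofC io_inj exists_io io_ofC ofC_io VP MP UP TP ex)
open Pool.Agent.DT (kap cbr)

variable {n t : ℕ}

private theorem tc_gtop : G30 (⊤ : Ideal (OO n t)) := ⟨top_ne_bot, top_sup_eq _⟩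

private theorem tc_pri (N : ℕ) : PrI (⊤ : Ideal (OO n t)) N := top_sup_eq _

/-- The third of the period has level `f 3 ^ N`. -/
private theorem tc_third [SqN n t] {f N : ℕ} (hN : 1 ≤ N) :
    ((f * 3 ^ N : ℕ) : ℂ) * (1 / 3) ∈ Lam (⊤ : Ideal (OO n t)) := by
  rw [lam_top]
  refine ⟨((f * 3 ^ (N - 1) : ℕ) : OO n t), ?_⟩
  rw [toC_nat]
  have e1 : (3 : ℂ) ^ N = 3 ^ (N - 1) * 3 := by
    rw [← pow_succ]
    exact congrArg _ (by omega)
  push_cast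
  rw [e1]
  ring

theorem tTc : S_Tc := by
  intro hB7 hKp hAct hZt n t _ P hP f N h τ hf hN hc
  have hPp : P.IsPrime := hP.1.1
  have h3 : MP P 3 := hP.2
  have gt : G30 (⊤ : Ideal (OO n t)) := tc_gtop
  obtain ⟨hT0, hw0, hw8, -⟩ := hZt
  obtain ⟨hw3, hzt⟩ := hT0
  obtain ⟨hv8, hdif⟩ := hw8 P hP
  obtain ⟨hU, -, hK3⟩ := hKp n t P hP ⊤ gt
  have h20 : (20 : OO n t) ∣ h - 1 := by
    obtain ⟨u, hu⟩ := hc.one
    obtain ⟨c, rfl⟩ := hf.dvd
    refine ⟨(c : OO n t) * u, ?_⟩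
    rw [hu]
    push_cast
    ring
  have h4 : (4 : OO n t) ∣ h - 1 := by
    obtain ⟨u, hu⟩ := h20
    exact ⟨5 * u, by rw [hu]; ring⟩
  have hh0 : h ≠ 0 := by
    rintro rfl
    have h5 := hc.cop
    rw [cop3_iff] at h5
    exact h5 (dvd_zero _)
  -- the action on `κ`
  have hv : τ (vO (⊤ : Ideal (OO n t)) (1 / 3)) = vO (sp h * (⊤ : Ideal (OO n t))) (1 / 3) := by
    obtain ⟨-, hA⟩ := hAct n t P hP f N h τ hf hN hc
    obtain ⟨-, -, hx, -, -⟩ := hA ⊤ gt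
    rw [(hx (1 / 3) (tc_third hN)).2]
    unfold vO
    rw [(((hB7 n t ⊤ top_ne_bot (tc_pri 2)).1 h hh0 h4).2.2 (1 / 3)).2]
  have hκ : τ (kp (⊤ : Ideal (OO n t))) = kp (sp h * (⊤ : Ideal (OO n t))) := by
    unfold kp
    rw [map_div₀, map_one, map_mul, map_pow, map_ofNat, hv]
  obtain ⟨y, hy, hy2⟩ := hK3 h h20 hc.cop
  rw [← hκ] at hy2
  -- the unit `u = κ / w8`
  obtain ⟨u, hu⟩ : ∃ u : Om, u = kp (⊤ : Ideal (OO n t)) / w8 := ⟨_, rfl⟩
  rw [← hu] at hU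
  have hκu : kp (⊤ : Ideal (OO n t)) = u * w8 := by rw [hu, div_mul_cancel₀ _ hw0]
  obtain ⟨ζ, hζ⟩ : ∃ ζ : Om, ζ = τ w8 / w8 := ⟨_, rfl⟩
  have hζc : τ w8 = ζ * w8 := by rw [hζ, div_mul_cancel₀ _ hw0]
  have hζ8 : ζ ^ 8 = 1 := by
    rw [hζ, div_pow, ← map_pow, hw3, map_ofNat]
    exact div_self three_ne_zero
  have hζV : VP P ζ := by
    refine DI.VP.of_pow (by norm_num : 0 < 8) ?_
    rw [hζ8]
    exact DI.VP.one
  have hwV : VP P w8 := by
    refine DI.VP.of_pow (by norm_num : 0 < 8) ?_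
    rw [hw3]
    exact h3.vp
  have hz8 : zt P h ^ 8 = 1 := ((hzt n t P hP h h).2 hc.cop hc.cop).1
  have hzV : VP P (zt P h) := by
    refine DI.VP.of_pow (by norm_num : 0 < 8) ?_
    rw [hz8]
    exact DI.VP.one
  rw [hκu, map_mul, hζc] at hy2
  have e1 : ζ * τ u - zt P h * u = 3 * w8 * y := by
    apply mul_right_cancel₀ hw0
    linear_combination hy2
  have m1 : MP P (ζ * τ u - zt P h * u) := by
    rw [e1]
    exact DI.MP.mul_right (DI.MP.mul_right h3 hwV) hy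
  have m2 : MP P (ζ * (τ u - u)) := DI.MP.mul_left hζV (DI.VP.inertia hc.ine hU.1)
  have m3 : MP P ((ζ - zt P h) * u) := by
    have e : ζ * τ u - zt P h * u - ζ * (τ u - u) = (ζ - zt P h) * u := by ring
    rw [← e]
    exact m1.sub m2
  have m4 : MP P (ζ - zt P h) := by
    rcases DI.MP.mul_cases (hζV.sub hzV) hU.1 m3 with h5 | h5
    · exact h5
    · exact absurd h5 hU.2
  rw [hζc]
  by_contra hne
  have hne' : ζ ≠ zt P h := fun h5 => hne (by rw [h5])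
  exact (hdif ζ (zt P h) hζ8 hz8 hne').2 m4

end Pool.Agent.DM.GL
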