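import Pool.Agent.Lib.DM.GL.SpecT

/-!
# DM, part GL, module TrZ: the trace lemma for `ζ` (helper71; edit of DN/GL/TrZ.lean of helper86)
-/

set_option autoImplicit false

open scoped Pointwise

noncomputable section

namespace Pool.Agent.DM.GL

open Pool.Agent.MuZ Pool.Agent.FW Pool.Agent.DN Pool.Agent.DM
open Pool.Agent.DI (io ofC io_inj exists_io io_ofC ofC_io VP MP UP TP ex)
open Pool.Agent.DT (kap cbr)

variable {n t : ℕ}

section Va

variable {P : Ideal ZZ} [P.IsPrime]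

private theorem vP_mul (h2 : DL.Pl P 3) {x y : Om} (hx : x ≠ 0) (hy : y ≠ 0) :
    vP P (x * y) = vP P x + vP P y := DL.vl_mul h2 hx hy

private theorem vP_pow (h2 : DL.Pl P 3) {x : Om} (hx : x ≠ 0) (n : ℕ) :
    vP P (x ^ n) = n * vP P x := DL.vl_pow h2 hx n

private theorem vP_add_lt (h2 : DL.Pl P 3) {x y : Om} (hx : x ≠ 0)
    (hne : y = 0 ∨ vP P x < vP P y) : x + y ≠ 0 ∧ vP P (x + y) = vP P x := DL.vl_add_lt h2 hx hne

private theorem vP_nonneg (h2 : DL.Pl P 3) {x : Om} (hx : x ≠ 0) : 0 ≤ vP P x ↔ VP P x :=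
  DL.vl_nonneg h2 hx

private theorem vP_neg (h2 : DL.Pl P 3) {x : Om} (hx : x ≠ 0) : vP P (-x) = vP P x :=
  DL.vl_neg h2 hx

end Va

/-- The values of the terms `a_j π^j`, `v(a_j)` integral, `v(π) = 1/n`, `j < n`. -/
private theorem TrZ_val {P : Ideal ZZ} [P.IsPrime] (h2 : DL.Pl P 3) {n : ℕ} (hn : 0 < n) {w : Om}
    (hw : w ≠ 0) (hv : vP P w = 1 / n) (a : ℕ → Om)
    (ha : ∀ j, a j ≠ 0 → ∃ i : ℤ, vP P (a j) = i) (m : ℕ) (hm : m ≤ n) :
    (∀ j < m, a j = 0) ∨ (∑ j ∈ Finset.range m, a j * w ^ j ≠ 0 ∧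
      (∃ j0 < m, a j0 ≠ 0 ∧
        vP P (∑ j ∈ Finset.range m, a j * w ^ j) = vP P (a j0) + (j0 : ℚ) / n) ∧
      ∀ j < m, a j ≠ 0 →
        vP P (∑ j ∈ Finset.range m, a j * w ^ j) ≤ vP P (a j) + (j : ℚ) / n) := by
  have hn0 : (0 : ℚ) < n := by exact_mod_cast hn
  have hterm : ∀ j, a j ≠ 0 → vP P (a j * w ^ j) = vP P (a j) + (j : ℚ) / n := by
    intro j hj
    rw [vP_mul h2 hj (pow_ne_zero _ hw), vP_pow h2 hw, hv]
    ring
  induction m with
  | zero => exact Or.inl fun j hj => absurd hj (Nat.not_lt_zero j)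
  | succ m ih =>
    rw [Finset.sum_range_succ]
    by_cases ham : a m = 0
    · rw [ham, zero_mul, add_zero]
      rcases ih (by omega) with h | ⟨h1, ⟨j0, hj0, h3, h4⟩, h5⟩
      · left
        intro j hj
        rcases Nat.lt_succ_iff_lt_or_eq.1 hj with h6 | h6
        · exact h j h6
        · rw [h6]; exact ham
      · right
        refine ⟨h1, ⟨j0, by omega, h3, h4⟩, fun j hj hja => ?_⟩
        rcases Nat.lt_succ_iff_lt_or_eq.1 hj with h6 | h6
        · exact h5 j h6 hja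
        · rw [h6] at hja; exact absurd ham hja
    · right
      have htm : a m * w ^ m ≠ 0 := mul_ne_zero ham (pow_ne_zero _ hw)
      rcases ih (by omega) with h | ⟨h1, ⟨j0, hj0, h3, h4⟩, h5⟩
      · have hs : ∑ j ∈ Finset.range m, a j * w ^ j = 0 := by
          apply Finset.sum_eq_zero
          intro j hj
          rw [h j (Finset.mem_range.1 hj), zero_mul]
        rw [hs, zero_add]
        refine ⟨htm, ⟨m, by omega, ham, hterm m ham⟩, fun j hj hja => ?_⟩
        rcases Nat.lt_succ_iff_lt_or_eq.1 hj with h6 | h6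
        · exact absurd (h j h6) hja
        · rw [h6, hterm m ham]
      · obtain ⟨i0, hi0⟩ := ha j0 h3
        obtain ⟨im, him⟩ := ha m ham
        have hne : vP P (∑ j ∈ Finset.range m, a j * w ^ j) ≠ vP P (a m * w ^ m) := by
          rw [h4, hterm m ham, hi0, him]
          intro h
          have h6 : ((m : ℤ) - j0 : ℤ) = (i0 - im) * n := by
            have h7 : ((m : ℚ) - j0) = (i0 - im) * n := by
              field_simp at h
              linarith
            exact_mod_cast h7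
          have h8 : (0 : ℤ) < (i0 - im) * n := by
            rw [← h6]
            omega
          have h9 : (i0 - im) * (n : ℤ) < n := by
            rw [← h6]
            omega
          have hnz : (0 : ℤ) < n := by exact_mod_cast hn
          have h10 : 1 ≤ i0 - im := by
            by_contra hc
            have h11 := mul_nonpos_of_nonpos_of_nonneg (show i0 - im ≤ 0 by omega) hnz.le
            linarith
          have h12 := mul_le_mul_of_nonneg_right h10 hnz.le
          linarith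
        rcases lt_or_gt_of_ne hne with h6 | h6
        · obtain ⟨h7, h8⟩ := vP_add_lt h2 h1 (Or.inr h6)
          refine ⟨h7, ⟨j0, by omega, h3, ?_⟩, fun j hj hja => ?_⟩
          · rw [h8, h4]
          · rw [h8]
            rcases Nat.lt_succ_iff_lt_or_eq.1 hj with h9 | h9
            · exact h5 j h9 hja
            · rw [h9, ← hterm m ham]
              exact h6.le
        · have h6' : vP P (a m * w ^ m) < vP P (∑ j ∈ Finset.range m, a j * w ^ j) := h6
          obtain ⟨h7, h8⟩ := vP_add_lt h2 htm (Or.inr h6')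
          rw [add_comm] at h7 h8
          refine ⟨h7, ⟨m, by omega, ham, ?_⟩, fun j hj hja => ?_⟩
          · rw [h8, hterm m ham]
          · rw [h8]
            rcases Nat.lt_succ_iff_lt_or_eq.1 hj with h9 | h9
            · exact h6'.le.trans (h5 j h9 hja)
            · rw [h9, ← hterm m ham]

/-- The coefficients are integral. -/
private theorem TrZ_int {P : Ideal ZZ} [P.IsPrime] (h2 : DL.Pl P 3) {n : ℕ} (hn : 0 < n) {w : Om}
    (hw : w ≠ 0) (hv : vP P w = 1 / n) (a : ℕ → Om)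
    (ha : ∀ j, a j ≠ 0 → ∃ i : ℤ, vP P (a j) = i)
    (hx : VP P (∑ j ∈ Finset.range n, a j * w ^ j)) (j : ℕ) (hj : j < n) : VP P (a j) := by
  by_cases h0 : a j = 0
  · rw [h0]
    exact DI.VP.zero
  rcases TrZ_val h2 hn hw hv a ha n le_rfl with h | ⟨h1, -, h5⟩
  · exact absurd (h j hj) h0
  · have h3 := h5 j hj h0
    have h4 := (vP_nonneg h2 h1).2 hx
    rw [← vP_nonneg h2 h0]
    obtain ⟨i, hi⟩ := ha j h0
    rw [hi] at h3 ⊢
    have hn0 : (0 : ℚ) < n := by exact_mod_cast hn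
    have h6 : (j : ℚ) / n < 1 := by
      rw [div_lt_one hn0]
      exact_mod_cast hj
    have h7 : (-1 : ℚ) < i := by linarith
    have h8 : (-1 : ℤ) < i := by exact_mod_cast h7
    have h9 : (0 : ℤ) ≤ i := by omega
    exact_mod_cast h9

/-- An automorphism which permutes nodes and values fixes the interpolation polynomial. -/
private theorem TrZ_perm {ι : Type} [DecidableEq ι] (T : Finset ι) (p : ι → Om) (x : ι → Om)
    (hp : Set.InjOn p T) (τ : Gal(Om/ℚ))
    (hτ : ∀ h ∈ T, ∃ h' ∈ T, τ (p h') = p h ∧ τ (x h') = x h) (i : ℕ) :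
    τ ((Lagrange.interpolate T p x).coeff i) = (Lagrange.interpolate T p x).coeff i := by
  have h1 : (Lagrange.interpolate T p x).map ((τ : Om ≃ₐ[ℚ] Om) : Om →+* Om) =
      Lagrange.interpolate T p x := by
    apply Lagrange.eq_interpolate_of_eval_eq x hp
    · rw [Polynomial.degree_map]
      exact Lagrange.degree_interpolate_lt x hp
    · intro h hh
      obtain ⟨h', hh', e1, e2⟩ := hτ h hh
      have e3 : Polynomial.eval (p h) ((Lagrange.interpolate T p x).map
          ((τ : Om ≃ₐ[ℚ] Om) : Om →+* Om)) =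
          τ (Polynomial.eval (p h') (Lagrange.interpolate T p x)) := by
        rw [← e1]
        exact Polynomial.eval_map_apply ((τ : Om ≃ₐ[ℚ] Om) : Om →+* Om) (p h')
      rw [e3, Lagrange.eval_interpolate_at_node x hp hh', e2]
  have h2 := congrArg (fun F : Polynomial Om => F.coeff i) h1
  simp only [Polynomial.coeff_map] at h2
  exact h2

/-- The action of an automorphism on the roots of unity of order `3 ^ N`. -/
private theorem TrZ_exp {N : ℕ} (hN : 1 ≤ N) {ζ : Om} (hζ : IsPrimitiveRoot ζ (3 ^ N)) (τ : Gal(Om/ℚ)) :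
    ∃ c : ℕ, c % 3 ≠ 0 ∧ τ ζ = ζ ^ c := by
  have hpos : 0 < 3 ^ N := by positivity
  have : NeZero (3 ^ N) := ⟨hpos.ne'⟩
  have h1 : (τ ζ) ^ (3 ^ N) = 1 := by
    rw [← map_pow, hζ.pow_eq_one, map_one]
  obtain ⟨i, -, hi⟩ := hζ.eq_pow_of_pow_eq_one h1
  refine ⟨i, ?_, hi.symm⟩
  intro hc
  obtain ⟨m, hm⟩ : ∃ m, i = 3 * m := ⟨i / 3, by omega⟩
  have h2 : τ (ζ ^ (3 ^ (N - 1))) = 1 := by
    rw [map_pow, ← hi, ← pow_mul, hm]
    have e : 3 * m * 3 ^ (N - 1) = 3 ^ N * m := by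
      have e1 : 3 ^ N = 3 * 3 ^ (N - 1) := by
        rw [← pow_succ']
        congr 1
        omega
      rw [e1]
      ring
    rw [e, pow_mul, hζ.pow_eq_one, one_pow]
  have h3 : ζ ^ (3 ^ (N - 1)) = 1 := by
    apply τ.injective
    rw [h2, map_one]
  have h4 := (hζ.pow_eq_one_iff_dvd _).1 h3
  have h5 := Nat.le_of_dvd (by positivity) h4
  have h6 : 3 ^ (N - 1) < 3 ^ N := Nat.pow_lt_pow_right (by norm_num) (by omega)
  omega

theorem tTrZ : S_TrZ := by
  classical
  intro hK0 hZn hPz P hP N ζ z s hN hζ hs hz hzP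
  have hPp : P.IsPrime := hP.1.1
  have h2 : DL.Pl P 3 := pl hP
  have hζ0 : ζ ≠ 0 := hζ.ne_zero (by positivity)
  obtain ⟨hP1, hP2, hP3, hP4, hP5⟩ := hPz N ζ hN hζ
  have h1od : 1 ∈ od N := by
    unfold od
    rw [Finset.mem_filter, Finset.mem_range]
    refine ⟨?_, by norm_num⟩
    have h0 : 3 ^ 1 ≤ 3 ^ N := Nat.pow_le_pow_right (by norm_num) hN
    omega
  obtain ⟨p, hp⟩ : ∃ p : ℕ → Om, p = fun a => ζ ^ a + (ζ ^ a)⁻¹ - 2 := ⟨_, rfl⟩
  obtain ⟨x, hx⟩ : ∃ x : ℕ → Om, x = fun a => s a z := ⟨_, rfl⟩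
  have hinj : Set.InjOn p (od N : Set ℕ) := by
    intro a ha a' ha' h
    refine hP4 a ha a' ha' ?_
    rw [hp] at h
    have h' : ζ ^ a + (ζ ^ a)⁻¹ - 2 = ζ ^ a' + (ζ ^ a')⁻¹ - 2 := h
    linear_combination h'
  obtain ⟨F, hF⟩ : ∃ F, F = Lagrange.interpolate (od N) p x := ⟨_, rfl⟩
  have hFdeg : F.degree < (od N).card := by
    rw [hF]
    exact Lagrange.degree_interpolate_lt _ hinj
  have hn : 0 < (od N).card := Finset.card_pos.2 ⟨1, h1od⟩
  have hFnat : F.natDegree < (od N).card := by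
    by_cases hF0 : F = 0
    · rw [hF0, Polynomial.natDegree_zero]
      exact hn
    · exact (Polynomial.natDegree_lt_iff_degree_lt hF0).2 hFdeg
  have hev : ∀ a ∈ od N, F.eval (p a) = s a z := by
    intro a ha
    rw [hF, Lagrange.eval_interpolate_at_node x hinj ha, hx]
  -- the uniformizer
  have hp1 : p 1 = ζ + ζ⁻¹ - 2 := by
    rw [hp]
    show ζ ^ 1 + (ζ ^ 1)⁻¹ - 2 = _
    rw [pow_one]
  obtain ⟨q1, q2⟩ := hZn P hPp hP.2 N ζ hN hζ
  obtain ⟨q3, q4⟩ := hZn P hPp hP.2 N ζ⁻¹ hN hζ.inv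
  have hp1' : p 1 = -((1 - ζ) * (1 - ζ⁻¹)) := by
    rw [hp1]
    have e : ζ * ζ⁻¹ = 1 := mul_inv_cancel₀ hζ0
    linear_combination e
  have hp10 : p 1 ≠ 0 := by
    rw [hp1']
    exact neg_ne_zero.2 (mul_ne_zero q1 q3)
  have hpv : vP P (p 1) = 1 / ((od N).card : ℚ) := by
    have q5 : vP P (-((1 - ζ) * (1 - ζ⁻¹))) = vP P (1 - ζ) + vP P (1 - ζ⁻¹) := by
      rw [vP_neg h2 (mul_ne_zero q1 q3), vP_mul h2 q1 q3]
    rw [hp1', q5, q2, q4, hP3]
    push_cast
    have h3 : (3 : ℚ) ^ (N - 1) ≠ 0 := by positivity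
    field_simp
    ring
  -- the coefficients
  have hfix : ∀ i, ∀ τ ∈ P.inertia Gal(Om/ℚ), τ (F.coeff i) = F.coeff i := by
    intro i τ hτ
    rw [hF]
    apply TrZ_perm (od N) p x hinj τ
    intro a ha
    obtain ⟨c, hc, hcζ⟩ := TrZ_exp hN hζ τ⁻¹
    obtain ⟨a', ha', haa⟩ := hP5 c hc a ha
    -- `τ (ζ ^ a') = ζ ^ (± a)`
    have e1 : τ (ζ ^ (c * a)) = ζ ^ a := by
      rw [pow_mul, ← hcζ, ← map_pow]
      exact τ.apply_symm_apply _
    have e2 : τ (ζ ^ a') = ζ ^ a ∨ τ (ζ ^ a') = (ζ ^ a)⁻¹ := by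
      rcases haa with h3 | h3
      · left
        rw [← h3, e1]
      · right
        rw [h3, map_inv₀] at e1
        rw [← e1, inv_inv]
    refine ⟨a', ha', ?_, ?_⟩
    · rw [hp]
      show τ (ζ ^ a' + (ζ ^ a')⁻¹ - 2) = ζ ^ a + (ζ ^ a)⁻¹ - 2
      rw [map_sub, map_add, map_inv₀, map_ofNat]
      rcases e2 with h3 | h3
      · rw [h3]
      · rw [h3, inv_inv, add_comm]
    · rw [hx]
      show τ (s a' z) = s a z
      have hρ : (s a)⁻¹ * (τ * s a') ∈ P.inertia Gal(Om/ℚ) :=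
        mul_mem (inv_mem (hs a ha).1) (mul_mem hτ (hs a' ha').1)
      have e3 : ((s a)⁻¹ * (τ * s a')) ζ = (s a)⁻¹ (τ (ζ ^ a')) := by
        rw [← (hs a' ha').2]
        rfl
      have e4 : (s a)⁻¹ (ζ ^ a) = ζ := by
        rw [← (hs a ha).2]
        exact (s a).symm_apply_apply ζ
      have e5 : ((s a)⁻¹ * (τ * s a')) ζ = ζ ∨ ((s a)⁻¹ * (τ * s a')) ζ = ζ⁻¹ := by
        rcases e2 with h3 | h3
        · left
          rw [e3, h3, e4]
        · right
          rw [e3, h3, map_inv₀, e4]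
      have e6 := hz _ hρ e5
      have e7 : (s a)⁻¹ (τ (s a' z)) = z := e6
      have e8 : s a ((s a)⁻¹ (τ (s a' z))) = s a z := by rw [e7]
      rw [← e8]
      exact ((s a).apply_symm_apply _).symm
  have hval : ∀ i, F.coeff i ≠ 0 → ∃ j : ℤ, vP P (F.coeff i) = j := fun i hi =>
    hK0 P 3 hPp Nat.prime_three h2 _ (hfix i) hi
  have hsum : ∑ i ∈ Finset.range (od N).card, F.coeff i * p 1 ^ i = z := by
    rw [← Polynomial.eval_eq_sum_range' hFnat, hev 1 h1od]
    refine hz _ (hs 1 h1od).1 (Or.inl ?_)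
    rw [(hs 1 h1od).2, pow_one]
  -- the valuations of the coefficients
  have hcv : ∀ j < (od N).card, F.coeff j ≠ 0 →
      ∃ i : ℤ, vP P (F.coeff j) = i ∧ (1 : ℚ) / 2 ≤ i + (j : ℚ) / (od N).card := by
    intro j hj h0
    rcases TrZ_val h2 hn hp10 hpv (fun i => F.coeff i) hval _ le_rfl with h | ⟨h1, -, h5⟩
    · exact absurd (h j hj) h0
    · have h3 := h5 j hj h0
      rw [hsum] at h1 h3
      obtain ⟨i, hi⟩ := hval j h0
      refine ⟨i, hi, ?_⟩
      rcases hzP with h6 | h6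
      · exact absurd h6 h1
      · have h7 : vP P (F.coeff j) = i := hi
        have h8 := h6.trans h3
        rw [← h7]
        exact h8
  have hn0 : (0 : ℚ) < (od N).card := by exact_mod_cast hn
  have hcV : ∀ j < (od N).card, VP P (F.coeff j) := by
    intro j hj
    by_cases h0 : F.coeff j = 0
    · rw [h0]
      exact DI.VP.zero
    · obtain ⟨i, hi, h3⟩ := hcv j hj h0
      have h6 : (j : ℚ) / (od N).card < 1 := by
        rw [div_lt_one hn0]
        exact_mod_cast hj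
      have h7 : (-1 : ℚ) < i := by linarith
      have h8 : (-1 : ℤ) < i := by exact_mod_cast h7
      have h9 : (0 : ℤ) ≤ i := by omega
      rw [← vP_nonneg h2 h0]
      rw [hi]
      exact_mod_cast h9
  have hc1 : ∀ j < (od N).card, 2 * j < (od N).card → GE P 1 (F.coeff j) := by
    intro j hj h2j
    by_cases h0 : F.coeff j = 0
    · exact Or.inl h0
    · right
      obtain ⟨i, hi, h3⟩ := hcv j hj h0
      have h6 : (j : ℚ) / (od N).card < 1 / 2 := by
        rw [div_lt_div_iff₀ hn0 (by norm_num)]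
        have : ((2 * j : ℕ) : ℚ) < (od N).card := by exact_mod_cast h2j
        push_cast at this
        linarith
      have h7 : (0 : ℚ) < i := by linarith
      have h8 : (0 : ℤ) < i := by exact_mod_cast h7
      have h9 : (1 : ℤ) ≤ i := h8
      change (1 : ℚ) ≤ vP P (F.coeff j)
      rw [hi]
      exact_mod_cast h9
  -- the sum
  have hS : ∑ a ∈ od N, s a z = ∑ j ∈ Finset.range (od N).card,
      F.coeff j * ((-1) ^ j * 3 ^ (N - 1) * (Nat.choose (2 * j) j : Om)) := by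
    rw [← Finset.sum_congr rfl hev]
    have e : ∀ a ∈ od N, F.eval (p a) = ∑ j ∈ Finset.range (od N).card, F.coeff j * p a ^ j :=
      fun a _ => Polynomial.eval_eq_sum_range' hFnat _
    rw [Finset.sum_congr rfl e, Finset.sum_comm]
    refine Finset.sum_congr rfl fun j hj => ?_
    rw [← Finset.mul_sum]
    congr 1
    rw [hp]
    refine hP1 j ?_
    rw [← hP3]
    exact Finset.mem_range.1 hj
  rw [hS]
  refine DL.GE.sum h2 _ _ fun j hj => ?_
  rw [Finset.mem_range] at hj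
  have hpw : ∀ n : ℕ, GE P (n : ℚ) ((3 : Om) ^ n) := fun n => Or.inr (by
    have h3 := DL.vl_two_pow h2 n
    rw [Nat.cast_ofNat] at h3
    exact h3.ge)
  have hsg : VP P ((-1 : Om) ^ j) := ((DI.VP.one (P := P)).neg.pow j)
  by_cases h2j : 2 * j < (od N).card
  · have e : F.coeff j * ((-1) ^ j * 3 ^ (N - 1) * (Nat.choose (2 * j) j : Om)) =
        (((-1) ^ j * (Nat.choose (2 * j) j : Om)) * F.coeff j) * 3 ^ (N - 1) := by ring
    rw [e]
    have h3 := DL.GE.mul h2 (DL.GE.mul_left h2 (hsg.mul (DI.VP.nat (Nat.choose (2 * j) j)))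
      (hc1 j hj h2j)) (hpw (N - 1))
    have e2 : (1 : ℚ) + ((N - 1 : ℕ) : ℚ) = (N : ℚ) := by
      push_cast [hN]
      ring
    rwa [e2] at h3
  · obtain ⟨b, hb⟩ := hP2 j (by rw [← hP3]; exact hj) (by rw [← hP3]; omega)
    have e : F.coeff j * ((-1) ^ j * 3 ^ (N - 1) * (Nat.choose (2 * j) j : Om)) =
        (F.coeff j * ((-1) ^ j * (b : Om))) * 3 ^ N := by
      rw [hb]
      have e1 : (3 : Om) ^ N = 3 * 3 ^ (N - 1) := by
        rw [← pow_succ']
        congr 1
        omega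
      rw [e1]
      push_cast
      ring
    rw [e]
    exact DL.GE.mul_left (q := (N : ℚ)) h2 ((hcV j hj).mul (hsg.mul (DI.VP.nat b))) (hpw N)

end Pool.Agent.DM.GL
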