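import Pool.Agent.Lib.DM.GL.Spec

/-!
# Theorem DM (`p = 3` inert), part GL, module Tra: the trace over `H'` (Euler)
-/

set_option autoImplicit false

open scoped Pointwise

noncomputable section

namespace Pool.Agent.DM.GL

open Pool.Agent.MuZ Pool.Agent.FW Pool.Agent.DN Pool.Agent.DM
open Pool.Agent.DI (io ofC io_inj exists_io io_ofC ofC_io VP MP UP TP ex)
open Pool.Agent.DT (kap cbr)

variable {n t : ℕ}

private theorem hq_mul {f N : ℕ} {h h' : OO n t} (a : Hq f N h) (b : Hq f N h') : Hq f N (h * h') := by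
  obtain ⟨a1, a2, a3⟩ := a
  obtain ⟨b1, b2, b3⟩ := b
  have e : h * h' - 1 = h * (h' - 1) + (h - 1) := by ring
  refine ⟨?_, ?_, ?_⟩
  · rw [e]
    exact dvd_add (b1.mul_left _) a1
  · rw [e]
    exact dvd_add (b2.mul_left _) a2
  · rw [Nm_mul]
    have e' : Nm h * Nm h' - 1 = Nm h * (Nm h' - 1) + (Nm h - 1) := by ring
    rw [e']
    exact dvd_add (b3.mul_left _) a3

private theorem hq_one (f N : ℕ) : Hq f N (1 : OO n t) := by
  refine ⟨?_, ?_, ?_⟩
  · rw [sub_self]; exact dvd_zero _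
  · rw [sub_self]; exact dvd_zero _
  · rw [Nm_one, sub_self]; exact dvd_zero _

private theorem hq_cancel {f N : ℕ} {h a b : OO n t} (hh : Hq f N h)
    (hd : ((3 ^ N : ℕ) : OO n t) ∣ h * a - h * b) : ((3 ^ N : ℕ) : OO n t) ∣ a - b := by
  obtain ⟨c, hc⟩ := hh.2.2
  have e1 : cjO h * (h * a - h * b) = (Nm h : OO n t) * (a - b) := by
    rw [← mul_cjO]
    ring
  have e2 : ((Nm h : ℤ) : OO n t) = 1 + ((3 ^ N : ℕ) : OO n t) * (c : OO n t) := by
    have h3 : Nm h = 1 + 3 ^ N * c := by linarith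
    rw [h3]
    push_cast
    ring
  have e3 : a - b = cjO h * (h * a - h * b) - ((3 ^ N : ℕ) : OO n t) * ((c : OO n t) * (a - b)) := by
    rw [e1, e2]
    ring
  rw [e3]
  exact dvd_sub (hd.mul_left _) (dvd_mul_right _ _)

/-- The systems for `Hq f' N` are systems for `Hq f N`. -/
private theorem hq_change {f f' N : ℕ} {T : Finset (OO n t)} (hN : 2 ≤ N) (ho : f'.Coprime 3) (hd : f ∣ f')
    (hT : IsR N (Hq f' N) T) : IsR N (Hq f N) T := by
  have hff : (f : OO n t) ∣ (f' : OO n t) := by exact_mod_cast (Nat.cast_dvd_cast hd : (f : OO n t) ∣ f')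
  refine ⟨fun h hh => ?_, fun v hv => ?_, hT.uni⟩
  · obtain ⟨a1, a2, a3⟩ := hT.mem h hh
    exact ⟨hff.trans a1, a2, a3⟩
  · obtain ⟨a1, a2, a3⟩ := hv
    have hcop : IsCoprime ((3 ^ N : ℕ) : ℤ) (f' : ℤ) :=
      Nat.isCoprime_iff_coprime.2 (Nat.Coprime.pow_left _ ho.symm)
    obtain ⟨a, b, hab⟩ := hcop
    have hab' : (a : OO n t) * ((3 ^ N : ℕ) : OO n t) + (b : OO n t) * (f' : OO n t) = 1 := by
      have := congrArg (fun z : ℤ => (z : OO n t)) hab
      push_cast at this ⊢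
      exact this
    set v' : OO n t := v + ((3 ^ N : ℕ) : OO n t) * ((a : OO n t) * (1 - v)) with hv'
    have hvv : ((3 ^ N : ℕ) : OO n t) ∣ v' - v := ⟨(a : OO n t) * (1 - v), by rw [hv']; ring⟩
    have h4 : (9 : OO n t) ∣ ((3 ^ N : ℕ) : OO n t) := by
      obtain ⟨m, rfl⟩ := Nat.exists_eq_add_of_le hN
      exact ⟨3 ^ m, by push_cast; ring⟩
    have hq : Hq f' N v' := by
      refine ⟨⟨(b : OO n t) * (v - 1), ?_⟩, ?_, ?_⟩
      · have e : v' - 1 = (v - 1) * (1 - (a : OO n t) * ((3 ^ N : ℕ) : OO n t)) := by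
          rw [hv']
          ring
        rw [e, ← hab']
        ring
      · have e : v' - 1 = (v' - v) + (v - 1) := by ring
        rw [e]
        exact dvd_add (h4.trans hvv) a2
      · have h5 := Nm_congr hvv
        push_cast at h5
        have e : Nm v' - 1 = (Nm v' - Nm v) + (Nm v - 1) := by ring
        rw [e]
        exact dvd_add h5 a3
    obtain ⟨h, hh, hd'⟩ := hT.ex v' hq
    refine ⟨h, hh, ?_⟩
    have e : v - h = (v' - h) - (v' - v) := by ring
    rw [e]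
    exact dvd_sub hd' hvv

private theorem dl_map (σ : Gal(Om/ℚ)) (A : Finset Om) (hA : ∀ r ∈ A, σ r ∈ A) (a : Om) :
    σ (DL.dl A a) = DL.dl A (σ a) := by
  classical
  unfold DL.dl
  rw [map_prod]
  have h1 : A.image σ = A := by
    refine Finset.eq_of_subset_of_card_le (Finset.image_subset_iff.2 hA) ?_
    rw [Finset.card_image_of_injective _ σ.injective]
  have h2 : (A.erase a).image σ = A.erase (σ a) := by
    rw [Finset.image_erase σ.injective, h1]
  rw [← h2, Finset.prod_image fun x _ y _ h => σ.injective h]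
  simp only [map_sub]

/-- The level of an element which is not divisible by `3 ^ N`. -/
private theorem lev {N : ℕ} {v : OO n t} (h : ¬ ((3 ^ N : ℕ) : OO n t) ∣ v) :
    ∃ j < N, ((3 ^ j : ℕ) : OO n t) ∣ v ∧ ¬ ((3 ^ (j + 1) : ℕ) : OO n t) ∣ v := by
  induction N with
  | zero => exact absurd (by rw [pow_zero, Nat.cast_one]; exact one_dvd _) h
  | succ N ih =>
    by_cases h1 : ((3 ^ N : ℕ) : OO n t) ∣ v
    · exact ⟨N, Nat.lt_succ_self N, h1, h⟩
    · obtain ⟨j, hj, h2⟩ := ih h1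
      exact ⟨j, hj.trans (Nat.lt_succ_self N), h2⟩

theorem tTra : S_Tra := by
  classical
  intro pol cn mono inn act rep pi sum zn gen n t _ P hP f N z0 d hPt hN f' ho hff x hx hxV T s hT hs
  have hPp : P.IsPrime := hP.1.1
  have h2 : DL.Pl P 3 := pl hP
  have hT' : IsR N (Hq f N) T := hq_change (by omega) ho.cop hff hT
  obtain ⟨p1, -, p3, p4, p5⟩ := pi n t P hP f N z0 d hPt
  obtain ⟨-, g2, -, g4⟩ := gen n t P hP f N z0 d hPt
  have hcop : ∀ h ∈ T, Cop h 3 := fun h hh => (hs h hh).cop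
  set π : OO n t → Om := pH z0 d with hπ
  obtain ⟨h1, hh1, hd1⟩ := hT.ex 1 (hq_one f' N)
  -- the representatives of the products
  have hρ : ∀ h ∈ T, ∀ g ∈ T, ∃ r ∈ T, ((3 ^ N : ℕ) : OO n t) ∣ h * g - r := fun h hh g hg =>
    hT.ex _ (hq_mul (hT.mem h hh) (hT.mem g hg))
  choose! ρ hρT hρd using hρ
  -- the images of the conjugates
  have hsπ : ∀ h ∈ T, ∀ g ∈ T, s h (π g) = π (ρ h g) := by
    intro h hh g hg
    rw [hπ, p5 f' h (s h) ho hff (hs h hh) g]
    exact p3 _ _ (hρd h hh g hg)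
  have hρ1 : ∀ h ∈ T, ρ h h1 = h := by
    intro h hh
    refine hT.uni _ (hρT h hh h1 hh1) _ hh ?_
    have e : ρ h h1 - h = -(h * h1 - ρ h h1) - h * (1 - h1) := by ring
    rw [e]
    exact dvd_sub ((hρd h hh h1 hh1).neg_right) (hd1.mul_left _)
  have hπ1 : π 1 = π h1 := p3 _ _ hd1
  have hinj : Set.InjOn π (T : Set (OO n t)) := by
    intro a ha b hb hab
    refine hT.uni a ha b hb (by_contra fun hne => ?_)
    obtain ⟨j, hj, h3, h4⟩ := lev hne
    exact (p4 a b j (hcop a ha) (hcop b hb) hj h3 h4).1 (by rw [hab, sub_self])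
  -- the product
  set S' : Finset Om := T.image π with hS'
  set δ : OO n t → Om := fun h => DL.dl S' (π h) with hδ
  have hsum := (sum n t P hP f N z0 d hPt).1 hN T hT'
  have hδ0 : ∀ h ∈ T, δ h ≠ 0 := fun h hh => (hsum h hh).1
  have hsδ : ∀ h ∈ T, s h (δ h1) = δ h := by
    intro h hh
    have h3 : ∀ r ∈ S', s h r ∈ S' := by
      intro r hr
      obtain ⟨g, hg, rfl⟩ := Finset.mem_image.1 hr
      rw [hsπ h hh g hg]
      exact Finset.mem_image_of_mem _ (hρT h hh g hg)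
    rw [hδ]
    simp only
    rw [dl_map _ _ h3, hsπ h hh h1 hh1, hρ1 h hh]
  -- the root of unity
  obtain ⟨ζ, hζ⟩ := HasEnoughRootsOfUnity.exists_primitiveRoot Om (3 ^ N)
  obtain ⟨hl0, hlv⟩ := zn P hPp hP.2 N ζ (by omega) hζ
  set c : ℚ := 2 * 3 ^ (N - 1) with hc
  have hc0 : 0 < c := by positivity
  have hcN : (3 : ℚ) ^ N = 3 / 2 * c := by
    have e : (3 : ℚ) ^ N = 3 * 3 ^ (N - 1) := by
      rw [← pow_succ']
      congr 1
      omega
    rw [hc, e]
    ring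
  have hc4 : 18 ≤ c := by
    have h3 : (9 : ℚ) ≤ 3 ^ (N - 1) := by
      calc (9 : ℚ) = 3 ^ 2 := by norm_num
        _ ≤ 3 ^ (N - 1) := pow_le_pow_right₀ (by norm_num) (by omega)
    rw [hc]
    linarith
  have hsl : ∀ h ∈ T, s h (1 - ζ) = 1 - ζ := by
    intro h hh
    have h3 := (act n t P hP f' N h (s h) ho (by omega) (hs h hh)).1 ζ hζ.pow_eq_one
    obtain ⟨-, -, b, hb⟩ := hT.mem h hh
    have hnn : 0 ≤ Nm h := Nm_nonneg h
    have h4 : 1 ≤ Nm h := by
      by_contra hlt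
      have h5 : Nm h = 0 := by omega
      have h6 : (3 : ℤ) ^ N ∣ 0 - 1 := h5 ▸ (hT.mem h hh).2.2
      have h7 : (3 : ℤ) ∣ 0 - 1 := (dvd_pow_self 3 (by omega)).trans h6
      omega
    have h8 : 0 ≤ b := by
      by_contra hlt
      have h9 : (3 : ℤ) ^ N * b < 0 := mul_neg_of_pos_of_neg (by positivity) (by omega)
      omega
    obtain ⟨b', rfl⟩ := Int.eq_ofNat_of_zero_le h8
    have h9 : (Nm h).toNat = 1 + 3 ^ N * b' := by
      have h10 : Nm h = ((1 + 3 ^ N * b' : ℕ) : ℤ) := by push_cast; linarith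
      rw [h10]
      exact Int.toNat_natCast _
    rw [map_sub, map_one, h3, h9, pow_add, pow_mul, hζ.pow_eq_one, one_pow, mul_one, pow_one]
  -- the exponent
  set σ : ℚ := vP P (δ h1) with hσ
  have hσ1 : 3 / 8 - 4 / 3 ^ N ≤ σ := (hsum h1 hh1).2
  have hσ0 : 0 ≤ σ := by
    refine le_trans ?_ hσ1
    rw [hcN, sub_nonneg, div_le_div_iff₀ (by positivity) (by norm_num)]
    linarith
  set m : ℕ := ⌊σ * c⌋₊ with hm
  have hm1 : (m : ℚ) ≤ σ * c := Nat.floor_le (by positivity)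
  have hm2 : σ * c < m + 1 := Nat.lt_floor_add_one _
  have hlm0 : (1 - ζ) ^ m ≠ 0 := pow_ne_zero _ hl0
  have hlv' : DL.vl P 3 (1 - ζ) = 1 / c := hlv
  have hlm : DL.vl P 3 ((1 - ζ) ^ m) = m / c := by
    rw [DL.vl_pow h2 hl0, hlv', mul_one_div]
  have hgoal : 3 / 8 - 6 / 3 ^ N ≤ DL.vl P 3 ((1 - ζ) ^ m) := by
    rw [hlm, hcN]
    rw [hcN] at hσ1
    have h3 : σ - 1 / c < m / c := by
      rw [sub_lt_iff_lt_add, ← add_div, lt_div_iff₀ hc0]
      exact hm2
    have h4 : 6 / (3 / 2 * c) = 4 / (3 / 2 * c) + 1 / c + 1 / (3 * c) := by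
      field_simp
      norm_num
    have h5 : 0 < 1 / (3 * c) := by positivity
    linarith
  by_cases hx0 : x = 0
  · rw [hx0]
    simp only [map_zero, Finset.sum_const_zero]
    exact DL.GE.zero _
  -- the number y
  set y : Om := x * δ h1 / (1 - ζ) ^ m with hy
  have hyV : VP P y := by
    rw [← DL.vl_nonneg h2 (div_ne_zero (mul_ne_zero hx0 (hδ0 h1 hh1)) hlm0),
      DL.vl_div h2 (mul_ne_zero hx0 (hδ0 h1 hh1)) hlm0, DL.vl_mul h2 hx0 (hδ0 h1 hh1)]
    have h3 : (m : ℚ) / c ≤ σ := by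
      rw [div_le_iff₀ hc0]
      exact hm1
    have h4 := (DL.vl_nonneg h2 hx0).2 hxV
    have h6 : DL.vl P 3 (δ h1) = σ := rfl
    rw [hlm, h6]
    linarith
  have hyF : DL.Fp (P.inertia Gal(Om/ℚ)) (pH z0 d (1 : OO n t)) y := by
    refine (g4 f' ho hff).2 y fun τ hτ => ?_
    have h3 : ∀ r ∈ S', τ r = r := by
      intro r hr
      obtain ⟨g, hg, rfl⟩ := Finset.mem_image.1 hr
      rw [hπ, p5 f' 1 τ ho hff hτ g, one_mul]
    have h4 : τ (δ h1) = δ h1 := by
      rw [hδ]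
      simp only
      rw [dl_map _ _ fun r hr => by rw [h3 r hr]; exact hr]
      rw [h3 _ (Finset.mem_image_of_mem _ hh1)]
    have h5 : τ (1 - ζ) = 1 - ζ := by
      have h6 := (act n t P hP f' N 1 τ ho (by omega) hτ).1 ζ hζ.pow_eq_one
      rw [Nm_one] at h6
      rw [map_sub, map_one, h6]
      simp
    rw [hy, map_div₀, map_mul, map_pow, hx τ hτ, h4, h5]
  obtain ⟨F, hF, hFy⟩ := mono P 3 1 _ _ _ g2 y hyF hyV
  have hπV : ∀ h ∈ T, VP P (π h) := by
    intro h hh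
    obtain ⟨q1, q2, -⟩ := p1 h (hcop h hh)
    rw [← DL.vl_nonneg h2 q1]
    have q3 : DL.vl P 3 (pH z0 d h) = 1 / (8 * 9 ^ (N - 1)) := q2
    rw [q3]
    positivity
  have hsy : ∀ h ∈ T, s h y = F.eval (π h) := by
    intro h hh
    have h3 := (cn P (P.inertia Gal(Om/ℚ)) hPp fun _ h => h).2.2.2.2.2.2.2.2.1 F hF (π h1) (s h) (hs h hh).ine
    rw [← hFy]
    change s h (F.eval (π 1)) = _
    rw [hπ1, h3, hsπ h hh h1 hh1, hρ1 h hh]
  have hsx : ∀ h ∈ T, s h x = (1 - ζ) ^ m * (F.eval (π h) / δ h) := by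
    intro h hh
    have e : x = y * (1 - ζ) ^ m / δ h1 := by
      rw [hy, div_mul_cancel₀ _ hlm0, mul_div_cancel_right₀ _ (hδ0 h1 hh1)]
    rw [← hsy h hh, ← hsδ h hh]
    conv_lhs => rw [e]
    rw [map_div₀, map_mul, map_pow, hsl h hh]
    ring
  have hpol := (pol P hPp S' F (by
    intro r hr
    obtain ⟨h, hh, rfl⟩ := Finset.mem_image.1 hr
    exact hπV h hh) fun i => (hF i).1).2.1
  have hEq : ∑ a ∈ S', F.eval a / DL.dl S' a = ∑ h ∈ T, F.eval (π h) / δ h := by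
    rw [hS', Finset.sum_image hinj]
  rw [hEq] at hpol
  rw [Finset.sum_congr rfl hsx, ← Finset.mul_sum]
  exact (DL.GE.mul_right h2 (Or.inr le_rfl) hpol).mono hgoal

end Pool.Agent.DM.GL
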