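import Pool.Agent.Lib.DM.GL.SpecB

/-!
# Theorem DM, part GL, module `Un4`: the logarithmic derivative of the elliptic unit (helper2)
-/

set_option autoImplicit false

open scoped Pointwise

noncomputable section

namespace Pool.Agent.DM.GL

open Pool.Agent.MuZ Pool.Agent.FW Pool.Agent.DN Pool.Agent.DM
open Pool.Agent.DI (io ofC io_inj exists_io io_ofC ofC_io VP MP UP TP ex)
open Pool.Agent.DT (kap cbr)
open Pool.Agent.DI.GL (Fx StP mem_of_Fx Fx.mul Fx.inv Fx.one)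

variable {n t : ℕ}

private theorem un4_pri [SqN n t] {f M : ℕ} {a : Ideal (OO n t)} (h : PrI a f) (hd : M ∣ f) :
    PrI a M := by
  obtain ⟨g, rfl⟩ := hd
  exact (((aO6 n t).2.1 M g a).1 h).1

private theorem un4_ne [Ine3 n t] {h : OO n t} (hh : Cop h 3) : h ≠ 0 := by
  rintro rfl
  rw [cop3_iff] at hh
  exact hh (dvd_zero _)

theorem tUn4 : S_Un4 := by
  intro ldr pi gen fix mnf tht n t _ P hP f N m T hm hN hT hM z0 d hPt hzd hz0 c hc hc2
  have hPp : P.IsPrime := hP.1.1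
  have hf0 : 0 < f := hm.pos
  have h30 : 30 ∣ 3 * f := by
    obtain ⟨e, he⟩ := hm.dvd
    exact ⟨2 * e, by omega⟩
  have hcf : PrI c f := un4_pri hc2 (Dvd.intro_left _ rfl)
  have hG : G30 c := ⟨hc, un4_pri hc2 h30⟩
  have hm30 : PrI m 30 := un4_pri hm.prm h30
  have hmf : PrI m f := un4_pri hm.prm (Dvd.intro_left _ rfl)
  -- the rules
  obtain ⟨-, hGen, hdl, -⟩ := gen n t P hP f N z0 d hPt
  have hW : VP P (vO (⊤ : Ideal (OO n t)) (z0 + d)) := by
    have h1 := ((pi n t P hP f N z0 d hPt).1 1 (cop_one 3)).2.2.2.2.2.2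
    rw [toC_one, one_mul] at h1
    exact h1.1
  have hq : (2 : ℚ) ≤ DL.vl P 3 (DL.dl (orb n t N z0 d) (pH z0 d (1 : OO n t))) := by
    have h1 : DL.vl P 3 (DL.dl (orb n t N z0 d) (pH z0 d (1 : OO n t))) = N - 1 / 8 := hdl
    rw [h1]
    have h2 : (3 : ℚ) ≤ N := by exact_mod_cast hN
    linarith
  obtain ⟨-, -, -, -, hprod, -, -⟩ := ldr P 3 1 (P.inertia Gal(Om/ℚ)) (orb n t N z0 d)
    (pH z0 d (1 : OO n t)) hGen 2 (vO (⊤ : Ideal (OO n t)) (z0 + d)) (by norm_num) hq hW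
  have hLD : LD n t P z0 d (uN f N m T c) (SN f N m T c) := by
    have h1 : ∀ h ∈ T, LD n t P z0 d (Theta m c (toC h / (f * 3 ^ N : ℕ)))
        (-(toO h * rO (⊤ : Ideal (OO n t)) c * gO m c (toC h / (f * 3 ^ N : ℕ)))) := by
      intro h hh
      have hH : Cop h (3 * f) := (hT h hh).1.1
      have hh3 : Cop h 3 := cop_dvd hH (Dvd.intro _ rfl)
      have hhf : Cop h f := cop_dvd hH (Dvd.intro_left _ rfl)
      have hh30 : Cop h 30 := cop_dvd hH h30
      have hne := un4_ne hh3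
      have hsp : sp h ≠ ⊥ := fun h3 => hne (Ideal.span_singleton_eq_bot.1 h3)
      have ha : m * (sp h * c) ≠ ⊥ := mul_ne_zero hm.ne (mul_ne_zero hsp hc)
      have hpa : PrI (m * (sp h * c)) f := by
        rw [(aO6 n t).1, (aO6 n t).1]
        exact ⟨hmf, ((aO6 n t).2.2.2.1 f h hf0).2 hhf, hcf⟩
      have h3 := tht n t P hP f N z0 d hPt hN m c h hm.ne hm30 hG hh30 (hz0 _ ha hpa)
      rwa [hzd, mul_one_div] at h3
    have h3 := hprod (OO n t) T _ _ h1
    have e : SN f N m T c = ∑ h ∈ T,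
        -(toO h * rO (⊤ : Ideal (OO n t)) c * gO m c (toC h / (f * 3 ^ N : ℕ))) := by
      unfold SN
      rw [Finset.mul_sum, ← Finset.sum_neg_distrib]
      refine Finset.sum_congr rfl fun h _ => ?_
      ring
    rw [e]
    exact h3
  refine ⟨hLD, ?_⟩
  have hu := hM c hc hc2
  have h4 := fix n t P hP f N z0 d hPt hN f hm.toFok (dvd_refl f) _ _ hLD.2.2.2 (fun h τ h5 h6 =>
    mnf n t P hP f f N h τ hm.toFok (by omega) hm.toFok (dvd_refl f) h5 (Or.inl h6) _ hu)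
  have h5 := DL.GE.mul_left (pl hP) (DI.UP.inv hLD.1).1 h4
  rwa [inv_mul_cancel_left₀ (DI.UP.ne_zero hLD.1)] at h5

end Pool.Agent.DM.GL
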