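import Pool.Agent.Lib.DM.GL.Spec
import Pool.Agent.Lib.DT.GL.X0

/-!
# Theorem DM, part GL, module Zn: the valuation of `1 - ζ`
-/

set_option autoImplicit false

open scoped Pointwise

noncomputable section

namespace Pool.Agent.DM.GL

open Pool.Agent.MuZ Pool.Agent.FW Pool.Agent.DN Pool.Agent.DM
open Pool.Agent.DI (io ofC io_inj exists_io io_ofC ofC_io VP MP UP TP ex)
open Pool.Agent.DT (kap cbr)

theorem tZn : S_Zn := by
  intro P hP h3 N ζ hN hζ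
  have := hP
  have h2 : DL.Pl P 3 := ⟨by norm_num, by rw [Nat.cast_ofNat]; exact h3⟩
  obtain ⟨h1, -, -, -, h5⟩ := DT.GL.tX0 P hP h3 N hN ζ hζ
  refine ⟨h1, ?_⟩
  have hz3 : UP P (DT.zet 3) := by
    have hc := DT.GL.zet3_cube
    have h0 : DT.zet 3 ≠ 0 := fun h => by
      rw [h] at hc
      norm_num at hc
    refine DI.UP.iff.2 ⟨h0, DT.GL.zet3_vp, ?_⟩
    have e : (DT.zet 3)⁻¹ = DT.zet 3 ^ 2 := by
      field_simp
      rw [hc]
    rw [e]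
    exact DI.VP.pow DT.GL.zet3_vp 2
  have hU : UP P ((1 - ζ) ^ (2 * 3 ^ (N - 1)) / ((3 : ℕ) : Om) ^ (1 : ℤ)) := by
    have e : (1 - ζ) ^ (2 * 3 ^ (N - 1)) / ((3 : ℕ) : Om) ^ (1 : ℤ) =
        ((1 - ζ) ^ 3 ^ (N - 1) / DT.GL.lam) ^ 2 * -(DT.zet 3) := by
      have hl := DT.GL.lam_ne
      have hl2 := DT.GL.lam_sq
      have h30 : (3 : Om) ≠ 0 := by norm_num
      rw [zpow_one, Nat.cast_ofNat, div_pow, hl2, mul_comm 2, pow_mul]
      have hz0 : DT.zet 3 ≠ 0 := DI.UP.ne_zero hz3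
      field_simp
    rw [e]
    exact DI.UP.mul (DI.UP.pow h5 2) (DI.UP.neg hz3)
  have h6 := DL.vl_eq h2 (by positivity) hU
  change DL.vl P 3 (1 - ζ) = _
  rw [h6]
  push_cast
  ring

end Pool.Agent.DM.GL
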