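import Pool.Agent.Lib.DM.GL.SpecB

/-!
# Theorem DM, part GL, module `ZtD`: the logarithmic derivative of the roots of unity of order `3 ^ N`

See the docstring of `S_ZtD` (`DM/GL/SpecB.lean`).
-/

set_option autoImplicit false

open scoped Pointwise

noncomputable section

namespace Pool.Agent.DM.GL

open Pool.Agent.MuZ Pool.Agent.FW Pool.Agent.DN Pool.Agent.DM
open Pool.Agent.DI (io ofC io_inj exists_io io_ofC ofC_io VP MP UP TP ex)
open Pool.Agent.DT (kap cbr)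
open Pool.Agent.DI.GL (Fx StP mem_of_Fx Fx.mul Fx.inv Fx.one)

variable {n t : ℕ}

private theorem ZtD_top : G30 (⊤ : Ideal (OO n t)) := ⟨top_ne_bot, top_sup_eq _⟩

private theorem ZtD_cop30 {f' : ℕ} (hf' : Fok f') {h : OO n t} (h1 : (f' : OO n t) ∣ h - 1)
    (h3 : Cop h 3) : Cop h 30 := by
  have h10 : Cop h 10 := by
    have h4 : ((10 : ℕ) : OO n t) ∣ 1 - h := by
      have h5 : (10 : ℕ) ∣ f' := (by norm_num : (10 : ℕ) ∣ 20).trans hf'.dvd
      obtain ⟨k, hk⟩ := h5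
      obtain ⟨u, hu⟩ := h1
      refine ⟨-((k : OO n t) * u), ?_⟩
      have e : (1 : OO n t) - h = -(h - 1) := by ring
      rw [e, hu, hk]
      push_cast
      ring
    exact cop_congr h4 (cop_one 10)
  unfold Cop at *
  have e : ((30 : ℕ) : ℤ) = ((3 : ℕ) : ℤ) * ((10 : ℕ) : ℤ) := by norm_num
  rw [e]
  exact h3.mul_right h10

private theorem ZtD_lam [SqN n t] {f : ℕ} {h : OO n t} {z0 : ℂ} (h1 : (f : OO n t) ∣ h - 1)
    (hz : (f : ℂ) * z0 ∈ Lam (⊤ : Ideal (OO n t))) :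
    toC h * z0 - z0 ∈ Lam (⊤ : Ideal (OO n t)) := by
  obtain ⟨u, hu⟩ := h1
  have e1 : h = 1 + (f : OO n t) * u := by
    rw [← hu]
    ring
  have e : toC h * z0 - z0 = toC u * ((f : ℂ) * z0) := by
    rw [e1, toC_add, toC_one, toC_mul, toC_nat]
    ring
  rw [e]
  exact lam_mul u hz

theorem tZtD : S_ZtD := by
  intro hXOm hDer hCj hLDr hIn hAct hPi hGen hFixH hZt hOdq hTrh n t _ P hP f N z0 d hp hN ζ hζ
  have hPp : P.IsPrime := hP.1.1
  have hpl := pl hP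
  have hf := hp.fok
  have hg := ZtD_top (n := n) (t := t)
  have hX := hXOm n t ⊤ hg
  obtain ⟨-, hG, hdl, hGl⟩ := hGen n t P hP f N z0 d hp
  obtain ⟨hPi1, -, hPi2, -, hPi4⟩ := hPi n t P hP f N z0 d hp
  have hW : VP P (vO (⊤ : Ideal (OO n t)) (z0 + d)) := by
    have h3 := (hPi1 1 (cop_one 3)).2.2.2.2.2.2
    rw [toC_one, one_mul] at h3
    exact h3.1
  have hq0 : (0 : ℚ) ≤ 2 := by norm_num
  have hq2 : (2 : ℚ) ≤ DL.vl P 3 (DL.dl (orb n t N z0 d) (pH z0 d (1 : OO n t))) := by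
    refine le_trans ?_ (le_of_eq hdl.symm)
    have h3 : (3 : ℚ) ≤ N := by exact_mod_cast hN
    linarith
  obtain ⟨-, -, -, hD4, hD5, -, -, hD8, -, -, -⟩ := hDer P 3 1 _ _ _ hG 2 _ hq0 hq2 hW
  obtain ⟨-, -, -, hL4, -, hL6, hL7⟩ := hLDr P 3 1 _ _ _ hG 2 _ hq0 hq2 hW
  have hζ1 : ζ ^ 3 ^ N = 1 := hζ.pow_eq_one
  have h3N : 0 < 3 ^ N := by positivity
  have hU : UP P ζ := by
    have h1 : UP P (ζ ^ 3 ^ N) := by
      rw [hζ1]
      exact DI.UP.one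
    exact DI.UP.of_pow h3N h1
  have hFp : DL.Fp (P.inertia Gal(Om/ℚ)) (pH z0 d (1 : OO n t)) ζ := by
    refine (hGl f hf (dvd_refl f)).2 ζ fun τ hτ => ?_
    rw [(hAct n t P hP f N 1 τ hf hp.pos hτ).1 ζ hζ1, Nm_one]
    exact pow_one ζ
  obtain ⟨y, hy⟩ := hD8 ζ hFp hU.1
  have hth : LD n t P z0 d ζ (y / ζ) := hL6 ζ y hU hy
  refine ⟨y / ζ, hth, ?_, ?_⟩
  · have h1 : GE P (3 / 8 - 4 / 3 ^ N) y := by
      refine hFixH n t P hP f N z0 d hp hN f hf (dvd_refl f) ζ y hy fun h τ hτ hh => ?_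
      rw [(hAct n t P hP f N h τ hf hp.pos hτ).1 ζ hζ1]
      have h2 : (3 : ℤ) ^ N ∣ Nm h - 1 := hh.2.2
      have h3 : ((Nm h).toNat : ℤ) = Nm h := Int.toNat_of_nonneg (Nm_nonneg h)
      have h4 : (Nm h).toNat ≡ 1 [MOD 3 ^ N] := by
        rw [Nat.modEq_iff_dvd, h3]
        push_cast
        rw [dvd_sub_comm]
        exact h2
      have h5 : ζ ^ (Nm h).toNat = ζ ^ 1 := by
        rw [← Nat.mod_add_div (Nm h).toNat (3 ^ N), pow_add, pow_mul, hζ1, one_pow, mul_one]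
        have h6 : (Nm h).toNat % 3 ^ N = 1 % 3 ^ N := h4
        have h7 : 1 % 3 ^ N = 1 := Nat.mod_eq_of_lt (Nat.one_lt_pow (by omega) (by norm_num))
        rw [h6, h7]
      rw [h5, pow_one]
    rw [div_eq_mul_inv]
    exact DL.GE.mul_right hpl h1 (DI.UP.inv hU).1
  · intro f' h τ hf' hff' hτ
    have hfh : (f : OO n t) ∣ h - 1 := by
      obtain ⟨k, hk⟩ := hff'
      have h1 : (f : OO n t) ∣ (f' : OO n t) := ⟨(k : OO n t), by rw [hk]; push_cast; ring⟩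
      exact h1.trans hτ.one
    have hz0 : z0 ∉ Lam (⊤ : Ideal (OO n t)) := by
      intro h1
      apply hp.zn
      rw [two_mul]
      exact lam_add h1 h1
    have hdz := ZtD_lam hfh hp.z
    have hz0' : z0 ∉ Lam (sp h * (⊤ : Ideal (OO n t))) := by
      rw [lam_sp]
      intro h1
      exact hz0 ((lam_sub_iff hdz).1 h1)
    have hr : rO (⊤ : Ideal (OO n t)) ⊤ = 1 := by
      have h1 := hX.rr ⊤ ⊤ hg hg
      have h2 := hX.rne ⊤ hg
      exact mul_right_cancel₀ h2 (h1.trans (one_mul _).symm)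
    have hTr := hTrh n t P hP f N z0 d hp hN ⊤ h hg (ZtD_cop30 hf' hτ.one hτ.cop) hz0'
    rw [hr, mul_one] at hTr
    have hCn : Cn P (xO (⊤ : Ideal (OO n t)) z0) := by
      have h1 : (3 : ℂ) ^ N * 0 ∈ Lam (⊤ : Ideal (OO n t)) := by
        rw [mul_zero]
        exact lam_zero _
      exact (hOdq n t P hP ⊤ hg f N z0 0 hf hp.z hz0 h1).2.2.2.2.2.2.2.1
    have hpi : τ (pH z0 d (1 : OO n t)) =
        xO (⊤ : Ideal (OO n t)) (toC h * (z0 + d)) - xO (⊤ : Ideal (OO n t)) z0 := by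
      rw [hPi4 f' h τ hf' hff' hτ 1, mul_one]
      unfold pH
      rw [(hX.cng (z0 + toC h * d) (toC h * (z0 + d)) ?_).1]
      have e : z0 + toC h * d - toC h * (z0 + d) = -(toC h * z0 - z0) := by ring
      rw [e]
      exact lam_neg hdz
    have hzd : ((f' * 3 ^ N : ℕ) : ℂ) * (z0 + d) ∈ Lam (⊤ : Ideal (OO n t)) := by
      obtain ⟨k, hk⟩ := hff'
      have e : ((f' * 3 ^ N : ℕ) : ℂ) * (z0 + d) =
          toC ((k * 3 ^ N : ℕ) : OO n t) * ((f : ℂ) * z0) + toC ((f' : ℕ) : OO n t) * ((3 : ℂ) ^ N * d) := by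
        rw [toC_nat, toC_nat, hk]
        push_cast
        ring
      rw [e]
      exact lam_add (lam_mul _ hp.z) (lam_mul _ hp.dd)
    have hτW : τ (vO (⊤ : Ideal (OO n t)) (z0 + d)) = vO (⊤ : Ideal (OO n t)) (toC h * (z0 + d)) :=
      (((hAct n t P hP f' N h τ hf' hp.pos hτ).2 ⊤ hg).2.2.1 _ hzd).2
    have hDt : Der n t P z0 d (τ (pH z0 d (1 : OO n t)))
        (toO h * τ (vO (⊤ : Ideal (OO n t)) (z0 + d))) := by
      have h1 := (hD5 _ _ _ _ hTr (hD4 _ hCn)).2.1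
      rw [sub_zero, ← hpi, ← hτW] at h1
      exact h1
    have hVh : VP P (toO h) := ((hZt.2.2.2 n t P hP).2.2.1 h hτ.cop).1.1
    have hC := (hCj P 3 1 _ _ _ hG 2 _ (toO h) τ hq0 hq2 hW hVh hτ.ine
      (fun σ hσ => mul_mem (mul_mem (inv_mem hτ.ine) hσ) hτ.ine) hDt).2 ζ (y / ζ) hth
    have hj := hL4 ζ (y / ζ) (Nm h).toNat hth
    rw [(hAct n t P hP f' N h τ hf' hp.pos hτ).1 ζ hζ1] at hC
    have h1 := hL7 _ _ _ hC hj
    have h3 : (((Nm h).toNat : ℕ) : Om) = ((Nm h : ℤ) : Om) := by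
      have h4 : ((Nm h).toNat : ℤ) = Nm h := Int.toNat_of_nonneg (Nm_nonneg h)
      have h5 := congrArg (Int.cast : ℤ → Om) h4
      rw [Int.cast_natCast] at h5
      exact h5
    rw [h3] at h1
    exact h1

end Pool.Agent.DM.GL
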