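import Pool.Agent.Lib.DM.GL.SpecT

/-!
# Theorem DM, the local step, module `gT1`: the statement `S_T1`
-/

set_option autoImplicit false

open scoped Pointwise

noncomputable section

namespace Pool.Agent.DM.GL

open Pool.Agent.MuZ Pool.Agent.FW Pool.Agent.DN Pool.Agent.DM
open Pool.Agent.DI (io ofC io_inj exists_io io_ofC ofC_io VP MP UP TP ex)
open Pool.Agent.DT (kap cbr)

variable {n t : ℕ}

theorem tgT1 : S_gT1 := by
  intro inn sur tc n t _ P hP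
  refine ⟨(inn n t P hP).1, fun F0 N hF hN => ⟨fun σ hσ => ?_, fun α h1 h2 => ?_,
    fun σ hσ α h1 h2 h3 => tc n t P hP F0 N α σ hF hN ⟨hσ, h1, h2, h3⟩⟩⟩
  · obtain ⟨h, hh⟩ := ((inn n t P hP).2 F0 N hF hN).1 σ hσ
    exact ⟨h, hh.one, hh.cop, hh.psi⟩
  · obtain ⟨σ, hσ⟩ := sur n t P hP F0 N hF hN α h1 h2
    exact ⟨σ, hσ.ine, hσ.psi⟩

end Pool.Agent.DM.GL
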