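import Pool.Agent.Lib.DM.GL.SpecT

/-!
# Theorem DM, part GL, module gT2: statement `S_T2` of the interface (the trace over all classes)
-/

set_option autoImplicit false

open scoped Pointwise

noncomputable section

namespace Pool.Agent.DM.GL

open Pool.Agent.MuZ Pool.Agent.FW Pool.Agent.DN Pool.Agent.DM
open Pool.Agent.DI (io ofC io_inj exists_io io_ofC ofC_io VP MP UP TP ex)
open Pool.Agent.DT (kap cbr)

variable {n t : ℕ}

private theorem sp_one : sp (1 : OO n t) = (⊤ : Ideal (OO n t)) := Ideal.span_singleton_one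

private theorem nat_div_not [SqN n t] {M v : ℕ} (hv : 0 < v) (hM : v < M) :
    (v : ℂ) * (1 / M) ∉ Lam (⊤ : Ideal (OO n t)) := by
  intro h
  have h1 := (aL6.1 n t (⊤ : Ideal (OO n t)) M top_ne_bot (by omega) (by unfold PrI; rw [top_sup_eq])
    (v : OO n t)).1 (by rw [toC_nat, div_eq_mul_one_div]; exact h)
  rw [nat_dvd_iff] at h1
  obtain ⟨h2, -⟩ := h1
  rw [re_nat] at h2
  have h3 : M ∣ v := by exact_mod_cast h2
  have h4 := Nat.le_of_dvd hv h3
  omega

private theorem pt_one [SqN n t] {f N : ℕ} (hf : Fok f) (hN : 1 ≤ N) :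
    Pt n t f N (1 / f) (1 / (3 ^ N : ℕ)) where
  fok := hf
  pos := hN
  z := one_div_lam _ hf.pos
  zn := by
    have h1 := Nat.le_of_dvd hf.pos hf.dvd
    have h := nat_div_not (n := n) (t := t) (M := f) (v := 2) two_pos (by omega)
    rw [Nat.cast_ofNat] at h
    exact h
  dd := by
    have h := one_div_lam (⊤ : Ideal (OO n t)) (N := 3 ^ N) (by positivity)
    push_cast at h ⊢
    exact h
  dn := by
    have h := nat_div_not (n := n) (t := t) (M := 3) (v := 1) one_pos (by omega)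
    have e : (3 : ℂ) ^ (N - 1) * (1 / ((3 ^ N : ℕ) : ℂ)) = ((1 : ℕ) : ℂ) * (1 / ((3 : ℕ) : ℂ)) := by
      obtain ⟨j, rfl⟩ := Nat.exists_eq_add_of_le' hN
      rw [Nat.add_sub_cancel]
      push_cast
      rw [pow_succ]
      field_simp
    rw [e]
    exact h

private theorem dvd_both {f N : ℕ} (hf : f.Coprime 3) {v : OO n t} (h1 : (f : OO n t) ∣ v)
    (h2 : ((3 ^ N : ℕ) : OO n t) ∣ v) : ((f * 3 ^ N : ℕ) : OO n t) ∣ v := by
  rw [nat_dvd_iff] at *
  have h3 : IsCoprime (f : ℤ) ((3 ^ N : ℕ) : ℤ) := Nat.isCoprime_iff_coprime.2 (hf.pow_right N)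
  rw [Nat.cast_mul]
  exact ⟨h3.mul_dvd h1.1 h2.1, h3.mul_dvd h1.2 h2.2⟩

private theorem dvd_right' {f N : ℕ} {v : OO n t} (h : ((f * 3 ^ N : ℕ) : OO n t) ∣ v) :
    ((3 ^ N : ℕ) : OO n t) ∣ v := by
  rw [nat_dvd_iff] at *
  rw [Nat.cast_mul] at h
  exact ⟨(dvd_mul_left _ _).trans h.1, (dvd_mul_left _ _).trans h.2⟩

private theorem level {N : ℕ} {v : OO n t} (h : ¬ ((3 ^ N : ℕ) : OO n t) ∣ v) :
    ∃ j < N, ((3 ^ j : ℕ) : OO n t) ∣ v ∧ ¬ ((3 ^ (j + 1) : ℕ) : OO n t) ∣ v := by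
  induction N with
  | zero =>
    exfalso
    apply h
    rw [pow_zero, Nat.cast_one]
    exact one_dvd _
  | succ N ih =>
    by_cases h1 : ((3 ^ N : ℕ) : OO n t) ∣ v
    · exact ⟨N, Nat.lt_succ_self N, h1, h⟩
    · obtain ⟨j, hj, h2⟩ := ih h1
      exact ⟨j, by omega, h2⟩

/-- **gT2.** -/
theorem tgT2 : S_gT2 := by
  classical
  intro trH inn rep pi g zt n t _ P hP F0 N A s hF hN hA hs y hy hV
  have hPp : P.IsPrime := hP.1.1
  have h3 : DL.Pl P 3 := pl hP
  set z0 : ℂ := 1 / F0 with hz0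
  set d : ℂ := 1 / (3 ^ N : ℕ) with hd
  have hPt : Pt n t F0 N z0 d := pt_one hF hN
  obtain ⟨p1, -, p3, p4, p5⟩ := pi n t P hP F0 N z0 d hPt
  obtain ⟨g1, g2, g3, g4⟩ := g n t P hP F0 N z0 d hPt
  have g5 := (g4 F0 hF dvd_rfl).2
  set π : Om := pH z0 d (1 : OO n t) with hπ
  have hcl : ∀ α ∈ A, Cls P F0 N α (s α) := fun α hα =>
    ⟨(hs α hα).1, (hA.mem α hα).1, (hA.mem α hα).2, (hs α hα).2⟩
  have hsπ : ∀ α ∈ A, s α π = pH z0 d α := by
    intro α hα
    have h := p5 F0 α (s α) hF dvd_rfl (hcl α hα) 1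
    rwa [mul_one] at h
  have hy1 : DL.Fp (P.inertia Gal(Om/ℚ)) π y := by
    refine g5 y fun τ hτ => hy τ hτ.ine ?_
    have h := hτ.psi
    rwa [sp_one] at h
  have hl0 : ((3 : ℕ) : Om) ^ N ≠ 0 := pow_ne_zero _ h3.nz
  have hdl : DL.dl ({π} : Finset Om) π = 1 := by
    unfold DL.dl
    have e : ({π} : Finset Om).erase π = ∅ := by simp
    rw [e, Finset.prod_empty]
  obtain ⟨-, hw0, hw, -⟩ := zt
  have hyG : DL.GE P 3 (1 / 8) y := by
    have h4 : DL.GE P 3 0 (y / w8) := (DL.GE.vp_iff h3).2 hV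
    have h5 : DL.GE P 3 (1 / 8) w8 := Or.inr (hw P hP).1.ge
    have h6 := h4.mul h3 h5
    rwa [zero_add, div_mul_cancel₀ _ hw0] at h6
  have key := trH P 3 1 (P.inertia Gal(Om/ℚ)) (orb n t N z0 d) π g2 {π} y (((3 : ℕ) : Om) ^ N) (OO n t) A s
    (Finset.mem_singleton_self π) (Finset.singleton_subset_iff.2 g2.mem) hy1
    (by
      intro r hr
      rw [Finset.mem_singleton] at hr
      exact ⟨1, Subgroup.one_mem _, hr.symm, rfl, fun r' hr' => hr'⟩)
    (fun α hα => (hs α hα).1)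
    (by
      intro r hr
      obtain ⟨h, hh, rfl⟩ := (g1 r).1 hr
      obtain ⟨v, hv1, hv2⟩ := ((rep n t N hN).2.2 F0 hF.pos hF.cop).1 h
      have hv3 : Cop v 3 := by
        rw [cop3_iff] at hh ⊢
        intro h4
        apply hh
        have h5 : (3 : OO n t) ∣ v - h := by
          refine dvd_trans ?_ hv2
          obtain ⟨j, rfl⟩ := Nat.exists_eq_add_of_le' hN
          exact ⟨((3 ^ j : ℕ) : OO n t), by push_cast; ring⟩
        have e : h = v - (v - h) := by ring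
        rw [e]
        exact dvd_sub h4 h5
      obtain ⟨α, hα, hvα⟩ := hA.ex v hv1 hv3
      refine ⟨α, hα, π, Finset.mem_singleton_self π, ?_⟩
      rw [hsπ α hα]
      refine p3 α h ?_
      have h4 := dvd_right' hvα
      have e : α - h = (v - h) - (v - α) := by ring
      rw [e]
      exact dvd_sub hv2 h4)
    (by
      intro α hα α' hα' r hr r' hr' h
      rw [Finset.mem_singleton] at hr hr'
      rw [hr, hr', hsπ α hα, hsπ α' hα'] at h
      refine hA.uni α hα α' hα' (dvd_both hF.cop ?_ ?_)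
      · have e : α - α' = (α - 1) - (α' - 1) := by ring
        rw [e]
        exact dvd_sub (hA.mem α hα).1 (hA.mem α' hα').1
      · by_contra h4
        obtain ⟨j, hj, h5, h6⟩ := level h4
        exact (p4 α α' j (hA.mem α hα).2 (hA.mem α' hα').2 hj h5 h6).1 (by rw [h, sub_self]))
    hl0
    (by
      intro σ _
      rw [map_pow, map_natCast])
    (by
      have e : vP P (DL.dl (orb n t N z0 d) π) = N - 1 / 8 := g3
      rw [hdl, DL.vl_one h3, DL.vl_two_pow h3, add_zero]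
      refine hyG.mono ?_
      rw [show DL.vl P 3 (DL.dl (orb n t N z0 d) π) = N - 1 / 8 from e]
      linarith)
  have h7 := (DL.GE.tp_iff h3 hl0).1 key
  rwa [Nat.cast_ofNat] at h7

end Pool.Agent.DM.GL
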