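import Pool.Agent.Lib.DM.GL.SpecT
import Pool.Agent.Lib.DT.GL.Spec

/-!
# Theorem DM (`p = 3`, `3` inert), part GL (author helper85), third file: the elliptic units and the local step

`z = z0 + d` as in `GL/Spec.lean` (`Pt n t f N z0 d`). `Der` is the derivation modulo `9` (`X(z) ↦ W(z)` for the curve `ℂ / O`), an instance of the abstract
`DL.Dr` (`DL/Spec.lean`). This file: the derivation on the numbers `X(z + u)`, `X_c(h z)`, `Theta(c, h z)`, on the roots of unity of order `3^N`, and on the elliptic units `uN f N m T c`; the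
result is `C_LSS` (last statement), the local step up to the sum `∑ χ(c) oN(c)^e (fr(c)/fr(1)) ∑ h g(c, h z_N)`. The new point (`p = 3`): the roots of unity of order `3^N` are in `L'_N`.

Tools: those of `GL/Spec.lean`, and the abstract theory, which is proved: `DL.asmDL` .. (a module gets `DL.C_Der`, ... as hypotheses). To use it: `have hG := (Gen ..).2.1 : DL.Gen P 3 1 (P.inertia ..) (orb n t N z0 d) (pH z0 d 1)` (`C_Gen`), `2 ≤ vP P (DL.dl ..) = N - 1/8` for `3 ≤ N`,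
`VP P (vO ⊤ (z0 + d))` (`C_Pi` with `h = 1`, `toC 1 * d = d`): the rules of `DL.C_Der`, `DL.C_LDr` with `q = 2`. `Fp` (the hypothesis of Der (8)) from the last item of `C_Gen` (fixed by the inertia elements of class `1`). `Cn P a`: `⟨VP, fixed by the inertia group⟩`; `C_Act`, `C_In` (1).

RULES: the statement `S_X` is to be proved as `theorem tX : S_X` in the module `Pool/Agent/Lib/DM/GL/X.lean` with the first
lines `import Pool.Agent.Lib.DM.GL.SpecB`, `set_option autoImplicit false`, `open scoped Pointwise`, `noncomputable section`,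
`namespace Pool.Agent.DM.GL` and the `open` lines of this file. Auxiliary declarations are `private`. Every `C_X` is a statement, `S_X` the
implication from the statements used to `C_X`. All modules are independent. Most are edits of the module of the same name in `DN/GL/`.
-/

set_option autoImplicit false

open scoped Pointwise

noncomputable section

namespace Pool.Agent.DM.GL

open Pool.Agent.MuZ Pool.Agent.FW Pool.Agent.DN Pool.Agent.DM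
open Pool.Agent.DI (io ofC io_inj exists_io io_ofC ofC_io VP MP UP TP ex)
open Pool.Agent.DT (kap cbr)
open Pool.Agent.DI.GL (Fx StP mem_of_Fx Fx.mul Fx.inv Fx.one)

variable {n t : ℕ}

/-! ## Definitions -/

/-- The logarithmic derivative of the elliptic unit: `-(fr(c)/fr(1)) ∑ h g(c, h z_N)`. -/
def SN (f N : ℕ) (m : Ideal (OO n t)) (T : Finset (OO n t)) (c : Ideal (OO n t)) : Om :=
  -(rO (⊤ : Ideal (OO n t)) c * ∑ h ∈ T, toO h * gO m c (toC h / (f * 3 ^ N : ℕ)))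

/-- The facts on the fields `L = L'`, `LN N = L'_N` which are used. -/
structure Sit3 (L : IntermediateField ℚ Om) (LN : ℕ → IntermediateField ℚ Om) (P : Ideal ZZ) : Prop where
  prime : P.IsPrime
  three : MP P 3
  iul : ∀ m u : ℕ, u % 3 = 1 → ∃ ι ∈ P.inertia Gal(Om/ℚ), Fx L ι ∧ ∀ z : Om, z ^ 3 ^ m = 1 → ι z = z ^ u
  lnx : ∀ (N : ℕ) (ζ : Om), 1 ≤ N → IsPrimitiveRoot ζ (3 ^ N) → ∀ τ : Gal(Om/ℚ),
    Fx (LN N) τ ↔ Fx L τ ∧ τ ζ = ζ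

/-! ## Points -/

/-- Roots of unity of order prime to `3`. -/
def C_Rou : Prop :=
  ∀ P : Ideal ZZ, Ab3 P → ∀ (x : Om) (m : ℕ), m.Coprime 3 → x ^ m = 1 → UP P x ∧
    (MP P (x - 1) → x = 1) ∧ ∀ τ ∈ P.inertia Gal(Om/ℚ), τ x = x

/-- (50 lines) **Rou**. PROOF. `m ≠ 0` (coprime to `3`), `UP`: `DI.UP.of_pow` or similar (`x ^ m = 1`). `MP P (x - 1)`: `(x - 1) * ∑_(i<m) x^i = 0` and `∑ x^i - m ∈ P` (`x^i - 1 ∈ P`), `m` is not in `P` (`m` prime to `3`: `a m + b 3 = 1` and `MP P 3`), so the sum is not `0`. INERTIA: `y = τ x / x`, `y ^ m = 1`, `MP P (τ x - x)` (`DI.VP.inertia`), so `MP P (y - 1)`, `y = 1`. -/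
def S_Rou : Prop := C_Rou

/-- The points `z + d`, `z` of order prime to `3` (`z ∉ Lam b`), `d` of order a power of `3` (also `d = 0`). -/
def C_Odq : Prop :=
  ∀ (n t : ℕ) [Ine3 n t] (P : Ideal ZZ), Ab3 P → ∀ b : Ideal (OO n t), G30 b → ∀ (f N : ℕ) (z d : ℂ), Fok f →
    (f : ℂ) * z ∈ Lam b → z ∉ Lam b → (3 : ℂ) ^ N * d ∈ Lam b →
    ¬ Qp P b (z + d) ∧ ¬ IK P b (z + d) ∧ Tor n t (z + d) ∧ z + d ∉ Lam b ∧ VP P (xO b (z + d)) ∧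
      VP P (vO b (z + d)) ∧ (2 * z ∉ Lam b → UP P (vO b (z + d)) ∧ UP P (vO b z)) ∧
      Cn P (xO b z) ∧ Cn P (vO b z)

/-- (90 lines) **Odq** (from D2, In, Act). Edit of `DN/GL/Odq.lean`. PROOF. LEMMA: for every `z` with `f z ∈ Lam b`, `z ∉ Lam b` and `d` with `3^N d ∈ Lam b`: `¬ Qp P b (z + d)`: suppose `Qp P b (z + d)`. Take `α = f` (`¬ MP P (toO f)`: `toO f = f` is prime to `3`, `a f + b 3 = 1`), `β = 3^N`: `toC (α β) (z + d) = 3^N (f z) + f (3^N d) ∈ Lam b`,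
so `3^N (z + d) ∈ Lam b`, `3^N z ∈ Lam b`; with `f z ∈ Lam b` and `a 3^N + c f = 1` (integers) `z ∈ Lam b`: contradiction. `Tor`: `tor_iff` (`b ≠ ⊥`) with `f * 3^N`. `z + d ∉ Lam b`: otherwise `Qp P b (z + d)` holds (`lam_mul`). `¬ IK`: S_D2 (6); `VP`: S_D2 (4). If `2 z ∉ Lam b`: the LEMMA for `2 z`, `2 d`: `¬ Qp P b (2 (z + d))`, so
`¬ IK P b (2 (z + d))` (S_D2 (6)), `UP` by S_D2 (5); the same for `d := 0` (`z + 0 = z`). `Cn`: `VP` by the case `d := 0`; `τ ∈ P.inertia` has a class `h` for `f`, `N := 1` (In), `τ (xO b z) = xO b z`, `τ (vO b z) = vO b z` (Act, third item). -/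
def S_Odq : Prop := S_D2 → C_In → C_Act → C_Odq

/-- The Kummer relation between `X(z)` and `X(z + u)`, its discriminant and its derivative (`b₂ = 1 - 8 c`, `b₄ = 2 c²`, `b₆ = 0`, `b₈ = -c⁴`). -/
def C_Kud : Prop :=
  ∀ (n t : ℕ) [Ine3 n t] (b : Ideal (OO n t)), G30 b → ∀ z u : ℂ, Tor n t z → Tor n t u → z ∉ Lam b →
    u ∉ Lam b → z + u ∉ Lam b → z - u ∉ Lam b → ∀ X X' U W W' V b2 b4 b6 b8 : Om, X = xO b z →
      X' = xO b (z + u) → U = xO b u → W = vO b z → W' = vO b (z + u) → V = vO b u → b2 = 1 - 8 * cO b →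
      b4 = 2 * cO b ^ 2 → b6 = 0 → b8 = -cO b ^ 4 →
      (X - U) ^ 2 * X' ^ 2 - (2 * X * U * (X + U) + b2 * (X * U) + b4 * (X + U) + b6) * X' +
        (X ^ 2 * U ^ 2 - b4 * (X * U) - b6 * (X + U) - b8) = 0 ∧
      2 * (X - U) ^ 2 * X' - (2 * X * U * (X + U) + b2 * (X * U) + b4 * (X + U) + b6) = -(W * V) ∧
      (2 * (X - U) * X' ^ 2 - (4 * X * U + 2 * U ^ 2 + b2 * U + b4) * X' +
        (2 * X * U ^ 2 - b4 * U - b6)) * W = W * V * W'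

/-- (120 lines) **Kud** (from BC, R1). Edit of `DN/GL/Kud.lean`. PROOF. By `io_inj` and S_R1 everything may be proved for the complex numbers `XC b z` etc. (`io (xO b z) = XC b z`, `io (vO b z) = WC b z`, `io (cO b) = cC b`). S_BC (`b ≠ ⊥`, `PrI b 2`): the structure `BC b`. Let `X'' = XC b (z - u)`, `c = cC b`, `A = 2XU(X + U) + (1 - 8c)XU + 2c²(X + U)`,
`B = (XU - c²)²`. `kad`: `(X' + X'')(X - U)² = A`, `kml`: `X' X'' (X - U)² = B`, `ksb`: `(X' - X'')(X - U)² = -W V`. (1): `(X - U)² X'² - A X' + B = 0` (`linear_combination`). (2): `2 (X - U)² X' - A = (X' - X'')(X - U)²`. (3): the points `s` with `s, s + u, s - u ∉ Lam b` are an open set which contains `z`,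
so the function `s ↦ (X(s) - U)² X(s + u)² - A(s) X(s + u) + B(s)` vanishes near `z` and its derivative at `z` is `0`; by `drx` (`HasDerivAt (XC b) (fr b * WC b s) s`; for `s ↦ X(s + u)`: `HasDerivAt.comp_add_const`) it is `fr b` times
`2 (X - U) W X'² + (X - U)² 2 X' W' - (4XU + 2U² + b2 U + b4) W X' - A W' + (2XU² - b4 U) W`; `fr b ≠ 0` (`fr0`). So with (2): `W Q - W V W' = 0`, `Q` the first factor in (3). -/
def S_Kud : Prop := S_BC → S_R1 → C_Kud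

/-! ## The derivation on `X(z + u)` and `X_c(h z)` -/

/-- Translation by points of order prime to `3`. -/
def C_Tru : Prop :=
  ∀ (n t : ℕ) [Ine3 n t] (P : Ideal ZZ), Ab3 P → ∀ (f N : ℕ) (z0 d : ℂ), Pt n t f N z0 d → 3 ≤ N →
    ∀ (f' : ℕ) (u : ℂ), Fok f' → f ∣ f' → (f' : ℂ) * u ∈ Lam (⊤ : Ideal (OO n t)) →
      (2 * u ∈ Lam (⊤ : Ideal (OO n t)) → u ∈ Lam (⊤ : Ideal (OO n t))) →
      z0 + u ∉ Lam (⊤ : Ideal (OO n t)) →
      Der n t P z0 d (xO (⊤ : Ideal (OO n t)) (z0 + d + u)) (vO (⊤ : Ideal (OO n t)) (z0 + d + u))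

/-- (120 lines) **Tru** (from XOm, R2, DL.Cn, DL.Der, DL.Kum, In, Act, Pi, Gen, Odq, Kud). Compare `DN/GL/Tru.lean`. PROOF. `z = z0 + d`; `G30 ⊤`. `X = xO ⊤ z = π + xO ⊤ z0`, `π = pH z0 d 1` (`toC 1 * d = d`): `Der X W`, `W = vO ⊤ z` (Der (9), (4), (5); `Cn (xO ⊤ z0)`: Odq with `d := 0`). If `u ∈ Lam ⊤`: periodicity (`XOm.per`). Otherwise: `z0`, `u`, `z0 + u` are killed by `f'` and not in `Lam ⊤`
(`z0`: `2 z0 ∉ Lam ⊤`). Odq for `f'`: `UP P (vO ⊤ u)` (`2 u ∉ Lam ⊤`), `Cn (xO ⊤ u)`, `Cn (vO ⊤ u)`; `VP P` of `X' = xO ⊤ (z0 + u + d)`, `W' = vO ⊤ (z0 + u + d)`, `z0 + u + d ∉ Lam ⊤`; `z ∉ Lam ⊤`; `UP P W` (Pi). `z - u ∉ Lam ⊤`: otherwise `f' 3^(N-1) (z - u) ∈ Lam ⊤`, so `f' 3^(N-1) d ∈ Lam ⊤` and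
(`3^N d ∈ Lam ⊤`, `f'` prime to `3`) `3^(N-1) d ∈ Lam ⊤`, against `Pt.dn`. Kud with `b = ⊤`. `Fp X'`: an inertia element of class `1` for `f'` fixes `X'` (Act for `f'`, `toC 1 * z' = z'`; Gen, last item for `f'`). Constants: `cO ⊤` is `P`-integral (S_R2: a unit) and fixed by inertia (Act), so `b2 = 1 - 8 c`, `b4 = 2 c²`, `0`, `b8 = -c⁴` are in `Cn` (DL.C_Cn).
DL.C_Kum with `κ = 1`. -/
def S_Tru : Prop :=
  S_XOm → S_R2 → DL.C_Cn → DL.C_Der → DL.C_Kum → C_In → C_Act → C_Pi → C_Gen → C_Odq → C_Kud → C_Tru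

/-- The formulas for the isogeny. `R` is a system for `Lam (h c) / O`. -/
def C_Iso : Prop :=
  ∀ (n t : ℕ) [Ine3 n t] (c : Ideal (OO n t)) (h : OO n t), G30 c → Cop h 30 → ∀ R : Finset ℂ,
    IsSys (sp h * c) (⊤ : Ideal (OO n t)) R → ∀ z z' : ℂ, Tor n t z → Tor n t z' → z ∉ Lam (sp h * c) →
    z' ∉ Lam (sp h * c) →
    (toO h * rO (⊤ : Ideal (OO n t)) c) ^ 2 * (xO c (toC h * z) - xO c (toC h * z')) =
      ∑ u ∈ R, (xO (⊤ : Ideal (OO n t)) (z + u) - xO (⊤ : Ideal (OO n t)) (z' + u)) ∧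
    (toO h * rO (⊤ : Ideal (OO n t)) c) ^ 3 * vO c (toC h * z) =
      ∑ u ∈ R, vO (⊤ : Ideal (OO n t)) (z + u)

/-- (60 lines) **Iso** (from XOm). PROOF. `h ≠ 0` (`Cop 0 30` is false: `Nm 0 = 0`), `a = sp h * c`, `G30 a`, `G30 ⊤`. `XOm ⊤`, field `sum` for `a` (`a * ⊤ = a`): `rO ⊤ a ^ 2 * (xO a z - xO a z') = ∑ ..`, `rO ⊤ a ^ 3 * vO a z = ∑ ..`. `XOm c`, field `hmg` for `h`: `rO c a ^ 2 * xO a z = toO h ^ 2 * (xO c (toC h * z) - xO c (toC h * (1/2)))` (also for `z'`; subtract),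
`rO c a ^ 3 * vO a z = toO h ^ 3 * vO c (toC h * z)`. `XOm ⊤`, field `rr`: `rO ⊤ c * rO c a = rO ⊤ a`. -/
def S_Iso : Prop := S_XOm → C_Iso

/-- Isogenies and multiplication: the lattice `Lam c` and the point `h z`. -/
def C_Trh : Prop :=
  ∀ (n t : ℕ) [Ine3 n t] (P : Ideal ZZ), Ab3 P → ∀ (f N : ℕ) (z0 d : ℂ), Pt n t f N z0 d → 3 ≤ N →
    ∀ (c : Ideal (OO n t)) (h : OO n t), G30 c → Cop h 30 → z0 ∉ Lam (sp h * c) →
      Der n t P z0 d (xO c (toC h * (z0 + d)))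
        (toO h * rO (⊤ : Ideal (OO n t)) c * vO c (toC h * (z0 + d)))

/-- (110 lines) **Trh** (from D2, DL.Cn, DL.Der, In, Act, Pi, Gen, Zt, Odq, Tru, Iso). Edit of `DN/GL/Trh.lean`. PROOF. `z = z0 + d`, `a = sp h * c ≠ ⊥`, `NI a = Nm h * NI c` is prime to `30` (`aO2`, `aO6`). `f' = f * NI a`, `Fok f'`. `R` with `IsSys a ⊤ R` (`aL3`). Every `u ∈ R` is in `Lam (a * ⊤) = Lam a`, so `NI a * u ∈ Lam ⊤` (`(NI a : O) ∈ a`: `a * cjI a = sp (NI a)`, `aO3`; `lam_prod`),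
`f' u ∈ Lam ⊤`; if `2 u ∈ Lam ⊤` then `u ∈ Lam ⊤` (`NI a` is odd); `z0 + u ∉ Lam ⊤` (otherwise `z0 ∈ Lam a`: `lam_mono`). Tru: `Der (X(z + u)) (W(z + u))`. `Cn (X(z0 + u))` (Odq, `f' (z0 + u) ∈ Lam ⊤`). `h z0`: `f (h z0) ∈ Lam ⊤ ⊆ Lam c`, `h z0 ∉ Lam c` (`lam_sp`): Odq for `b = c`: `Cn (xO c (h z0))`, `h z0 + h d ∉ Lam c`, so `z ∉ Lam a`.
`r = toO h * rO ⊤ c` is a unit in `Cn` (`rO ⊤ c`: S_D2 (last) with `b = ⊤`, `a = c`, `c * ⊤ = c`; fixed by inertia: Act; `toO h`: Zt `UP P (toO h)` (`Cop h 3`), fixed: `P.inertia ⊆ GK` (In), `GK_toO`), so `κ = (r²)⁻¹ ∈ Cn` (DL.C_Cn). Iso (1) for `z, z0`: `xO c (h z) = κ ∑_u (X(z + u) - X(z0 + u)) + xO c (h z0)`, so by Der (4), (5)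
(induction over `R`: `Finset.induction_on`) its derivative is `κ ∑_u W(z + u)`, which is `κ r³ vO c (h z) = r vO c (h z)` (Iso (2)). -/
def S_Trh : Prop :=
  S_D2 → DL.C_Cn → DL.C_Der → C_In → C_Act → C_Pi → C_Gen → C_Zt → C_Odq → C_Tru → C_Iso → C_Trh

/-! ## Logarithmic derivatives -/

/-- **Tht.** The logarithmic derivative of `Theta`. -/
def C_Tht : Prop :=
  ∀ (n t : ℕ) [Ine3 n t] (P : Ideal ZZ), Ab3 P → ∀ (f N : ℕ) (z0 d : ℂ), Pt n t f N z0 d → 3 ≤ N →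
    ∀ (m c : Ideal (OO n t)) (h : OO n t), m ≠ ⊥ → PrI m 30 → G30 c → Cop h 30 →
      z0 ∉ Lam (m * (sp h * c)) →
        LD n t P z0 d (Theta m c (toC h * (z0 + d)))
          (-(toO h * rO (⊤ : Ideal (OO n t)) c * gO m c (toC h * (z0 + d))))

/-- (150 lines) **Tht** (from Cv, D2, D9, DL.Cn, DL.Der, DL.LDr, In, Act, Pi, Gen, Odq, Trh). Edit of `DN/GL/Tht.lean`. PROOF. `z = z0 + d`, `x = xO c (h z)`, `r = toO h * rO ⊤ c`, `v = vO c (h z)`. `z0 ∉ Lam (sp h * c)` (`lam_mono`), so Trh: `Der x (r v)`. S_Cv (last item): `Theta m c (h z) = ∏_(u ∈ hs m c) (xO c u - xO c (2u))/(x - xO c u)`. `u ∈ hs m c`: `u ∈ Lam (m c)`, `u ∉ Lam c` (`aB14` (1), `IsHalf.mem`; `PrI m 2`);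
`NI m * u ∈ Lam c` (`(NI m : O) ∈ m`: `m * cjI m = sp (NI m)`, `aO3`, `lam_prod`), `NI m` is prime to `30` (`aO6`), so `2u, 3u ∉ Lam c`. `f' = f * NI m`, `Fok f'`. Odq for `b = c`, `f'`: `Cn (xO c u)`, `Cn (xO c (2u))`, `¬ IK P c u`, `¬ IK P c (2u)`, `¬ Qp P c (3u)`, `¬ Qp P c (-u)` (`d := 0`): S_D2 (7): `UP P (xO c u - xO c (2u))`. `h z0 ∉ Lam (m c)` (`Lam (m * (sp h * c)) = Lam (sp h * (m * c))`: `mul_left_comm`, `lam_sp`),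
so `h z0 ± u ∉ Lam c` (`lam_mono`: `u ∈ Lam (m c)`), `f' (h z0 ± u) ∈ Lam c`, `3^N (h d) ∈ Lam c` (`Lam ⊤ ⊆ Lam c`). Odq: `¬ Qp P c (h z ± u)`, `¬ IK P c (h z)`: S_D2 (7): `UP P (x - xO c u)`. LDr (6) for `x - xO c u` with `Der (x - xO c u) (r v - 0)`: the logarithmic derivative is `r v / (x - xO c u)`; LDr (1) for the constant `xO c u - xO c (2u)`,
LDr (3), (2): the factor has `-(r v/(x - xO c u))`, LDr (5): the product has `-r ∑_u v (x - xO c u)⁻¹ = -r gO m c (h z)` by S_D9 (for all `u' ∈ Lam (m c)`: `¬ Qp P c (h z + u')`, as before by Odq with the number `f'`). -/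
def S_Tht : Prop :=
  S_Cv → S_D2 → S_D9 → DL.C_Cn → DL.C_Der → DL.C_LDr → C_In → C_Act → C_Pi → C_Gen → C_Odq → C_Trh → C_Tht

/-- **ZtD.** The logarithmic derivative of the roots of unity of order `3 ^ N`. -/
def C_ZtD : Prop :=
  ∀ (n t : ℕ) [Ine3 n t] (P : Ideal ZZ), Ab3 P → ∀ (f N : ℕ) (z0 d : ℂ), Pt n t f N z0 d → 3 ≤ N →
    ∀ ζ : Om, IsPrimitiveRoot ζ (3 ^ N) → ∃ th : Om, LD n t P z0 d ζ th ∧ GE P (3 / 8 - 4 / 3 ^ N) th ∧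
      ∀ (f' : ℕ) (h : OO n t) (τ : Gal(Om/ℚ)), Fok f' → f ∣ f' → Cls P f' N h τ →
        GE P 2 (toO h * τ th - (Nm h : Om) * th)

/-- (120 lines) **ZtD** (from XOm, DL.Der, DL.Cj, DL.LDr, In, Act, Pi, Gen, FixH, Zt, Odq, Trh). PROOF. `UP P ζ` (`ζ ^ 3^N = 1`). For a class `h` (for any `f'`): `τ ζ = ζ ^ (Nm h).toNat` (Act). Class `1`: `τ ζ = ζ`, so `Fp ζ` (Gen, last item with `f' = f`); Der (8): `y` with `Der ζ y`; LDr (6): `LD ζ th`, `th = y / ζ`. FixH with `f' = f`: if `Hq f N h` then `(Nm h).toNat = 1` modulo `3^N` (`0 ≤ Nm h`),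
`τ ζ = ζ`: `GE (3/8 - 4/3^N) y`, and `th` (`ζ` a unit, `GE.mul_left`). EQUIVARIANCE: let `Cls P f' N h τ`. `Cop h 30`: `Cop h 3`, and `20 ∣ f' ∣ h - 1` gives `Cop h 20` (`cop_congr`). `h z0 - z0 = (h - 1) z0 ∈ O` (`f ∣ f' ∣ h - 1`), so `h z0 ∉ O`, `z0 ∉ Lam (sp h * ⊤)` (`lam_sp`). Trh with `c = ⊤` (`rO ⊤ ⊤ = 1`: `XOm.rr`, `XOm.rne`): `Der (xO ⊤ (h z)) (toO h * vO ⊤ (h z))`.
`τ π = pH z0 d (h * 1) = xO ⊤ (z0 + h d) - xO ⊤ z0` (Pi, last item), `xO ⊤ (z0 + h d) = xO ⊤ (h z)` (`XOm.cng`), `Cn (xO ⊤ z0)` (Odq): `Der (τ π) (toO h * vO ⊤ (h z))` and `vO ⊤ (h z) = τ (vO ⊤ z)` (Act for `f'`). DL.C_Cj with `r = toO h` (`VP`: Zt; `τ⁻¹ σ τ` is inertia: subgroup), second item: `LD (τ ζ) (toO h * τ th)`. LDr (4): `LD (ζ ^ j) (j * th)`,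
`j = (Nm h).toNat`; LDr (7): `GE P 2 (toO h * τ th - j * th)`; `(j : Om) = (Nm h : Om)`. -/
def S_ZtD : Prop :=
  S_XOm → DL.C_Der → DL.C_Cj → DL.C_LDr → C_In → C_Act → C_Pi → C_Gen → C_FixH → C_Zt → C_Odq → C_Trh → C_ZtD

/-! ## The elliptic units -/

/-- The point `1/(f 3^N)`. -/
def C_Pnt : Prop :=
  ∀ (n t : ℕ) [Ine3 n t] (f N : ℕ), Fok f → 1 ≤ N → ∃ z0 d : ℂ, Pt n t f N z0 d ∧
    z0 + d = 1 / (f * 3 ^ N : ℕ) ∧ ∀ a : Ideal (OO n t), a ≠ ⊥ → PrI a f → z0 ∉ Lam a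

/-- (70 lines) **Pnt**. Edit of `DN/GL/Pnt.lean`. PROOF. `a0 3^N + c0 f = 1` (integers; `f` prime to `3`), `z0 = a0/f`, `d = c0/3^N`: `z0 + d = (a0 3^N + c0 f)/(f 3^N)`. `f z0 = a0`, `3^N d = c0` are in `Lam ⊤` (`lam_top`, `toC_int`). `z0 = toC (a0 : O)/f ∈ Lam a` iff `f ∣ (a0 : O)` (`aL6` (1)) iff `f ∣ a0` in `ℤ` (`nat_dvd_iff`), impossible since `c0 f + a0 3^N = 1`, `20 ≤ f`.
`Pt.zn`: `2 z0 = toC (2 a0)/f ∈ Lam ⊤` iff `f ∣ 2 a0`, so `f ∣ 2` (`a0` is prime to `f`), impossible. `Pt.dn`: `3^(N-1) d = c0/3 = toC (c0 : O)/3 ∈ Lam ⊤` iff `3 ∣ c0` (`aL6` (1) for `N := 3`), but `c0 f = 1 - a0 3^N` is prime to `3`. -/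
def S_Pnt : Prop := C_Pnt

/-- Inertia and the fields `L'_N`. -/
def C_Mnf : Prop :=
  ∀ (n t : ℕ) [Ine3 n t] (P : Ideal ZZ), Ab3 P → ∀ (f f' N : ℕ) (h : OO n t) (τ : Gal(Om/ℚ)), Fok f → 1 ≤ N →
    Fok f' → f ∣ f' → Cls P f' N h τ → (Hq f' N h ∨ ((3 ^ N : ℕ) : OO n t) ∣ h - 1) → ∀ x ∈ Mn n t f N, τ x = x

/-- (60 lines) **Mnf** (from GM, In). Edit of the fourth part of `DN/GL/Mnf.lean`. PROOF. `τ ∈ GK` (In), `Cls P f N h τ` (In (8)), so `Psi τ (f 3^N) (sp h)`. In both cases `f ∣ h - 1`, `3 ∣ h - 1` (`9 ∣ h - 1` or `3^N ∣ h - 1`), `3^N ∣ Nm h - 1` (`Hq`; or `Nm_congr` with `1`). `HPN f N (sp h)`: `v = h` (`h ≠ 0` by `Cop h 3`), `Ray` reflexive (`aO7`); `HN f N h`: `Cop h (3 f)` (`cop_congr` with `1`: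
`3 f ∣ h - 1` as `f` is prime to `3`), `j = 0`. S_GM (the claim on `Psi τ (f 3^N) a`, direction `←`). -/
def S_Mnf : Prop := S_GM → C_In → C_Mnf

/-- **Un4.** The logarithmic derivative of the elliptic unit, and its valuation. -/
def C_Un4 : Prop :=
  ∀ (n t : ℕ) [Ine3 n t] (P : Ideal ZZ), Ab3 P → ∀ (f N : ℕ) (m : Ideal (OO n t)) (T : Finset (OO n t)),
    FM f m → 3 ≤ N → (∀ h ∈ T, HN f N h) → (∀ c : Ideal (OO n t), c ≠ ⊥ → PrI c (3 * f) → uN f N m T c ∈ Mn n t f N) →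
    ∀ z0 d : ℂ, Pt n t f N z0 d → z0 + d = 1 / (f * 3 ^ N : ℕ) →
    (∀ a : Ideal (OO n t), a ≠ ⊥ → PrI a f → z0 ∉ Lam a) → ∀ c : Ideal (OO n t), c ≠ ⊥ → PrI c (3 * f) →
      LD n t P z0 d (uN f N m T c) (SN f N m T c) ∧ GE P (3 / 8 - 4 / 3 ^ N) (SN f N m T c)

/-- (90 lines) **Un4** (from DL.LDr, Pi, Gen, FixH, Mnf, Tht). Edit of `DN/GL/Un4.lean`. PROOF. `uN f N m T c = ∏_(h ∈ T) Theta m c (toC h / (f 3^N))`, `toC h / (f 3^N) = toC h * (z0 + d)`. `h ∈ T`: `HN f N h`, so `Cop h (3 f)`, `Cop h 30` (`30 ∣ 3 f` as `20 ∣ f`). `a = m * (sp h * c)` is nonzero and prime to `f` (`aO6`), so `z0 ∉ Lam a`. `G30 c`, `PrI m 30` (`aO6` (2)). Tht for each `h`,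
DL.C_LDr (5); the sum of the logarithmic derivatives is `SN` (`Finset.mul_sum`, `Finset.sum_neg_distrib`). VALUATION: `uN ∈ Mn n t f N` is fixed by the inertia elements with `Hq f N h` (Mnf with `f' = f`), `Der (uN) (uN * SN)`: FixH with `f' = f`: `GE (3/8 - 4/3^N) (uN * SN)`; `uN` is a unit (`GE.mul_left` with the inverse). -/
def S_Un4 : Prop := DL.C_LDr → C_Pi → C_Gen → C_FixH → C_Mnf → C_Tht → C_Un4

/-! ## The tower `L'_N` -/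

/-- Compactness. -/
def C_Cpt3 : Prop :=
  ∀ (L : IntermediateField ℚ Om) (LN : ℕ → IntermediateField ℚ Om) (P : Ideal ZZ),
    Sit3 L LN P → ∀ r : Om, (∀ d : Gal(Om/ℚ), DT.GL.DD LN P d → d r = r) →
    ∃ m0 : ℕ, ∀ m : ℕ, m0 ≤ m → ∀ d : Gal(Om/ℚ), DT.GL.DL L P m d → d r = r

/-- (75 lines) **Cpt3**. Copy of `DT/GL/Cpt.lean` (`import Pool.Agent.Lib.DT.GL.Stb`: `DT.GL.tStb : DT.GL.S_Stb`). -/
def S_Cpt3 : Prop := C_Cpt3

/-- The Kummer character of `w` on `D_P ∩ Gal(Om/L_N)` is that of a power of `ζ`. -/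
def C_Ga3 : Prop :=
  ∀ (L : IntermediateField ℚ Om) (LN : ℕ → IntermediateField ℚ Om) (P : Ideal ZZ),
    Sit3 L LN P → ∀ N : ℕ, 1 ≤ N → ∀ ζ : Om, IsPrimitiveRoot ζ (3 ^ N) → ∀ w ∈ LN N, w ≠ 0 → ∀ m : ℕ,
    (∀ d : Gal(Om/ℚ), DT.GL.DL L P m d → kap w d = 0) →
    ∃ j : ℕ, ∀ r : Om, r ^ 3 = w * ζ ^ j → ∀ d : Gal(Om/ℚ), StP P d → Fx (LN N) d → d r = r

/-- (190 lines) **Ga3**. Copy of `DT/GL/G8a.lean` (`DT.GL.tIu`, `DT.GL.tStb`, `DT.GL.tKap`, `DT.GL.tPw` are proved, modules `DT/GL/Iu.lean`, ..). The only change: the inertia element `d2` with `d2 z = z ^ (1 + 3 ^ N)` which fixes `L` is given by `Sit3.iul` (`(1 + 3 ^ N) % 3 = 1`), not by `Iu` and `Sit.inr`. -/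
def S_Ga3 : Prop := C_Ga3

/-- **Cu.** If the Kummer character of the unit `w` of `L_N` vanishes on `DD` then `w ζ^j` is a cube modulo every power of `3`. -/
def C_Cu : Prop :=
  ∀ (L : IntermediateField ℚ Om) (LN : ℕ → IntermediateField ℚ Om) (P : Ideal ZZ),
    Sit3 L LN P → ∀ N : ℕ, 1 ≤ N → ∀ ζ : Om, IsPrimitiveRoot ζ (3 ^ N) → ∀ w ∈ LN N, UP P w →
    (∀ d : Gal(Om/ℚ), DT.GL.DD LN P d → kap w d = 0) →
    ∃ j : ℕ, ∀ M : ℕ, ∃ r ∈ LN N, VP P r ∧ TP P (3 ^ M) (w * ζ ^ j - r ^ 3)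

/-- (100 lines) **Cu** (from Cpt3, Ga3). Compare `DT/GL/G8.lean` and the beginning of `DT/GL/G8b.lean`. PROOF. `r0 ^ 3 = w` (`IsAlgClosed.exists_pow_nat_eq`), `DT.GL.tKap` (1): for `DT.GL.DD LN P d`: `d w = w` (`w ∈ LN N`), `d (zet 3) = zet 3` (`zet 3 ∈ LN N`: `mem_of_Fx`, `Sit3.lnx`: `zet 3` is a power of `ζ`), so `kap w d = 0` gives `d r0 = r0`. Cpt3: `m0`; for `DT.GL.DL L P m d`,
`m = max m0 N`: `d r0 = r0`, `d w = w`, `d (zet 3) = zet 3` (`m ≥ 1`), so `kap w d = 0`. Ga3: `j`. `r` with `r ^ 3 = w * ζ ^ j`; `DT.GL.tApp DT.GL.tStb DT.GL.tArch : DT.GL.C_App` with `F = LN N`: `r' ∈ LN N` with `TP P (3 ^ M) (r - r')`. `VP P r` (`r ^ 3` is a unit; `DI.UP.of_pow`), `VP P r'`, `r ^ 3 - r' ^ 3 = (r - r') (r ^ 2 + r r' + r' ^ 2)`. -/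
def S_Cu : Prop := C_Cpt3 → C_Ga3 → C_Cu

/-- The abstract tower applies. -/
def C_SitM : Prop :=
  ∀ (n t : ℕ) [Ine3 n t] (P : Ideal ZZ), Ab3 P → ∀ f : ℕ, Fok f → Sit3 (Mf n t f) (Mn n t f) P

/-- (70 lines) **SitM** (from Tam, GM). PROOF. `prime`, `three`: `hP.1.1`, `hP.2`. `lnx`: S_GM (last item). `iul`: `u % 3 = 1`. There is `u'` with `u' ^ 8 = u` modulo `3^m`: `u' = u ^ e`, `8 e = 1` modulo `3^m` (`8` is prime to `3`: `Nat.exists_mul_emod_eq_one_of_coprime`, or `e = 8 ^ (3 ^ m - 1)`-like, `Nat.ModEq.pow_totient`), `u ^ 3^m = 1` modulo `3^m` (`u % 3 = 1`: induction on `m`, `(1 + 3^i x)^3 = 1` modulo `3^(i+1)`;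
or `Nat.ModEq.pow_totient`, `φ(3^m) = 2 3^(m-1)`, `u` is a square..: use the induction). `DT.GL.tIu : DT.GL.S_Iu` (module `DT/GL/Iu.lean`; `u'` is prime to `3`) gives `ι0 ∈ P.inertia` with `ι0 z = z ^ u'` if `z ^ 3^m = 1`; `ι = ι0 ^ 8`: `ι z = z ^ (u' ^ 8) = z ^ u` (induction: `(ι0 ^ i) z = z ^ (u' ^ i)`), and `ι x = x` for `x ∈ Mf n t f` by S_Tam (`0 < f`, `5 ∣ f`, `f.Coprime 3`). -/
def S_SitM : Prop := S_Tam → S_GM → C_SitM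

/-- **Res.** If the Kummer character of the unit `w` of `L'_N` vanishes on `DD`, then the logarithmic derivative of `w ζ^b` has valuation at least `11/8 - 4/3^N` for some `b`. -/
def C_Res : Prop :=
  ∀ (n t : ℕ) [Ine3 n t] (P : Ideal ZZ), Ab3 P → ∀ (f N : ℕ) (z0 d : ℂ), Pt n t f N z0 d → 3 ≤ N →
    ∀ (ζ th : Om), IsPrimitiveRoot ζ (3 ^ N) → LD n t P z0 d ζ th →
    ∀ w ∈ Mn n t f N, (∀ g : Gal(Om/ℚ), DT.GL.DD (Mn n t f) P g → kap w g = 0) → ∀ y : Om,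
      LD n t P z0 d w y → ∃ b : ℕ, GE P (11 / 8 - 4 / 3 ^ N) (y + b * th)

/-- (90 lines) **Res** (from DL.Der, DL.LDr, DL.Rt, Pi, Gen, FixH, Mnf, Cu, SitM). PROOF. `f` from `Pt.fok`. Cu with SitM: `j`, and for `M = 2`: `r ∈ Mn n t f N`, `VP P r`, `w ζ^j - r^3 = 3^2 * s`, `VP P s`. `ζ ∈ Mn n t f N` (`mem_of_Fx`, `Sit3.lnx`), so `s = (w ζ^j - r^3)/9 ∈ Mn n t f N`. `r, s` are fixed by the elements of class `1` (Mnf, second case), so `Fp` (Gen, last item with `f' = f`). Der (8): `Der r y1`;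
FixH for `r` (Mnf, first case, `f' = f`): `GE (3/8 - 4/3^N) y1`. `c = ζ^j`: LDr (4): `LD (ζ^j) (j * th)`, so `Der (ζ^j) (ζ^j * (j * th))`, `vl c = 0` (a unit). DL.C_Rt with `q = 2`, `M = 2`, `D = 3/8 - 4/3^N`, `Y = y`, `yc = ζ^j * (j * th)`: `GE (min (1 + D - 0/3) (min (2 - 0) (2 - 0))) (y + yc/c)`, `yc / c = j * th`, and the minimum is `11/8 - 4/3^N`. -/
def S_Res : Prop :=
  DL.C_Der → DL.C_LDr → DL.C_Rt → C_Pi → C_Gen → C_FixH → C_Mnf → C_Cu → C_SitM → C_Res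

/-! ## The result -/

/-- **LSS.** The local step: from the Kummer characters to the sum `∑ χ(c) oN(c)^e (fr(c)/fr(1)) ∑ h g(c, h z_N)`. -/
def C_LSS : Prop :=
  ∀ (n t : ℕ) [Ine3 n t] (f e : ℕ) (m : Ideal (OO n t)) (χ : Ideal (OO n t) → Om) (P : Ideal ZZ), FM f m →
    IsChi (3 * f) χ → Ab3 P → ∀ (N : ℕ) (T : Finset (OO n t)) (D : Finset (Ideal (OO n t))), 3 ≤ N →
    IsRep f N T → (∀ c ∈ D, c ≠ ⊥ ∧ PrI c (3 * f)) →
    (∀ d : Gal(Om/ℚ), IsD n t f P d → MP P (∑ c ∈ D, χ c * oN c ^ e * ((kap (uN f N m T c) d).val : Om))) →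
    ∃ C th : Om, Cn P C ∧ GE P (3 / 8 - 4 / 3 ^ N) th ∧
      (∀ (f' : ℕ) (h : OO n t) (τ : Gal(Om/ℚ)), Fok f' → f ∣ f' → Cls P f' N h τ →
        GE P 2 (toO h * τ th - (Nm h : Om) * th)) ∧
      GE P (11 / 8 - 4 / 3 ^ N)
        (∑ c ∈ D, χ c * oN c ^ e * (rO (⊤ : Ideal (OO n t)) c *
          ∑ h ∈ T, toO h * gO m c (toC h / (f * 3 ^ N : ℕ))) - C * th)

/-- (190 lines) **LSS** (from G3, DL.Der, DL.LDr, Pi, Gen, Rou, Pnt, ZtD, Un4, Res). Edit of `DN/GL/LSS.lean`; `import Pool.Agent.Lib.DT.GL.RR`, `.Lin`, `.Kap`, `.Arch`: `DT.GL.tRR DT.GL.tArch : DT.GL.C_RR`, `DT.GL.tLin`, `DT.GL.tKap` (`kap = DT.kap`, `zet 3` there; `DT.GL.zet3_prim`). PROOF. Pnt: `z0, d`. `ζ = zet (3^N)` (or any primitive root of order `3^N`: `HasEnoughRootsOfUnity`, `DT.zet_prim`-like), ZtD: `th`. Un4 for `c ∈ D`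
(`IsRep.mem`, S_G3 (1)): `LD (u c) (s c)`, `GE P (3/8 - 4/3^N) (s c)`, `u c = uN f N m T c`, `s c = SN f N m T c`. `χ' c = χ c * oN c ^ e`: `χ' c = 0` or `χ' c ^ m' = 1`, `m' = 2 m0` prime to `3` (IsChi; `oN c = ± 1` for `c` prime to `3`: `NI c` is prime to `3`, `aO6`). Lin for `χ'`: `r, b, ε` (`ε i c : ℕ`). For `c ∈ D` the element `ρ c = χ' c - ∑ i, ε i c * χ' (b i)` is in
`Algebra.adjoin ℤ (Set.range χ')` and in `M_P`, so `TP P 3 (ρ c)` (RR). `w i = ∏_(c ∈ D) u c ^ ε i c`: in `Mn n t f N`, a unit. For `g` with `DT.GL.DD (Mn n t f) P g` (this is `IsD n t f P g`; then `g (u c) = u c`, `g (zet 3) = zet 3`): `∑ χ' c * (kap (u c) g).val = ∑ ρ c * (..) + ∑ i, (∑_(c ∈ D) ε i c * (kap (u c) g).val : ℕ) * χ' (b i)`, so the last sum is in `M_P` and by Lin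
`3 ∣ ∑_(c ∈ D) ε i c * (kap (u c) g).val` for all `i`; in `ZMod 3` this is `kap (w i) g = 0` (`tKap` (4)). DL.C_LDr (4), (5): `LD (w i) (∑_(c ∈ D) ε i c * s c)`; Res: `j i : ℕ` with `GE P (11/8 - 4/3^N) (∑_c ε i c * s c + j i * th)`. `C = ∑ i, j i * χ' (b i)`: `VP`, fixed by inertia (Rou for `χ' (b i)`), so `Cn P C`. `∑ χ' c * s c + C * th = ∑ ρ c * s c + ∑ i, χ' (b i) * (∑_c ε i c * s c + j i * th)` is
`GE P (11/8 - 4/3^N)`: the first sum by `GE P 1 (ρ c)` (`GE.tp_iff`) and `GE.mul`. Finally `s c = -(..)`: negate. -/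
def S_LSS : Prop :=
  S_G3 → DL.C_Der → DL.C_LDr → C_Pi → C_Gen → C_Rou → C_Pnt → C_ZtD → C_Un4 → C_Res → C_LSS

/-! ## The composition -/

/-- The inputs of this part (besides `GLIn`, `GLOut`). -/
structure GLInB : Prop where
  BC : S_BC
  Cv : S_Cv
  R2 : S_R2
  D9 : S_D9
  Tam : S_Tam
  GM : S_GM
  G3 : S_G3

/-- The output of this file. -/
structure GBOut : Prop where
  Rou : C_Rou
  Odq : C_Odq
  Pnt : C_Pnt
  LSS : C_LSS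

theorem asmGB (i : GLIn) (j : GLInB) (o : DL.Out) (g : GLOut) (zt : C_Zt) (rou : S_Rou) (odq : S_Odq)
    (kud : S_Kud) (tru : S_Tru) (iso : S_Iso) (trh : S_Trh) (tht : S_Tht) (ztd : S_ZtD) (pnt : S_Pnt)
    (mnf : S_Mnf) (un4 : S_Un4) (cpt : S_Cpt3) (ga : S_Ga3) (cu : S_Cu) (sitm : S_SitM) (res : S_Res)
    (lss : S_LSS) : GBOut :=
  have Odq := odq i.D2 g.In g.Act
  have Tru := tru i.XOm j.R2 o.Cn o.Der o.Kum g.In g.Act g.Pi g.Gen Odq (kud j.BC i.R1)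
  have Trh := trh i.D2 o.Cn o.Der g.In g.Act g.Pi g.Gen zt Odq Tru (iso i.XOm)
  have Tht := tht j.Cv i.D2 j.D9 o.Cn o.Der o.LDr g.In g.Act g.Pi g.Gen Odq Trh
  have ZtD := ztd i.XOm o.Der o.Cj o.LDr g.In g.Act g.Pi g.Gen g.FixH zt Odq Trh
  have Mnf := mnf j.GM g.In
  have Un4 := un4 o.LDr g.Pi g.Gen g.FixH Mnf Tht
  have Res := res o.Der o.LDr o.Rt g.Pi g.Gen g.FixH Mnf (cu cpt ga) (sitm j.Tam j.GM)
  ⟨rou, Odq, pnt, lss j.G3 o.Der o.LDr g.Pi g.Gen rou pnt ZtD Un4 Res⟩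

end Pool.Agent.DM.GL
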