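import Pool.Agent.Lib.DN.O.All
import Pool.Agent.Lib.DN.B.All
import Pool.Agent.Lib.DL.Spec
import Pool.Agent.Lib.DM.IfaceC

/-!
# Theorem DM (`p = 3`, `3` inert), part GL (author helper85), first file: the tower at a prime above `3`

`P` above `3`. `z = z0 + d`, `z0` of order prime to `3`, `2 z0 ∉ O`, `d` of exact order `3 ^ N` modulo `O = Lam ⊤`:
`π = pH z0 d 1 = X(z) - X(z0)` has valuation `1/(8 9^(N-1))`, its conjugates under the inertia group are the numbers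
`pH z0 d h = X(z0 + h d) - X(z0)`, `h ∈ O` prime to `3`. This file: the instance of the abstract theory `DL/Spec.lean` (helper89): `DL.Gen` for
`I = P.inertia Gal(Om/ℚ)`, `p = 3`, `e = 1`. There are no fields: `x` is in `K0(π)` iff it is fixed by the inertia elements of class `1` (`C_Gen`).

Tools: `DL/Va.lean` (the valuation `vP P x = DL.vl P 3 x`, `v(3) = 1`; `GE P q x`: `v(x) ≥ q` or `x = 0`; lemmas `DL.vl_mul`, `DL.vl_inv`, `DL.vl_div`, `DL.vl_pow`, `DL.vl_prod`, `DL.vl_add`, `DL.vl_add_lt`, `DL.vl_nonneg`, `DL.vl_pos`,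
`DL.vl_zero_iff`, `DL.vl_of_up`, `DL.vl_inertia`, `DL.vl_eq`, `DL.GE.add`, `.sub`, `.neg`, `.mul`, `.mul_left`, `.mul_right`, `.sum`, `.mono`, `.vp_iff`, `.tp_iff`, `.mp`, `.inertia`, `.div`; the first argument is `pl hP : DL.Pl P 3` for
`hP : Ab3 P`), the instance `P.IsPrime`: `have := hP.1.1`; `hP.2 : MP P 3`. `DN/Base.lean` (`nat_dvd_iff`, `cop_..`, `lam_..`, `toC_..`, `toO_..`, `tor_..`), `DI/Val.lean` (`VP.add`, `UP.mul`, `VP.inertia`, ...). Parts O, L, B of `DN` are proved for all `[SqN n t]`: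
`aO1`, `aO2`, `aO3`, `aO5` - `aO11`, `aL1` - `aL5`, `aB1` .. (statements `S_O1` .. in `DN/Iface.lean`, `DN/O/Spec.lean`). The statements `S_B7`, `S_XOm`, `S_R1`, `S_D1`, .. in this namespace are those of `DM/Iface.lean`; `DS.S_E1`, .. those of
`DS/Iface.lean`. `Cop v 3 ↔ ¬ 3 ∣ v`: `cop3_iff` below.

RULES: the statement `S_X` is to be proved as `theorem tX : S_X` in the module `Pool/Agent/Lib/DM/GL/X.lean` with the first
lines `import Pool.Agent.Lib.DM.GL.Spec`, `set_option autoImplicit false`, `open scoped Pointwise`, `noncomputable section`,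
`namespace Pool.Agent.DM.GL` and the `open` lines of this file. Auxiliary declarations are `private`. Every `C_X` is a statement, `S_X` the
implication from the statements used to `C_X`. All modules are independent. Most are edits of the module of the same name in `DN/GL/` (`2 → 3`, `15 → 20`, `4 → 9`).
-/

set_option autoImplicit false

open scoped Pointwise

noncomputable section

namespace Pool.Agent.DM.GL

open Pool.Agent.MuZ Pool.Agent.FW Pool.Agent.DN Pool.Agent.DM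
open Pool.Agent.DI (io ofC io_inj exists_io io_ofC ofC_io VP MP UP TP ex)
open Pool.Agent.DT (kap cbr)

variable {n t : ℕ}

/-! ## Definitions -/

/-- `v(x) ≥ q` or `x = 0`; `v(3) = 1`. -/
abbrev GE (P : Ideal ZZ) (q : ℚ) (x : Om) : Prop := DL.GE P 3 q x

/-- The valuation at `P`, `v(3) = 1`. -/
abbrev vP (P : Ideal ZZ) (x : Om) : ℚ := DL.vl P 3 x

/-- `P` is above `3`. -/
theorem pl {P : Ideal ZZ} (h : Ab3 P) : DL.Pl P 3 := ⟨by norm_num, by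
  have h1 := h.2
  rw [Nat.cast_ofNat]
  exact h1⟩

/-- The inertia element `s` acts on the torsion of level `f 3 ^ N` as `h`, `h = 1` modulo `f`. -/
structure Cls (P : Ideal ZZ) (f N : ℕ) (h : OO n t) (s : Gal(Om/ℚ)) : Prop where
  ine : s ∈ P.inertia Gal(Om/ℚ)
  one : (f : OO n t) ∣ h - 1
  cop : Cop h 3
  psi : Psi s (f * 3 ^ N) (sp h)

/-- The point `z0 + d`: `z0` of order prime to `3`, not of order two, `d` of exact order `3 ^ N`. -/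
structure Pt (n t f N : ℕ) (z0 d : ℂ) : Prop where
  fok : Fok f
  pos : 1 ≤ N
  z : (f : ℂ) * z0 ∈ Lam (⊤ : Ideal (OO n t))
  zn : 2 * z0 ∉ Lam (⊤ : Ideal (OO n t))
  dd : (3 : ℂ) ^ N * d ∈ Lam (⊤ : Ideal (OO n t))
  dn : (3 : ℂ) ^ (N - 1) * d ∉ Lam (⊤ : Ideal (OO n t))

/-- The conjugates of the uniformizer: `X(z0 + h d) - X(z0)`. -/
def pH (z0 d : ℂ) (h : OO n t) : Om :=
  xO (⊤ : Ideal (OO n t)) (z0 + toC h * d) - xO (⊤ : Ideal (OO n t)) z0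

open Classical in
/-- The set of the conjugates. -/
def orb (n t N : ℕ) (z0 d : ℂ) : Finset Om :=
  ((Finset.range (3 ^ N) ×ˢ Finset.range (3 ^ N)).filter (fun p => ¬ (3 ∣ p.1 ∧ 3 ∣ p.2))).image
    (fun p => pH z0 d (⟨p.1, p.2⟩ : OO n t))

/-- `T` is a system of representatives modulo `3 ^ N` of the elements with the property `C`. -/
structure IsR (N : ℕ) (C : OO n t → Prop) (T : Finset (OO n t)) : Prop where
  mem : ∀ h ∈ T, C h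
  ex : ∀ v : OO n t, C v → ∃ h ∈ T, ((3 ^ N : ℕ) : OO n t) ∣ v - h
  uni : ∀ h ∈ T, ∀ h' ∈ T, ((3 ^ N : ℕ) : OO n t) ∣ h - h' → h = h'

/-- The units: `h = 1` modulo `f`, `h` prime to `3`. -/
def Un (f : ℕ) (h : OO n t) : Prop := (f : OO n t) ∣ h - 1 ∧ Cop h 3

/-- The group `1 + 3 ^ j O`: `h = 1` modulo `f` and modulo `3 ^ j`. -/
def Uj (f j : ℕ) (h : OO n t) : Prop := (f : OO n t) ∣ h - 1 ∧ ((3 ^ j : ℕ) : OO n t) ∣ h - 1

/-- The group `H'`: `h = 1` modulo `f` and modulo `9`, `N h = 1` modulo `3 ^ N`. -/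
def Hq (f N : ℕ) (h : OO n t) : Prop :=
  (f : OO n t) ∣ h - 1 ∧ (9 : OO n t) ∣ h - 1 ∧ (3 : ℤ) ^ N ∣ Nm h - 1

/-- **The derivation modulo `9`**: `x = F(π)` and `y = F'(π) W(z)` modulo `9`, `π = X(z) - X(z0)`, `z = z0 + d`. -/
abbrev Der (n t : ℕ) (P : Ideal ZZ) (z0 d : ℂ) (x y : Om) : Prop :=
  DL.Dr P 3 (P.inertia Gal(Om/ℚ)) (pH z0 d (1 : OO n t)) 2 (vO (⊤ : Ideal (OO n t)) (z0 + d)) x y

/-- The logarithmic derivative modulo `9`. -/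
abbrev LD (n t : ℕ) (P : Ideal ZZ) (z0 d : ℂ) (x y : Om) : Prop :=
  DL.LD P 3 (P.inertia Gal(Om/ℚ)) (pH z0 d (1 : OO n t)) 2 (vO (⊤ : Ideal (OO n t)) (z0 + d)) x y

/-- `P`-integral and fixed by the inertia group. -/
abbrev Cn (P : Ideal ZZ) (a : Om) : Prop := DL.Cn P (P.inertia Gal(Om/ℚ)) a

/-! ## The prime `3` in `O` -/

theorem four_Nm (v : OO n t) : 4 * Nm v = (2 * v.re + t * v.im) ^ 2 + (4 * n - t ^ 2 : ℤ) * v.im ^ 2 := by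
  unfold Nm
  ring

theorem D_mod [h : Ine3 n t] : ∃ j : ℤ, (4 * n - t ^ 2 : ℤ) = 3 * j + 1 := by
  have h1 := h.one
  have h2 : (Dk n t : ℤ) = 4 * n - t ^ 2 := Dk_cast
  refine ⟨(Dk n t : ℤ) / 3, ?_⟩
  rw [← h2]
  omega

theorem three_dvd_iff {v : OO n t} : (3 : OO n t) ∣ v ↔ (3 : ℤ) ∣ v.re ∧ (3 : ℤ) ∣ v.im := by
  have h := nat_dvd_iff (n := n) (t := t) (j := 3) (v := v)
  rw [Nat.cast_ofNat] at h
  exact h

theorem three_Nm [Ine3 n t] (v : OO n t) : (3 : ℤ) ∣ Nm v ↔ (3 : OO n t) ∣ v := by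
  rw [three_dvd_iff]
  obtain ⟨j, hj⟩ := D_mod (n := n) (t := t)
  have h4 := four_Nm v
  rw [hj] at h4
  constructor
  · rintro ⟨q, hq⟩
    have h5 : (3 : ℤ) ∣ (2 * v.re + t * v.im) ^ 2 + v.im ^ 2 :=
      ⟨4 * q - j * v.im ^ 2, by rw [hq] at h4; linear_combination -h4⟩
    have h6 : ∀ a b : ℤ, (3 : ℤ) ∣ a ^ 2 + b ^ 2 → (3 : ℤ) ∣ a ∧ (3 : ℤ) ∣ b := by
      intro a b h
      have ha : a % 3 = 0 ∨ a % 3 = 1 ∨ a % 3 = 2 := by omega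
      have hb : b % 3 = 0 ∨ b % 3 = 1 ∨ b % 3 = 2 := by omega
      have h7 : (a ^ 2 + b ^ 2) % 3 = 0 := Int.emod_eq_zero_of_dvd h
      rw [Int.add_emod, pow_two, pow_two, Int.mul_emod, Int.mul_emod b b] at h7
      rcases ha with ha | ha | ha <;> rcases hb with hb | hb | hb <;> rw [ha, hb] at h7 <;>
        norm_num at h7 <;> omega
    obtain ⟨h7, h8⟩ := h6 _ _ h5
    refine ⟨?_, h8⟩
    obtain ⟨y, hy⟩ := h8
    have h9 : (3 : ℤ) ∣ 2 * v.re := by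
      rw [hy] at h7
      obtain ⟨z, hz⟩ := h7
      exact ⟨z - t * y, by linear_combination hz⟩
    omega
  · rintro ⟨⟨x, hx⟩, ⟨y, hy⟩⟩
    refine ⟨3 * (x ^ 2 + t * x * y + n * y ^ 2), ?_⟩
    unfold Nm
    rw [hx, hy]
    ring

theorem cop3_iff [Ine3 n t] (v : OO n t) : Cop v 3 ↔ ¬ (3 : OO n t) ∣ v := by
  rw [← three_Nm]
  unfold Cop
  rw [isCoprime_comm]
  exact Int.prime_three.coprime_iff_not_dvd

/-! ## The modules -/

/-- **Every inertia element has a class.** -/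
def C_In : Prop :=
  ∀ (n t : ℕ) [Ine3 n t] (P : Ideal ZZ), Ab3 P → (∀ τ ∈ P.inertia Gal(Om/ℚ), τ ∈ GK n t) ∧
    ∀ f N : ℕ, Fok f → 1 ≤ N →
    (∀ τ ∈ P.inertia Gal(Om/ℚ), ∃ h : OO n t, Cls P f N h τ) ∧
    (∀ (τ : Gal(Om/ℚ)) (h h' : OO n t), Cls P f N h τ → Cls P f N h' τ → ((3 ^ N : ℕ) : OO n t) ∣ h - h') ∧
    (∀ (τ : Gal(Om/ℚ)) (h h' : OO n t), Cls P f N h τ → (f : OO n t) ∣ h' - 1 →
      ((3 ^ N : ℕ) : OO n t) ∣ h' - h → Cls P f N h' τ) ∧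
    (∀ (τ τ' : Gal(Om/ℚ)) (h h' : OO n t), Cls P f N h τ → Cls P f N h' τ' → Cls P f N (h * h') (τ * τ')) ∧
    Cls P f N (1 : OO n t) 1 ∧
    (∀ (τ : Gal(Om/ℚ)) (h h' : OO n t), Cls P f N h τ → (f : OO n t) ∣ h' - 1 →
      ((3 ^ N : ℕ) : OO n t) ∣ h * h' - 1 → Cls P f N h' τ⁻¹) ∧
    (∀ τ : Gal(Om/ℚ), Cls P f N (1 : OO n t) τ ↔
      τ ∈ P.inertia Gal(Om/ℚ) ∧ Psi τ (f * 3 ^ N) (⊤ : Ideal (OO n t))) ∧
    ∀ (τ : Gal(Om/ℚ)) (h : OO n t) (f' N' : ℕ), Cls P f N h τ → Fok f' → f' ∣ f → 1 ≤ N' → N' ≤ N →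
      Cls P f' N' h τ

/-- (150 lines) **In** (from DS.E1, E4a). Edit of `DN/GL/In.lean` (and the beginning of `DN/GL/Unr.lean`). PROOF. FIRST CLAIM: `τ` inertia: `τ (wO)` is a root of `y² = t y - n`, so it is `wO` or `t - wO`; `τ wO - wO ∈ P` (`DI.VP.inertia`); if `τ wO = t - wO` then `t - 2 wO ∈ P`, and `(t - 2 wO)² = t² - 4 n = -Dk`, `MP P (Dk)`, but `Dk = 1` modulo `3`
(`Ine3.one`): contradiction (`¬ MP P 1`). So `τ ∈ GK` (`mem_GK_iff`). Let `60 ∣ f 3^N`, so `15 ∣ f 3^N`. (1) `Psi τ (f 3^N) a` (S_E1 (1)), `Ray f a ⊤` (S_E4a): `sp α * a = sp α' * ⊤`, `α, α'` nonzero, prime to `f`, `f ∣ α - α'`. `a ≠ ⊥` is prime to `f 3^N` (`Psi.cop`, see `DN/Defs.lean`). By `aO6` (5) there is `x ∈ a`, `x ≠ 0`, `f 3^N ∣ x - 1`.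
`α x = α' y`; `sp y * a = sp x` (cancel, as in `DN/GL/In.lean`), `y` is prime to `f 3^N`, `y = 1` modulo `f`; `y h = 1` modulo `f 3^N` (`cop_inv`), `f ∣ h - 1`, `Cop h 3`, `Ray (f 3^N) a (sp h)`: `Psi τ (f 3^N) (sp h)` (S_E1 (3)). (2) `Ray (f 3^N) (sp h) (sp h')` (S_E1 (2)) gives a unit `e` with `f 3^N ∣ h - e h'` (`aO7` (8)),
`f ∣ 1 - e`, `e = 1` (`aO7` (9), `20 ≤ f`). (3) `f 3^N ∣ h' - h` (`f` prime to `3`; `cop` of `h'`: `cop_congr`), so `Ray (f 3^N) (sp h) (sp h')`, S_E1 (3). (4) S_E1 (4). (5) `Psi 1 (f 3^N) ⊤`: all fields of `Psi` are trivial (`⊤ * b = b`), `sp 1 = ⊤`. (6) `Psi τ⁻¹ (f 3^N) a'` exists (S_E1 (1), `τ⁻¹ ∈ GK`), and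
`Psi (τ * τ⁻¹) (f 3^N) (sp h * a')` (S_E1 (4)), so `Ray (f 3^N) (sp h * a') ⊤` (S_E1 (2) and (5)) and `Ray (f 3^N) (sp h * sp h') ⊤` (`f 3^N ∣ h h' - 1`: both `= 1` modulo `f`), cancel `sp h` (`aO7` (5)): `Ray (f 3^N) a' (sp h')`, S_E1 (3). (7) `sp 1 = ⊤`, `f ∣ 0`, `Cop 1 3`. (8) S_E1 (5) (`f' 3^N' ∣ f 3^N`). -/
def S_In : Prop := DS.S_E1 → S_E4a → C_In

/-- The action on points. -/
def C_Act : Prop :=
  ∀ (n t : ℕ) [Ine3 n t] (P : Ideal ZZ), Ab3 P → ∀ (f N : ℕ) (h : OO n t) (τ : Gal(Om/ℚ)), Fok f → 1 ≤ N →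
    Cls P f N h τ → (∀ ζ : Om, ζ ^ 3 ^ N = 1 → τ ζ = ζ ^ (Nm h).toNat) ∧ ∀ b : Ideal (OO n t), G30 b →
      τ (cO b) = cO b ∧ (∀ c : Ideal (OO n t), G30 c → τ (rO b c) = rO b c) ∧
      (∀ z : ℂ, ((f * 3 ^ N : ℕ) : ℂ) * z ∈ Lam b →
        τ (xO b z) = xO b (toC h * z) ∧ τ (vO b z) = vO b (toC h * z)) ∧
      (∀ z : ℂ, (f : ℂ) * z ∈ Lam b → τ (xO b z) = xO b z ∧ τ (vO b z) = vO b z) ∧
      ∀ m : Ideal (OO n t), m ≠ ⊥ → PrI m 30 → NI m ∣ f →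
        ∀ z : ℂ, ((f * 3 ^ N : ℕ) : ℂ) * z ∈ Lam b → z ∉ Lam (m * b) →
          τ (gO m b z) = gO m b (toC h * z) ∧ τ (Theta m b z) = Theta m b (toC h * z)

/-- (130 lines) **Act** (from B7, R1, D8, DS.E6, E10, In). Edit of `DN/GL/Act.lean`. PROOF. S_E10 for `N := f * 3 ^ N` (`60` divides it), `a = sp h` (`h ≠ 0`): `τ (xO b z) = xO (sp h * b) z`, and `XC (sp h * b) z = XC b (toC h * z)`, `WC`, `cC`, `fr (sp h * b) = toC h * fr b` by S_B7 (first item: `4 ∣ h - 1` since `20 ∣ f ∣ h - 1`); apply `ofC` (definitions of `xO`, `vO`, `cO`).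
`rO`: `fr (sp h * c) / fr (sp h * b) = fr c / fr b` (`toC h ≠ 0`). `gO`: `gC m (sp h * b) z = gC m b (toC h * z)`: `KC (sp h * b') z = toC h * KC b' (toC h * z)` (`aB7`, first item, see `DN/GL/Act.lean`) for `b' = m * b` (`m * (sp h * b) = sp h * (m * b)`) and `b' = b`. `Theta`: S_D8 (third item). `z` with `f z ∈ Lam b`: `toC h * z - z = toC (h - 1) * z ∈ Lam b`
(`f ∣ h - 1`), periods (S_XOm: `cng`; or `aB1`). `ζ`: DS.S_E6 with `N := f 3^N`, `ζ ^ (f 3^N) = 1`, `τ ∈ GK` (In), `NI (sp h) = Nm h` (`aO2`). -/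
def S_Act : Prop := S_B7 → S_R1 → S_XOm → S_D8 → DS.S_E6 → S_E10 → C_In → C_Act

/-- Finite sets of representatives. -/
def C_Rep : Prop :=
  ∀ (n t : ℕ) [Ine3 n t] (N : ℕ), 1 ≤ N → (∀ C : OO n t → Prop, ∃ T : Finset (OO n t), IsR N C T) ∧
    (∀ (C : OO n t → Prop) (T T' : Finset (OO n t)), IsR N C T → IsR N C T' → T.card = T'.card) ∧
    ∀ f : ℕ, 0 < f → f.Coprime 3 →
      (∀ v : OO n t, ∃ v' : OO n t, (f : OO n t) ∣ v' - 1 ∧ ((3 ^ N : ℕ) : OO n t) ∣ v' - v) ∧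
      (∀ T : Finset (OO n t), IsR N (Un f) T → T.card = 8 * 9 ^ (N - 1)) ∧
      ∀ j : ℕ, j ≤ N → ∀ T : Finset (OO n t), IsR N (Uj f j) T → T.card = 9 ^ (N - j)

/-- (170 lines) **Rep**. Edit of `DN/GL/Rep.lean`. PROOF. `O/3^N` is finite: the map `v ↦ (v.re, v.im)` modulo `3^N` is injective on classes (`nat_dvd_iff`). For every class which meets `C` choose an element. (2) The obvious bijection. (3) `aO11` (last item) or the Chinese remainder theorem for both coordinates. (4) `h ↦ (h.re, h.im)` modulo `3^N` maps `T` bijectively onto the pairs in `(ZMod (3^N))²` which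
are not both divisible by `3` (`cop3_iff`, `three_dvd_iff`): `9^N - 9^(N-1)` pairs. (5) Pairs congruent to `(1, 0)` modulo `3^j`: `(3^(N-j))²`. (For the counting one may replace `T` by explicit systems and use (2).) -/
def S_Rep : Prop := C_Rep

/-- Valuations at the conjugates. -/
def C_Pi : Prop :=
  ∀ (n t : ℕ) [Ine3 n t] (P : Ideal ZZ), Ab3 P → ∀ (f N : ℕ) (z0 d : ℂ), Pt n t f N z0 d →
    (∀ h : OO n t, Cop h 3 → pH z0 d h ≠ 0 ∧ vP P (pH z0 d h) = 1 / (8 * 9 ^ (N - 1)) ∧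
      Tor n t (z0 + toC h * d) ∧ z0 + toC h * d ∉ Lam (⊤ : Ideal (OO n t)) ∧
      ¬ IK P (⊤ : Ideal (OO n t)) (2 * (z0 + toC h * d)) ∧
      VP P (xO (⊤ : Ideal (OO n t)) (z0 + toC h * d)) ∧ UP P (vO (⊤ : Ideal (OO n t)) (z0 + toC h * d))) ∧
    VP P (xO (⊤ : Ideal (OO n t)) z0) ∧
    (∀ h h' : OO n t, ((3 ^ N : ℕ) : OO n t) ∣ h - h' → pH z0 d h = pH z0 d h') ∧
    (∀ (h h' : OO n t) (j : ℕ), Cop h 3 → Cop h' 3 → j < N → ((3 ^ j : ℕ) : OO n t) ∣ h - h' →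
      ¬ ((3 ^ (j + 1) : ℕ) : OO n t) ∣ h - h' → pH z0 d h - pH z0 d h' ≠ 0 ∧
        vP P (pH z0 d h - pH z0 d h') = 9 ^ j / (8 * 9 ^ (N - 1))) ∧
    ∀ (f' : ℕ) (h : OO n t) (τ : Gal(Om/ℚ)), Fok f' → f ∣ f' → Cls P f' N h τ → ∀ h' : OO n t,
      τ (pH z0 d h') = pH z0 d (h * h')

/-- (160 lines) **Pi** (from XOm, D1, D2, D10, Act). Edit of `DN/GL/Pi.lean`. PROOF. `b = ⊤` (`G30 ⊤`). `d` is a torsion point, `h d` with `Cop h 3` has exact order `3^N`: if `3^(N-1) (h d) ∈ O` then with `h h'' = 1` modulo `3^N` (`cop_inv`) `3^(N-1) d ∈ O`. More generally if `3^j ∣ v`, `¬ 3^(j+1) ∣ v`, `j < N` then `v = 3^j v'` with `Cop v' 3` (`cop3_iff`), so `v d` has exact order `3^(N-j)`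
(`3^(N-j) (v d) ∈ O`, `3^(N-j-1) (v d) ∉ O`). POINTS: `z = z0 + h d`; `2 z` is not `P`-primary: suppose `Qp P ⊤ (2 z)`: take `α = f` (`¬ MP P (toO f)`: `f` prime to `3`), `β = 3^N`: so `3^N (2 z) ∈ O`, `3^N (2 z0) ∈ O`, and `f z0 ∈ O`, `f` prime to `3`: `2 z0 ∈ O`, contradiction to `Pt.zn`. So `¬ IK P ⊤ (2 z)` (S_D2 (6)), `UP (vO ..)` (S_D2 (5)),
`¬ IK P ⊤ z` (S_D1: `IK` is stable under `toC 2`), `VP (xO ..)` (S_D2 (4)), `z ∉ O` (S_D1 (2)). The same with `h = 0`: `¬ IK P ⊤ (2 z0)`, `VP (xO ⊤ z0)`. S_D10 at `z0` with `d := h d`, `j := N - 1`: `UP P (pH ^ (8 * 9^(N-1)) / 3)`, so `pH ≠ 0` and `vP = 1/(8 9^(N-1))` (`DL.vl_eq` with `b = 8 * 9^(N-1)`, `a = 1`). Different `h, h'`: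
`z0 + h d = (z0 + h' d) + (h - h') d`, `(h - h') d` has exact order `3^(N-j)`: S_D10 at `z0 + h' d` with `j := N - j - 1`: `UP P (.. ^ (8 * 9^(N-j-1)) / 3)`, `vP = 1/(8 9^(N-j-1)) = 9^j/(8 9^(N-1))`. Equal classes: `(h - h') d ∈ O`: `XOm.cng`. THE ACTION: Act for `b = ⊤`, `f' 3^N` kills `z0 + h' d`: `τ (xO ⊤ (z0 + h' d)) = xO ⊤ (h (z0 + h' d))`,
`h z0 - z0 = (h - 1) z0 ∈ O` (`f' ∣ h - 1`), so it is `xO ⊤ (z0 + h h' d)`; `τ (xO ⊤ z0) = xO ⊤ z0`. -/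
def S_Pi : Prop := S_XOm → S_D1 → S_D2 → S_D10 → C_Act → C_Pi

/-- **Total ramification**: every class is the class of an inertia element. -/
def C_Sur : Prop :=
  ∀ (n t : ℕ) [Ine3 n t] (P : Ideal ZZ), Ab3 P → ∀ f N : ℕ, Fok f → 1 ≤ N →
    ∀ h : OO n t, (f : OO n t) ∣ h - 1 → Cop h 3 → ∃ τ : Gal(Om/ℚ), Cls P f N h τ

/-- (120 lines) **Sur** (from DL.K0, In, Rep, Pi). PROOF. `z0 = 1/f`, `d = 1/3^N`: `Pt n t f N z0 d` (`lam_top`; `2/f ∈ O` iff `f ∣ 2` in `O`: `aL6` (1) for `b = ⊤`, `f ≥ 20`; `3^(N-1)/3^N = 1/3 ∉ O`). `T` with `IsR N (Un f) T` (Rep), `card T = 8 * 9^(N-1)`. `A = {h ∈ T | ∃ τ, Cls P f N h τ}` (`Finset.filter`), nonempty (the class of `τ = 1`: In (5), representative in `T`: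
In (3)). `x = ∏_(h ∈ A) pH z0 d h ≠ 0`, `v(x) = card A/(8 9^(N-1))` (Pi, `DL.vl_prod`). `x` is fixed by every inertia element `τ`: `Cls P f N h0 τ` (In (1)), `τ (pH h) = pH (h0 h) = pH h'`, `h' ∈ T` the representative of `h0 h` (`Un f (h0 h)`), `h' ∈ A` by In (4), (3); `h ↦ h'` is injective on `A` (`h0` is invertible modulo `3^N`), so a bijection of `A`
(`Finset.prod_bij` or `Finset.prod_nbij'`). DL.C_K0 (`p = 3`): `v(x) ∈ ℤ`, so `8 * 9^(N-1) ∣ card A`, `0 < card A ≤ card T`: `A = T` (`Finset.eq_of_subset_of_card_le`). So every `h ∈ T` is a class, then every `h` with `Un f h` (In (3)). -/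
def S_Sur : Prop := DL.C_K0 → C_In → C_Rep → C_Pi → C_Sur

open Classical in
/-- The group `H'` is large (pigeonhole for the norm). -/
def C_Hj : Prop :=
  ∀ (n t : ℕ) [Ine3 n t] (f N : ℕ), 0 < f → f.Coprime 3 → ∀ j : ℕ, 2 ≤ j → j ≤ N → ∀ T : Finset (OO n t),
    IsR N (Hq f N) T → 3 ^ (N - j) ≤ (T.filter (fun h => ((3 ^ j : ℕ) : OO n t) ∣ h - 1)).card

/-- (120 lines) **Hj** (from Rep). Edit of `DN/GL/Hj.lean`. PROOF. `U` a system for `Uj f j` modulo `3^N`, `card U = 9^(N-j)` (Rep). The norm maps `U` to the integers `1` modulo `3^j`, modulo `3^N`: `3^(N-j)` classes. Some class has at least `3^(N-j)` elements of `U`: fix `u0` in it; for the others `u` let `u'` be an element with `f ∣ u' - 1`, `3^N ∣ u' u0 - u` (inverse of `u0` modulo `3^N f`: `cop_inv`):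
`u'` is `1` modulo `3^j`, `Nm u' Nm u0 = Nm u = Nm u0` modulo `3^N`, so `Nm u' = 1` modulo `3^N`: `Hq f N u'` (`9 ∣ u' - 1` as `j ≥ 2`). Its representative in `T` is `1` modulo `3^j` too, and the map is injective. -/
def S_Hj : Prop := C_Rep → C_Hj

open Classical in
/-- The sums of the valuations of the differences of the conjugates: the different. -/
def C_Sum : Prop :=
  ∀ (n t : ℕ) [Ine3 n t] (P : Ideal ZZ), Ab3 P → ∀ (f N : ℕ) (z0 d : ℂ), Pt n t f N z0 d →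
    (3 ≤ N → ∀ T : Finset (OO n t), IsR N (Hq f N) T → ∀ h0 ∈ T,
      DL.dl (T.image (pH z0 d)) (pH z0 d h0) ≠ 0 ∧
      3 / 8 - 4 / 3 ^ N ≤ vP P (DL.dl (T.image (pH z0 d)) (pH z0 d h0))) ∧
    ∀ T : Finset (OO n t), IsR N (Un f) T → ∀ h0 ∈ T,
      DL.dl (T.image (pH z0 d)) (pH z0 d h0) ≠ 0 ∧
      vP P (DL.dl (T.image (pH z0 d)) (pH z0 d h0)) = N - 1 / 8

/-- (220 lines) **Sum** (from Rep, Pi, Hj). Edit of `DN/GL/Sum.lean` and `DN/GL/SumU.lean`. PROOF. `pH z0 d` is injective on `T` (Pi (4): for `h ≠ h'` in `T` there is `j < N` maximal with `3^j ∣ h - h'`), so `dl (T.image (pH z0 d)) (pH z0 d h0) = ∏_(h ∈ T.erase h0) (π_(h0) - π_h)`, and its valuation is `∑_(h ≠ h0) 9^(j(h))/(8 9^(N-1))` (`DL.vl_prod`, Pi (4)).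
FIRST: `h ↦ ` (representative of) `h h0⁻¹` is a bijection of `T` (`Hq` is a group modulo `3^N`) which maps `h0` to the representative of `1` and `3^j ∣ h0 - h` iff `3^j ∣ h h0⁻¹ - 1`: we may assume `3^N ∣ h0 - 1`. With `n_j = #{h ∈ T : 3^j ∣ h - 1} ≥ 3^(N-j)` (Hj), `n_2 = card T`: `∑_(h ≠ 1) 9^(j(h)) = 81 (n_2 - 1) + ∑_(3 ≤ j < N) (9^j - 9^(j-1)) (n_j - 1) ≥
81 (3^(N-2) - 1) + ∑_(3 ≤ j < N) 8 * 9^(j-1) (3^(N-j) - 1) = 3 * 9^(N-1) - 3 * 3^N` (Abel summation: `9^(j(h)) = 81 + ∑_(3 ≤ i ≤ j(h)) (9^i - 9^(i-1))`; exchange the sums); divided by `8 * 9^(N-1)`: `3/8 - (27/8)/3^N ≥ 3/8 - 4/3^N`. SECOND: `#{h ∈ T : 3^j ∣ h - h0} = 9^(N-j)` for `1 ≤ j ≤ N` (after multiplication by an inverse of `h0` modulo `3^N f`, `cop_inv`, this is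
the card of a system for `Uj f j`, Rep (5); or directly), `card T = 8 * 9^(N-1)` (Rep (4)): `[7 * 9^(N-1) + ∑_(1 ≤ j < N) (9^(N-j) - 9^(N-j-1)) 9^j]/(8 * 9^(N-1)) = 7/8 + (N - 1)`. -/
def S_Sum : Prop := C_Rep → C_Pi → C_Hj → C_Sum

/-- **Gen.** The abstract theory applies. -/
def C_Gen : Prop :=
  ∀ (n t : ℕ) [Ine3 n t] (P : Ideal ZZ), Ab3 P → ∀ (f N : ℕ) (z0 d : ℂ), Pt n t f N z0 d →
    (∀ r : Om, r ∈ orb n t N z0 d ↔ ∃ h : OO n t, Cop h 3 ∧ r = pH z0 d h) ∧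
    DL.Gen P 3 1 (P.inertia Gal(Om/ℚ)) (orb n t N z0 d) (pH z0 d (1 : OO n t)) ∧
    vP P (DL.dl (orb n t N z0 d) (pH z0 d (1 : OO n t))) = N - 1 / 8 ∧
    ∀ f' : ℕ, Fok f' → f ∣ f' →
      (∀ (h : OO n t) (τ : Gal(Om/ℚ)), Cls P f' N h τ →
        (τ (pH z0 d (1 : OO n t)) = pH z0 d (1 : OO n t) ↔ ((3 ^ N : ℕ) : OO n t) ∣ h - 1)) ∧
      ∀ x : Om, (∀ τ : Gal(Om/ℚ), Cls P f' N (1 : OO n t) τ → τ x = x) →
        DL.Fp (P.inertia Gal(Om/ℚ)) (pH z0 d (1 : OO n t)) x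

/-- (130 lines) **Gen** (from DL.K0, In, Rep, Pi, Sur, Sum). PROOF. `r ∈ orb`: every `h` with `Cop h 3` is congruent modulo `3^N` to some `⟨x, y⟩`, `0 ≤ x, y < 3^N`, not both divisible by `3` (`cop3_iff`, `three_dvd_iff`), Pi (3); conversely `Cop ⟨x, y⟩ 3`. `Gen`: `prime`, `pl hP`, `ine` trivial, `pos`, `val`: DL.C_K0 (`j / (1 : ℕ)`), `mem`: `h = 1`. `stab`: `σ` has a class `h` for `f`
(In (1)), `σ (pH h') = pH (h h')` (Pi). `tra`: `r = pH h`; `h' = 1` modulo `f`, `3^N ∣ h' - h` (Rep (3)), `Cop h' 3`; Sur: `τ` of class `h'`: `τ (pH 1) = pH (h' * 1) = pH h`. `ab`: `σ` has a class `h`, `σ π = π`: `pH h = pH 1`, so `3^N ∣ h - 1` (otherwise Pi (4) with the maximal `j < N`, `3^j ∣ h - 1`); so `σ (pH h') = pH (h h') = pH h'` (Pi (3)).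
`ne`, `vpi`: `card (orb) = 8 * 9^(N-1)`: `orb = T.image (pH z0 d)` for a system `T` for `Un f` (Rep; Rep (3)), `pH` is injective on `T`; Rep (4). `dl`: Sum (second half) for this `T` and `h0 ∈ T` with `3^N ∣ h0 - 1`, `pH h0 = pH 1`. The last items: as in `ab`, with the classes for `f'`; `σ ∈ I`, `σ π = π`: `σ` has a class `h` for `f'`, `3^N ∣ h - 1`, so
`Cls P f' N 1 σ` (In (3)). -/
def S_Gen : Prop := DL.C_K0 → C_In → C_Rep → C_Pi → C_Sur → C_Sum → C_Gen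

/-- **FixH.** If `x` is fixed by the inertia elements with class in `H'` then its derivative has valuation at least `3/8 - 4/3^N`. -/
def C_FixH : Prop :=
  ∀ (n t : ℕ) [Ine3 n t] (P : Ideal ZZ), Ab3 P → ∀ (f N : ℕ) (z0 d : ℂ), Pt n t f N z0 d → 3 ≤ N →
    ∀ f' : ℕ, Fok f' → f ∣ f' → ∀ x y : Om, Der n t P z0 d x y →
      (∀ (h : OO n t) (τ : Gal(Om/ℚ)), Cls P f' N h τ → Hq f' N h → τ x = x) →
      GE P (3 / 8 - 4 / 3 ^ N) y

/-- (80 lines) **FixH** (from DL.Fix, Rep, Pi, Sur, Sum, Gen). Compare `DN/GL/Fix.lean`. PROOF. `T` a system for `Hq f' N` modulo `3^N` (Rep); it is one for `Hq f N` too up to a change of the representatives: let `T2` be a system for `Hq f N`; every `h ∈ T2` is congruent modulo `3^N` to an `h' = 1` modulo `f'` (Rep (3)) with `Hq f' N h'` (`Nm_congr`, `9 ∣ 3^N`). So `S' := T2.image (pH z0 d)`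
satisfies: for `r ∈ S'`, `r = pH h`, `h ∈ T2`, `h'` as before, `τ` of class `h'` for `f'` (Sur; `Cop h' 3` since `3 ∣ h' - 1`): `τ π = pH (h' * 1) = pH h = r` and `τ x = x`. `π ∈ S'`: `h0 ∈ T2` with `3^N ∣ 1 - h0`. DL.C_Fix with `q' = 3/8 - 4/3^N` (`0 ≤ q' ≤ 2`, `q' ≤ v(dl S' π)` by Sum), `VP P W` (Pi). -/
def S_FixH : Prop := DL.C_Fix → C_In → C_Rep → C_Pi → C_Sur → C_Sum → C_Gen → C_FixH

/-- The valuations of the numbers `1 - ζ`. -/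
def C_Zn : Prop :=
  ∀ P : Ideal ZZ, P.IsPrime → MP P 3 → ∀ (N : ℕ) (ζ : Om), 1 ≤ N → IsPrimitiveRoot ζ (3 ^ N) →
    1 - ζ ≠ 0 ∧ vP P (1 - ζ) = 1 / (2 * 3 ^ (N - 1))

/-- (50 lines) **Zn.** PROOF. `Pool.Agent.DT.GL.tX0 : DT.GL.C_X0` (module `DT/GL/X0.lean`, import it): `1 - ζ ≠ 0` and `UP P ((1 - ζ) ^ 3 ^ (N - 1) / lam)`, `lam = 1 - zet 3`; `lam_sq`, `lamsq_tp`, `tp3_iff` (`DT/GL/Tp.lean`): `lam ^ 2 = -3 zet 3`, so `UP P (lam ^ 2 / 3)`. Hence `UP P ((1 - ζ) ^ (2 * 3 ^ (N - 1)) / 3)`; `DL.vl_eq` with `b = 2 * 3 ^ (N - 1)`, `a = 1`. -/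
def S_Zn : Prop := C_Zn

/-- **Tra.** The trace over `H'`. -/
def C_Tra : Prop :=
  ∀ (n t : ℕ) [Ine3 n t] (P : Ideal ZZ), Ab3 P → ∀ (f N : ℕ) (z0 d : ℂ), Pt n t f N z0 d → 3 ≤ N →
    ∀ f' : ℕ, Fok f' → f ∣ f' → ∀ x : Om, (∀ τ : Gal(Om/ℚ), Cls P f' N (1 : OO n t) τ → τ x = x) → VP P x →
      ∀ (T : Finset (OO n t)) (s : OO n t → Gal(Om/ℚ)), IsR N (Hq f' N) T →
        (∀ h ∈ T, Cls P f' N h (s h)) → GE P (3 / 8 - 6 / 3 ^ N) (∑ h ∈ T, s h x)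

/-- (160 lines) **Tra** (from DL.Pol, DL.Cn, DL.Mono, In, Act, Rep, Pi, Sum, Zn, Gen). Edit of `DN/GL/Tra.lean`. PROOF. `S' = T.image (pH z0 d)` (`pH` is injective on `T`), `h1 ∈ T` with `3^N ∣ h1 - 1`, `π = pH h1`, `δ_h = dl S' (pH h)`, `δ = δ_(h1)`, `σ = v(δ) ≥ 3/8 - 4/3^N` (Sum for `Hq f N`: change the representatives as in FixH: the set `S'` is the same for a system for `Hq f N`).
`ζ` primitive of order `3^N`, `λ = 1 - ζ`, `v(λ) = 1/(2 3^(N-1)) = (3/2)/3^N` (Zn); `m` = the largest natural number with `m v(λ) ≤ σ`, so `v(λ^m) > σ - v(λ) ≥ 3/8 - (11/2)/3^N ≥ 3/8 - 6/3^N` (if `3/8 - 6/3^N < 0` the claim follows from `VP`). `s_h λ = λ` for `h ∈ T` (Act: `s_h ζ = ζ^(Nm h)`, `Nm h = 1` modulo `3^N`). `y = x δ/λ^m` is `P`-integral and `Fp π y`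
(Gen, last item: `x`, `δ`, `λ` are fixed by the elements of class `1`), so `y = F(π)` (DL.C_Mono); `s_h y = F(pH h)` (DL.C_Cn; Pi: `s_h π = pH h`), `s_h δ = δ_h` (`h' ↦` representative of `h h'` is a bijection of `T` which maps `h1` to `h`). So `∑ s_h x = λ^m ∑ s_h y / s_h δ = λ^m ∑ F(pH h)/δ_h ∈ λ^m V_P` (DL.C_Pol (2) with the set `S'`). -/
def S_Tra : Prop :=
  DL.C_Pol → DL.C_Cn → DL.C_Mono → C_In → C_Act → C_Rep → C_Pi → C_Sum → C_Zn → C_Gen → C_Tra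

/-! ## The composition -/

/-- The inputs of part GL. -/
structure GLIn : Prop where
  B7 : S_B7
  XOm : S_XOm
  R1 : S_R1
  D1 : S_D1
  D2 : S_D2
  D8 : S_D8
  D10 : S_D10
  E1 : DS.S_E1
  E4a : S_E4a
  E6 : DS.S_E6
  E10 : S_E10

/-- The output of part GL, first file. -/
structure GLOut : Prop where
  In : C_In
  Act : C_Act
  Rep : C_Rep
  Pi : C_Pi
  Sur : C_Sur
  Sum : C_Sum
  Gen : C_Gen
  FixH : C_FixH
  Zn : C_Zn
  Tra : C_Tra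

theorem asmGL (i : GLIn) (o : DL.Out) (inn : S_In) (act : S_Act) (rep : S_Rep) (pi : S_Pi) (sur : S_Sur)
    (hj : S_Hj) (sm : S_Sum) (gen : S_Gen) (fix : S_FixH) (zn : S_Zn) (tra : S_Tra) : GLOut :=
  have In := inn i.E1 i.E4a
  have Act := act i.B7 i.R1 i.XOm i.D8 i.E6 i.E10 In
  have Pi := pi i.XOm i.D1 i.D2 i.D10 Act
  have Sur := sur o.K0 In rep Pi
  have Sm := sm rep Pi (hj rep)
  have Gen := gen o.K0 In rep Pi Sur Sm
  { In := In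
    Act := Act
    Rep := rep
    Pi := Pi
    Sur := Sur
    Sum := Sm
    Gen := Gen
    FixH := fix o.Fix In rep Pi Sur Sm Gen
    Zn := zn
    Tra := tra o.Pol o.Cn o.Mono In Act rep Pi Sm zn Gen }

end Pool.Agent.DM.GL
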