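import Pool.Agent.Lib.DM.GL.Spec

/-!
# Theorem DM (`p = 3`, `3` inert), part GL (author helper85), second file: the tame part, part T of the interface, the trace lemma

`w8 ^ 8 = 3`, `zt P v` the eighth root of unity congruent to `v` modulo `P`: `τ w8 = zt P h * w8` for the inertia elements `τ` of class `h`.
`S_T0`, `S_T1`, `S_T2` of `DM/IfaceC.lean`. The trace lemma `TrZ` for the group `(ℤ/3^N)^* / ± 1` (note 4294, section 1).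

RULES as in `GL/Spec.lean`: `theorem tX : S_X` in the module `Pool/Agent/Lib/DM/GL/X.lean` (for `S_gX` the name `tgX`) with the first line
`import Pool.Agent.Lib.DM.GL.SpecT`. All modules are independent.
-/

set_option autoImplicit false

open scoped Pointwise

noncomputable section

namespace Pool.Agent.DM.GL

open Pool.Agent.MuZ Pool.Agent.FW Pool.Agent.DN Pool.Agent.DM
open Pool.Agent.DI (io ofC io_inj exists_io io_ofC ofC_io VP MP UP TP ex)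
open Pool.Agent.DT (kap cbr)

variable {n t : ℕ}

/-- The eighth roots of unity `zt P v` and `w8`. -/
def C_Zt : Prop :=
  S_T0 ∧ w8 ≠ 0 ∧ (∀ P : Ideal ZZ, Ab3 P → vP P w8 = 1 / 8 ∧
    ∀ y y' : Om, y ^ 8 = 1 → y' ^ 8 = 1 → y ≠ y' → UP P (y - y')) ∧
  ∀ (n t : ℕ) [Ine3 n t] (P : Ideal ZZ), Ab3 P →
    (∀ v : OO n t, Cop v 3 → (3 : OO n t) ∣ v ^ 8 - 1) ∧
    (∀ v : OO n t, Cop v 3 → ∀ y : Om, y ^ 8 = 1 → MP P (y - toO v) → y = zt P v) ∧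
    (∀ v : OO n t, Cop v 3 → UP P (toO v) ∧ UP P (zt P v)) ∧ zt P (1 : OO n t) = 1

/-- (150 lines) **Zt**. Compare `DN/GL/Zt.lean`, `DN/GL/T0g.lean`. PROOF. `w8`: `Om` is algebraically closed (`IsAlgClosed.exists_pow_nat_eq`); `8 v(w8) = v(3) = 1`. LEMMA: `y ^ 8 = 1`, `MP P (y - 1)` give `y = 1`: `(y - 1) ∑_(i<8) y^i = 0` and `∑ y^i - 8 ∈ P`, `8` is a unit at `P` (`8 = 9 - 1`), so the sum is not `0`. Hence (for `y / y'`, `y'` a unit, `y'^8 = 1`)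
different eighth roots of unity are incongruent, and their difference is integral: `UP`. FERMAT: `3 ∣ v ^ 3 - cjO v` (components: `v = x + y w`, `x^3 = x`, `y^3 = y` modulo `3`, `w^3 = (t² - n) w - t n`, `n = t² + 1` modulo `3` (`D_mod`), `t ∈ {0, 1}`), so `3 ∣ v ^ 4 - Nm v` (`aO2`: `v * cjO v = Nm v`) and `3 ∣ v ^ 8 - 1` for `Cop v 3` (`(Nm v)² = 1` modulo `3`).
EXISTENCE for `Cop v 3`: `ξ` a primitive eighth root of unity of `Om`, `X ^ 8 - 1 = ∏_(i<8) (X - ξ^i)` (`IsPrimitiveRoot`, `X_pow_sub_one_eq_prod`; or factor by hand: `X^8 - 1 = (X-1)(X+1)(X²+1)(X⁴+1)`, `X²+1 = (X-i)(X+i)`, ..) at `X = toO v`: the left side is in `3 V_P`, so one factor is in `P`. So `zt ^ 8 = 1`, `MP P (zt - toO v)` (definition of `zt`);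
`toO v ^ 8 - zt ^ 8 = (toO v - zt) * S`, `S = 8 zt^7` modulo `P` is a unit, the left side is in `3 V_P`: `TP P 3`. `¬ Cop v 3`: `3 ∣ v` (`cop3_iff`), `MP P (toO v)`, and `y^8 = 1` is a unit: the condition in the definition of `zt` is false. MULTIPLICATIVITY, `zt 1 = 1`: uniqueness. `3 ∣ v - u → zt v = zt u`: uniqueness; conversely `MP P (toO (v - u))`, so
`v - u` is not prime to `3` (`toO (x) * toO (cjO x) = Nm x`, prime to `3`, would be in `P`), `3 ∣ v - u`. `zt v ^ 4`: congruent to `Nm v` modulo `P`, and `zt^4 = ± 1`; `1`, `-1` are incongruent. INERTIA: `σ zt - zt ∈ P` (`DI.VP.inertia`), `(σ zt)^8 = 1`: uniqueness. -/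
def S_Zt : Prop := C_Zt

/-- The action of inertia on `w8`. -/
def C_Tc : Prop :=
  ∀ (n t : ℕ) [Ine3 n t] (P : Ideal ZZ), Ab3 P → ∀ (f N : ℕ) (h : OO n t) (τ : Gal(Om/ℚ)), Fok f → 1 ≤ N →
    Cls P f N h τ → τ w8 = zt P h * w8

/-- (60 lines) **Tc** (from B7, Kp, Act, Zt). PROOF. `κ = kp ⊤ = 1/(3 vO ⊤ (1/3)^3)`, `κ ≠ 0` (`UP P (kp ⊤ / w8)`: S_Kp (1)). `τ (vO ⊤ (1/3)) = vO ⊤ (toC h * (1/3))` (Act, `f 3^N (1/3) ∈ Lam ⊤`) `= vO (sp h * ⊤) (1/3)` (S_B7, first item, `4 ∣ h - 1`; apply `ofC`), so `τ κ = kp (sp h * ⊤) = kp (sp h)`. S_Kp (3) (`20 ∣ h - 1`): `TP P (3 w8²) (kp (sp h) - zt P h * kp ⊤)`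
(for `b = ⊤`; `sp h * ⊤ = sp h`). `u = κ / w8` is a unit, so `MP P (τ u - u)`, `τ u = τ κ / τ w8`. Let `ζ = τ w8 / w8`, `ζ^8 = 1` (`w8^8 = 3`). `τ κ = zt κ + 3 w8² y`, divide by `w8`: `τ κ / w8 - zt u ∈ P`, and `τ κ / w8 = ζ τ u`, `MP P (ζ τ u - ζ u)`: `MP P ((ζ - zt) u)`, `MP P (ζ - zt)`, so `ζ = zt P h` (Zt: different eighth roots of unity are incongruent). -/
def S_Tc : Prop := S_B7 → S_Kp → C_Act → C_Zt → C_Tc

/-- (40 lines) **gT1.** `S_T1` (from In, Sur, Tc, DS.E1). `Cls P F0 N h σ` is the conjunction of `ine`, `one`, `cop`, `psi`. -/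
def S_gT1 : Prop := C_In → C_Sur → C_Tc → S_T1

/-- (90 lines) **gT2.** `S_T2` (from DL.TrH, In, Rep, Pi, Gen, Zt). PROOF. `f := F0`, `z0 = 1/F0`, `d = 1/3^N`: `Pt n t F0 N z0 d` (`lam_top`, `aL6` (1) for `b = ⊤`; see S_Sur). DL.C_TrH with `e = 1`, `I = P.inertia`, `S = orb`, `π = pH z0 d 1` (Gen), `SH = {π}`, `z = y`, `l = 3 ^ N`, `T = A`, `s`. Hypotheses: `Fp I π y`: Gen (last item with `f' = F0`): an element `τ` with `Cls P F0 N 1 τ` satisfies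
`Psi τ (F0 3^N) ⊤` (In (7)), so it fixes `y`. The element `σ = 1` for `r = π`. `r ∈ orb`: `r = pH h`; `h'` with `F0 ∣ h' - 1`, `3^N ∣ h' - h` (Rep (3)), `α ∈ A` with `F0 3^N ∣ h' - α` (`IsG.ex`; `Cop h' 3`), `s α π = pH (α * 1) = pH h` (Pi; `Cls P F0 N α (s α)`). Injectivity: `s α π = s α' π` gives `pH α = pH α'`, so `3^N ∣ α - α'` (Pi (4)),
`F0 3^N ∣ α - α'`, `IsG.uni`. `vl l = N` (`DL.vl_two_pow`), `dl {π} π = 1` (empty product), `vl (dl orb π) = N - 1/8` (Gen): the hypothesis on `z` is `GE P (1/8) y`, which follows from `VP P (y / w8)` and `vP P w8 = 1/8` (Zt). The conclusion is `TP` by `DL.GE.tp_iff`. -/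
def S_gT2 : Prop := DL.C_TrH → C_In → C_Rep → C_Pi → C_Gen → C_Zt → S_T2

/-! ## The trace lemma for `ζ` -/

/-- The half system of the numbers prime to `3` modulo `3 ^ N`, up to sign. -/
def od (N : ℕ) : Finset ℕ := (Finset.range ((3 ^ N + 1) / 2)).filter (fun a => a % 3 ≠ 0)

/-- Pure algebra: the traces of the powers of `ϖ = ζ + ζ⁻¹ - 2`. -/
def C_Pz : Prop :=
  ∀ (N : ℕ) (ζ : Om), 1 ≤ N → IsPrimitiveRoot ζ (3 ^ N) →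
    (∀ j : ℕ, j < 3 ^ (N - 1) → ∑ a ∈ od N, (ζ ^ a + (ζ ^ a)⁻¹ - 2) ^ j =
      (-1) ^ j * 3 ^ (N - 1) * (Nat.choose (2 * j) j : Om)) ∧
    (∀ j : ℕ, j < 3 ^ (N - 1) → 3 ^ (N - 1) ≤ 2 * j → 3 ∣ Nat.choose (2 * j) j) ∧
    (od N).card = 3 ^ (N - 1) ∧
    (∀ a ∈ od N, ∀ a' ∈ od N, ζ ^ a + (ζ ^ a)⁻¹ = ζ ^ a' + (ζ ^ a')⁻¹ → a = a') ∧
    ∀ c : ℕ, c % 3 ≠ 0 → ∀ a ∈ od N, ∃ a' ∈ od N, ζ ^ (c * a) = ζ ^ a' ∨ ζ ^ (c * a) = (ζ ^ a')⁻¹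

/-- (190 lines) **Pz.** Edit of `DN/GL/Pz.lean`. PROOF. (1) `x (x + x⁻¹ - 2) = (x - 1)^2`, so `(x + x⁻¹ - 2)^j = x^(-j) (x - 1)^(2j) = ∑_(i ≤ 2j) (-1)^i binom(2j, i) x^(j-i)` (`zpow`). Sum over `a ∈ od N` and pair `i` with `2j - i`: for `m = j - i ≠ 0`, `|m| < 3^(N-1)`: `∑_(a ∈ od N) (ζ^(am) + ζ^(-am)) = ∑_(a mod 3^N, 3 ∤ a) ζ^(am)` (`a ↦ 3^N - a` is a bijection of `od N` to
the other half) `= ∑_(a mod 3^N) ζ^(am) - ∑_(a' mod 3^(N-1)) ζ^(3a'm) = 0 - 0` (geometric sums: `ζ^m ≠ 1`, `ζ^(3m) ≠ 1` as `3^(N-1) ∤ m`); the term `m = 0` gives `(-1)^j binom(2j, j) card (od N)`. (2) CLAIM by induction on `r`: if `j < 3^r` and `3 ∤ binom(2j, j)` then `2j < 3^r`: `j = 3 q + i`. `i = 2`: `2j = 3 (2q + 1) + 1`, Lucas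
(`Choose.choose_modEq_choose_mod_mul_choose_div_nat`, module `Mathlib.Data.Nat.Choose.Lucas`): `binom(2j, j) = binom(1, 2) binom(..) = 0` modulo `3`. `i = 0, 1`: `2j = 3 (2q) + 2i`, `binom(2j, j) = binom(2i, i) binom(2q, q)` modulo `3`, so `3 ∤ binom(2q, q)`, `2q < 3^(r-1)`, `2q ≤ 3^(r-1) - 1`, `2j ≤ 3 (3^(r-1) - 1) + 2 < 3^r`. (3) `3^N - 3^(N-1)` numbers
prime to `3` below `3^N`, half of them is in `od N` (the bijection). (4) `x + x⁻¹ = y + y⁻¹` gives `x = y` or `x y = 1`; `ζ` primitive and `0 < a + a' < 3^N`. (5) `c a` modulo `3^N` or its negative is at most `(3^N - 1)/2`. -/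
def S_Pz : Prop := C_Pz

/-- **TrZ.** The trace lemma. -/
def C_TrZ : Prop :=
  ∀ P : Ideal ZZ, Ab3 P → ∀ (N : ℕ) (ζ z : Om) (s : ℕ → Gal(Om/ℚ)), 1 ≤ N →
    IsPrimitiveRoot ζ (3 ^ N) → (∀ a ∈ od N, s a ∈ P.inertia Gal(Om/ℚ) ∧ s a ζ = ζ ^ a) →
    (∀ τ ∈ P.inertia Gal(Om/ℚ), (τ ζ = ζ ∨ τ ζ = ζ⁻¹) → τ z = z) → GE P (1 / 2) z →
      GE P N (∑ a ∈ od N, s a z)

/-- (200 lines) **TrZ** (from DL.K0, Zn, Pz). Edit of `DN/GL/TrZ.lean`. PROOF. `ϖ = ζ + ζ⁻¹ - 2 = -(1 - ζ)(1 - ζ⁻¹)`, `vP P ϖ = 1/3^(N-1)` (Zn for `ζ` and `ζ⁻¹`). `ϖ_a = s_a ϖ = ζ^a + ζ^(-a) - 2`, `a ∈ od N`: `n = 3^(N-1)` different numbers (Pz). `F` = the Lagrange interpolation polynomial with `F(ϖ_a) = s_a z`, degree `< n`. An inertia element `τ`: `τ ζ = ζ^c`, `c % 3 ≠ 0`; for `a ∈ od N` let `a' ∈ od N`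
with `ζ^(c a) = ζ^(±a')` (Pz): `τ ϖ_a = ϖ_(a')` and `τ s_a z = s_(a') z` since `s_(a')⁻¹ τ s_a` is inertia and maps `ζ` to `ζ^(±1)`. So `τ` permutes the pairs: the coefficients `c_j` of `F` are fixed by the inertia group, `v(c_j) ∈ ℤ` (DL.C_K0, `p = 3`). `z = F(ϖ_1)` (`s_1` fixes `ζ`): the numbers `v(c_j) + j/n` are pairwise different, so `v(z) = min ≥ 1/2`, `v(c_j) ≥ 1/2 - j/n`. If
`2 j < n`: `v(c_j) > 0`, so `≥ 1`. If `2 j ≥ n`, `j < n`: `v(c_j) > -1/2`, so `≥ 0`, and `3 ∣ binom(2j, j)` (Pz (2)). `∑ s_a z = ∑_j c_j ∑_a ϖ_a^j = ∑_j c_j (-1)^j 3^(N-1) binom(2j, j)` (Pz (1)): every term has valuation `≥ N`. -/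
def S_TrZ : Prop := DL.C_K0 → C_Zn → C_Pz → C_TrZ

/-- The output of this file. -/
structure GTOut : Prop where
  Zt : C_Zt
  Tc : C_Tc
  T0 : S_T0
  T1 : S_T1
  T2 : S_T2
  TrZ : C_TrZ

/-- The composition. -/
theorem asmGT (b7 : S_B7) (kp : S_Kp) (o : DL.Out) (g : GLOut) (zt : S_Zt) (tc : S_Tc) (t1 : S_gT1)
    (t2 : S_gT2) (pz : S_Pz) (trz : S_TrZ) : GTOut :=
  have Zt := zt
  have Tc := tc b7 kp g.Act Zt
  ⟨Zt, Tc, Zt.1, t1 g.In g.Sur Tc, t2 o.TrH g.In g.Rep g.Pi g.Gen Zt, trz o.K0 g.Zn pz⟩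

end Pool.Agent.DM.GL
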