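import Pool.Agent.Lib.DM.GL.SpecT

/-!
# Theorem DM, part GL: the eighth roots of unity `zt P v` and `w8`
-/

set_option autoImplicit false

open scoped Pointwise

noncomputable section

namespace Pool.Agent.DM.GL

open Pool.Agent.MuZ Pool.Agent.FW Pool.Agent.DN Pool.Agent.DM
open Pool.Agent.DI (io ofC io_inj exists_io io_ofC ofC_io VP MP UP TP ex)
open Pool.Agent.DT (kap cbr)

variable {n t : ℕ}

private theorem Zt_up {P : Ideal ZZ} [P.IsPrime] {y : Om} (h : y ^ 8 = 1) : UP P y :=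
  DI.UP.of_pow (n := 8) (by norm_num) (by rw [h]; exact DI.UP.one)

private theorem Zt_eight {P : Ideal ZZ} [P.IsPrime] (h3 : MP P 3) : UP P (8 : Om) := by
  refine DI.UP.congr (DI.UP.neg DI.UP.one) ?_
  have h := DI.MP.mul_right h3 h3.vp
  have e : (3 : Om) * 3 = 8 - -1 := by norm_num
  rwa [e] at h

/-- The quotient `(x^8 - y^8)/(x - y)`. -/
private def Zt_S (x y : Om) : Om :=
  x ^ 7 + x ^ 6 * y + x ^ 5 * y ^ 2 + x ^ 4 * y ^ 3 + x ^ 3 * y ^ 4 + x ^ 2 * y ^ 5 + x * y ^ 6 + y ^ 7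

private theorem Zt_S_mul (x y : Om) : (x - y) * Zt_S x y = x ^ 8 - y ^ 8 := by
  unfold Zt_S
  ring

private theorem Zt_S_up {P : Ideal ZZ} [P.IsPrime] (h3 : MP P 3) {x y : Om} (hx : VP P x)
    (hy : UP P y) (h : MP P (x - y)) : UP P (Zt_S x y) := by
  refine DI.UP.congr (DI.UP.mul (Zt_eight h3) (DI.UP.pow hy 7)) ?_
  have e : Zt_S x y - 8 * y ^ 7 = (x - y) * (x ^ 6 + 2 * (x ^ 5 * y) + 3 * (x ^ 4 * y ^ 2) +
      4 * (x ^ 3 * y ^ 3) + 5 * (x ^ 2 * y ^ 4) + 6 * (x * y ^ 5) + 7 * y ^ 6) := by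
    unfold Zt_S
    ring
  rw [e]
  refine DI.MP.mul_right h ?_
  have n2 : VP P (2 : Om) := DI.VP.nat 2
  have n3 : VP P (3 : Om) := DI.VP.nat 3
  have n4 : VP P (4 : Om) := DI.VP.nat 4
  have n5 : VP P (5 : Om) := DI.VP.nat 5
  have n6 : VP P (6 : Om) := DI.VP.nat 6
  have n7 : VP P (7 : Om) := DI.VP.nat 7
  have y' := hy.1
  exact (((((((hx.pow 6).add (n2.mul ((hx.pow 5).mul y'))).add
    (n3.mul ((hx.pow 4).mul (y'.pow 2)))).add (n4.mul ((hx.pow 3).mul (y'.pow 3)))).add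
    (n5.mul ((hx.pow 2).mul (y'.pow 4)))).add (n6.mul (hx.mul (y'.pow 5)))).add
    (n7.mul (y'.pow 6)))

/-- Uniqueness. -/
private theorem Zt_uni {P : Ideal ZZ} [P.IsPrime] (h3 : MP P 3) {y y' : Om} (hy : y ^ 8 = 1)
    (hy' : y' ^ 8 = 1) (h : MP P (y - y')) : y = y' := by
  by_contra hne
  have h0 : y - y' ≠ 0 := sub_ne_zero.2 hne
  have h1 := Zt_S_mul y y'
  rw [hy, hy', sub_self] at h1
  have h2 := (mul_eq_zero.1 h1).resolve_left h0
  exact (Zt_S_up h3 (Zt_up hy).1 (Zt_up hy') h).ne_zero h2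

private theorem Zt_dif {P : Ideal ZZ} [P.IsPrime] (h3 : MP P 3) {y y' : Om} (hy : y ^ 8 = 1)
    (hy' : y' ^ 8 = 1) (h : y ≠ y') : UP P (y - y') :=
  ⟨DI.VP.sub (Zt_up hy).1 (Zt_up hy').1, fun h1 => h (Zt_uni h3 hy hy' h1)⟩

private theorem Zt_three {P : Ideal ZZ} [P.IsPrime] [SqN n t] {v : OO n t}
    (h : (3 : OO n t) ∣ v) : TP P 3 (toO v) := by
  obtain ⟨w, rfl⟩ := h
  refine ⟨toO w, toO_VP w, ?_⟩
  have h3 : toO (3 : OO n t) = 3 := by
    have := toO_nat (n := n) (t := t) 3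
    rwa [Nat.cast_ofNat, Nat.cast_ofNat] at this
  rw [toO_mul, h3]

private theorem Zt_tm {P : Ideal ZZ} [P.IsPrime] (h3 : MP P 3) {x : Om} (h : TP P 3 x) : MP P x := by
  obtain ⟨y, hy, rfl⟩ := h
  exact DI.MP.mul_right h3 hy

/-- Fermat: `v ^ 3 = cjO v` modulo `3`. -/
private theorem Zt_fer [Ine3 n t] (v : OO n t) : (3 : OO n t) ∣ v ^ 3 - cjO v := by
  obtain ⟨j, hj⟩ := D_mod (n := n) (t := t)
  have cube : ∀ x : ℤ, ∃ y : ℤ, x ^ 3 = x + 3 * y := by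
    intro x
    have h : x % 3 = 0 ∨ x % 3 = 1 ∨ x % 3 = 2 := by omega
    obtain ⟨q, hq⟩ : ∃ q, x = 3 * q + x % 3 := ⟨x / 3, by omega⟩
    rcases h with h | h | h <;> rw [h] at hq
    · exact ⟨9 * q ^ 3 - q, by rw [hq]; ring⟩
    · exact ⟨9 * q ^ 3 + 9 * q ^ 2 + 2 * q, by rw [hq]; ring⟩
    · exact ⟨9 * q ^ 3 + 18 * q ^ 2 + 11 * q + 2, by rw [hq]; ring⟩
  obtain ⟨A, hA⟩ := cube v.re
  obtain ⟨B, hB⟩ := cube v.im
  obtain ⟨T, hT⟩ := cube t
  have hn : (n : ℤ) = t ^ 2 + 1 + 3 * (j - n) := by linear_combination hj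
  have e3 : v ^ 3 = v * (v * v) := by ring
  have c1 : (cjO v).re = v.re + t * v.im := rfl
  have c2 : (cjO v).im = -v.im := rfl
  rw [three_dvd_iff, QuadraticAlgebra.re_sub, QuadraticAlgebra.im_sub, e3, c1, c2]
  simp only [re_mul, im_mul]
  constructor
  · refine ⟨A - n * v.re * v.im ^ 2 - t * v.im - 2 * t * B - (T + (j - n) * t) * v.im ^ 3, ?_⟩
    linear_combination hA - t * v.im ^ 3 * hn - v.im ^ 3 * hT - 2 * t * hB
  · refine ⟨v.re ^ 2 * v.im + t * v.re * v.im ^ 2 - B - (j - n) * v.im ^ 3, ?_⟩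
    linear_combination -v.im ^ 3 * hn - hB

private theorem Zt_four [Ine3 n t] (v : OO n t) : (3 : OO n t) ∣ v ^ 4 - ((Nm v : ℤ) : OO n t) := by
  have h := (Zt_fer v).mul_left v
  have e : v * (v ^ 3 - cjO v) = v ^ 4 - ((Nm v : ℤ) : OO n t) := by
    rw [← (aO2 n t).2.2.2.2.2.2.1 v]
    ring
  rwa [e] at h

private theorem Zt_int3 [SqN n t] {m : ℤ} (h : (3 : ℤ) ∣ m) : (3 : OO n t) ∣ ((m : ℤ) : OO n t) := by
  obtain ⟨q, rfl⟩ := h
  exact ⟨(q : OO n t), by push_cast; ring⟩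

private theorem Zt_cop [Ine3 n t] {v : OO n t} (hv : Cop v 3) : ¬ (3 : ℤ) ∣ Nm v := by
  rw [three_Nm]
  exact (cop3_iff v).1 hv

private theorem Zt_e8 [Ine3 n t] {v : OO n t} (hv : Cop v 3) : (3 : OO n t) ∣ v ^ 8 - 1 := by
  have h1 := (Zt_four v).mul_right (v ^ 4 + ((Nm v : ℤ) : OO n t))
  have h2 : (3 : ℤ) ∣ Nm v ^ 2 - 1 := by
    have h := Zt_cop hv
    have e : Nm v ^ 2 - 1 = (Nm v - 1) * (Nm v + 1) := by ring
    rw [e]
    have h3 : Nm v % 3 = 1 ∨ Nm v % 3 = 2 := by omega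
    rcases h3 with h3 | h3
    · exact Dvd.dvd.mul_right (by omega) _
    · exact Dvd.dvd.mul_left (by omega) _
  have h4 := dvd_add h1 (Zt_int3 (n := n) (t := t) h2)
  have e : (v ^ 4 - ((Nm v : ℤ) : OO n t)) * (v ^ 4 + ((Nm v : ℤ) : OO n t)) +
      ((Nm v ^ 2 - 1 : ℤ) : OO n t) = v ^ 8 - 1 := by
    push_cast
    ring
  rwa [e] at h4

private theorem Zt_sq {P : Ideal ZZ} [P.IsPrime] {x c : Om} (hx : VP P x) (hc : VP P c)
    (h : MP P (x ^ 2 - c ^ 2)) : MP P (c - x) ∨ MP P (-c - x) := by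
  have e : x ^ 2 - c ^ 2 = (x - c) * (x + c) := by ring
  rw [e] at h
  rcases DI.MP.mul_cases (DI.VP.sub hx hc) (DI.VP.add hx hc) h with h | h
  · left
    have := h.neg
    rwa [neg_sub] at this
  · right
    have := h.neg
    have e : -(x + c) = -c - x := by ring
    rwa [e] at this

/-- Existence. -/
private theorem Zt_ex {P : Ideal ZZ} [P.IsPrime] [Ine3 n t] (h3 : MP P 3) {v : OO n t}
    (hv : Cop v 3) : ∃ y : Om, y ^ 8 = 1 ∧ MP P (y - toO v) := by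
  have h8 : MP P (toO v ^ 8 - 1) := by
    have := Zt_tm h3 (Zt_three (P := P) (Zt_e8 hv))
    rwa [toO_sub, toO_pow, toO_one] at this
  obtain ⟨w, hw⟩ := IsAlgClosed.exists_pow_nat_eq (-1 : Om) (n := 4) (by norm_num)
  have hw8 : w ^ 8 = 1 := by
    have : w ^ 8 = (w ^ 4) ^ 2 := by ring
    rw [this, hw]
    norm_num
  set x := toO v with hx
  have hxv : VP P x := toO_VP v
  have hwv : VP P w := (Zt_up hw8).1
  have key : ∀ c : Om, VP P c → c ^ 8 = 1 → MP P (x ^ 2 - c ^ 2) →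
      ∃ y : Om, y ^ 8 = 1 ∧ MP P (y - x) := by
    intro c hc hc8 h
    rcases Zt_sq hxv hc h with h | h
    · exact ⟨c, hc8, h⟩
    · refine ⟨-c, ?_, h⟩
      have : (-c) ^ 8 = c ^ 8 := by ring
      rw [this, hc8]
  have e : x ^ 8 - 1 = ((x ^ 2 - 1 ^ 2) * (x ^ 2 - (w ^ 2) ^ 2)) *
      ((x ^ 2 - w ^ 2) * (x ^ 2 - (w ^ 3) ^ 2)) := by
    linear_combination (-(x ^ 4 - 1) * (w ^ 4 - 1 - x ^ 2 * w ^ 2) + (x ^ 2 - 1) * (x ^ 4 + 1) +
      (x ^ 2 - 1) * (w ^ 4 - 1 - x ^ 2 * w ^ 2) * (w ^ 4 + 1)) * hw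
  rw [e] at h8
  have v1 : VP P (x ^ 2 - 1 ^ 2) := (hxv.pow 2).sub (DI.VP.one.pow 2)
  have v2 : VP P (x ^ 2 - (w ^ 2) ^ 2) := (hxv.pow 2).sub ((hwv.pow 2).pow 2)
  have v3 : VP P (x ^ 2 - w ^ 2) := (hxv.pow 2).sub (hwv.pow 2)
  have v4 : VP P (x ^ 2 - (w ^ 3) ^ 2) := (hxv.pow 2).sub ((hwv.pow 3).pow 2)
  rcases DI.MP.mul_cases (v1.mul v2) (v3.mul v4) h8 with h | h
  · rcases DI.MP.mul_cases v1 v2 h with h | h
    · exact key 1 DI.VP.one (one_pow 8) h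
    · exact key (w ^ 2) (hwv.pow 2) (by rw [← pow_mul, mul_comm, pow_mul, hw8, one_pow]) h
  · rcases DI.MP.mul_cases v3 v4 h with h | h
    · exact key w hwv hw8 h
    · exact key (w ^ 3) (hwv.pow 3) (by rw [← pow_mul, mul_comm, pow_mul, hw8, one_pow]) h

private theorem Zt_spec {P : Ideal ZZ} [P.IsPrime] [Ine3 n t] (h3 : MP P 3) {v : OO n t}
    (hv : Cop v 3) : zt P v ^ 8 = 1 ∧ MP P (zt P v - toO v) := by
  have h := Zt_ex h3 hv
  unfold zt
  rw [dif_pos h]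
  exact h.choose_spec

private theorem Zt_eq {P : Ideal ZZ} [P.IsPrime] [Ine3 n t] (h3 : MP P 3) {v : OO n t}
    (hv : Cop v 3) {y : Om} (hy : y ^ 8 = 1) (hyv : MP P (y - toO v)) : y = zt P v := by
  obtain ⟨h1, h2⟩ := Zt_spec h3 hv
  refine Zt_uni h3 hy h1 ?_
  have := DI.MP.sub hyv h2
  have e : y - toO v - (zt P v - toO v) = y - zt P v := by ring
  rwa [e] at this

private theorem Zt_toO {P : Ideal ZZ} [P.IsPrime] [Ine3 n t] (h3 : MP P 3) {v : OO n t}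
    (hv : Cop v 3) : UP P (toO v) := by
  obtain ⟨h1, h2⟩ := Zt_spec h3 hv
  refine DI.UP.congr (Zt_up h1) ?_
  have := h2.neg
  rwa [neg_sub] at this

private theorem Zt_int {P : Ideal ZZ} [P.IsPrime] (h3 : MP P 3) {m : ℤ} :
    MP P (m : Om) ↔ (3 : ℤ) ∣ m := by
  constructor
  · intro h
    by_contra hm
    obtain ⟨a, b, hab⟩ := (Int.prime_three.coprime_iff_not_dvd).2 hm
    have h1 : MP P ((a : Om) * 3 + (b : Om) * (m : Om)) :=
      DI.MP.add (DI.MP.mul_left (DI.VP.int a) h3) (DI.MP.mul_left (DI.VP.int b) h)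
    have e : (a : Om) * 3 + (b : Om) * (m : Om) = 1 := by exact_mod_cast hab
    rw [e] at h1
    exact DI.MP.one_not h1
  · rintro ⟨q, rfl⟩
    push_cast
    exact DI.MP.mul_right h3 (DI.VP.int q)

private theorem Zt_n4 {P : Ideal ZZ} [P.IsPrime] [Ine3 n t] (h3 : MP P 3) {v : OO n t}
    (hv : Cop v 3) : MP P (zt P v ^ 4 - ((Nm v : ℤ) : Om)) := by
  obtain ⟨h1, h2⟩ := Zt_spec h3 hv
  have h4 := Zt_tm h3 (Zt_three (P := P) (Zt_four v))
  rw [toO_sub, toO_pow, toO_int] at h4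
  have hz := (Zt_up (P := P) h1).1
  have hv' : VP P (toO v) := toO_VP v
  have h5 : MP P ((zt P v - toO v) * (zt P v ^ 3 + zt P v ^ 2 * toO v + zt P v * toO v ^ 2 +
      toO v ^ 3)) :=
    DI.MP.mul_right h2 ((((hz.pow 3).add ((hz.pow 2).mul hv')).add (hz.mul (hv'.pow 2))).add
      (hv'.pow 3))
  have h6 := DI.MP.add h5 h4
  have e : (zt P v - toO v) * (zt P v ^ 3 + zt P v ^ 2 * toO v + zt P v * toO v ^ 2 +
      toO v ^ 3) + (toO v ^ 4 - ((Nm v : ℤ) : Om)) = zt P v ^ 4 - ((Nm v : ℤ) : Om) := by ring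
  rwa [e] at h6

private theorem Zt_two {P : Ideal ZZ} [P.IsPrime] (h3 : MP P 3) : ¬ MP P (2 : Om) := by
  intro h
  have h1 := DI.MP.sub h3 h
  have e : (3 : Om) - 2 = 1 := by norm_num
  rw [e] at h1
  exact DI.MP.one_not h1

private theorem Zt_pm {P : Ideal ZZ} [P.IsPrime] [Ine3 n t] (h3 : MP P 3) {v : OO n t}
    (hv : Cop v 3) : (zt P v ^ 4 = 1 ↔ (3 : ℤ) ∣ Nm v - 1) ∧
      (zt P v ^ 4 = -1 ↔ (3 : ℤ) ∣ Nm v + 1) := by
  obtain ⟨h1, -⟩ := Zt_spec h3 hv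
  have h4 := Zt_n4 h3 hv
  have hpm : zt P v ^ 4 = 1 ∨ zt P v ^ 4 = -1 := by
    have e : (zt P v ^ 4 - 1) * (zt P v ^ 4 + 1) = 0 := by linear_combination h1
    rcases mul_eq_zero.1 e with h | h
    · exact Or.inl (sub_eq_zero.1 h)
    · exact Or.inr (eq_neg_of_add_eq_zero_left h)
  have a1 : zt P v ^ 4 = 1 → (3 : ℤ) ∣ Nm v - 1 := by
    intro h
    rw [h] at h4
    have h5 := h4.neg
    rw [neg_sub] at h5
    exact (Zt_int h3).1 (by push_cast; exact h5)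
  have a2 : zt P v ^ 4 = -1 → (3 : ℤ) ∣ Nm v + 1 := by
    intro h
    rw [h] at h4
    have h5 := h4.neg
    have e : -(-1 - ((Nm v : ℤ) : Om)) = ((Nm v : ℤ) : Om) + 1 := by ring
    rw [e] at h5
    exact (Zt_int h3).1 (by push_cast; exact h5)
  have hn := Zt_cop hv
  refine ⟨⟨a1, fun h => ?_⟩, ⟨a2, fun h => ?_⟩⟩
  · refine hpm.resolve_right fun h' => ?_
    have := a2 h'
    omega
  · refine hpm.resolve_left fun h' => ?_
    have := a1 h'
    omega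

private theorem Zt_w8 : w8 ^ 8 = 3 := by
  have h : ∃ y : Om, y ^ 8 = 3 := IsAlgClosed.exists_pow_nat_eq (3 : Om) (n := 8) (by norm_num)
  unfold w8
  rw [dif_pos h]
  exact h.choose_spec

private theorem Zt_w0 : w8 ≠ 0 := by
  intro h
  have := Zt_w8
  rw [h] at this
  norm_num at this

private theorem Zt_cases (n t : ℕ) [Ine3 n t] (P : Ideal ZZ) (hP : Ab3 P) (v u : OO n t) :
    (¬ Cop v 3 → zt P v = 0) ∧ (Cop v 3 → Cop u 3 →
    zt P v ^ 8 = 1 ∧ TP P 3 (zt P v - toO v) ∧ zt P (v * u) = zt P v * zt P u ∧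
    ((3 : OO n t) ∣ v - u ↔ zt P v = zt P u) ∧ (zt P v ^ 4 = 1 ↔ (3 : ℤ) ∣ Nm v - 1) ∧
    (zt P v ^ 4 = -1 ↔ (3 : ℤ) ∣ Nm v + 1) ∧ ∀ σ ∈ P.inertia Gal(Om/ℚ), σ (zt P v) = zt P v) := by
  have hPr : P.IsPrime := hP.1.1
  have h3 : MP P 3 := hP.2
  constructor
  · intro hv
    have hd : (3 : OO n t) ∣ v := by
      by_contra h
      exact hv ((cop3_iff v).2 h)
    have hm := Zt_tm h3 (Zt_three (P := P) hd)
    unfold zt
    rw [dif_neg]
    rintro ⟨y, hy, hyv⟩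
    have h := DI.MP.add hyv hm
    rw [sub_add_cancel] at h
    exact (Zt_up hy).2 h
  · intro hv hu
    obtain ⟨h1, h2⟩ := Zt_spec h3 hv
    obtain ⟨h1', h2'⟩ := Zt_spec h3 hu
    obtain ⟨p1, p2⟩ := Zt_pm h3 hv
    refine ⟨h1, ?_, ?_, ⟨?_, ?_⟩, p1, p2, ?_⟩
    · obtain ⟨w, hw⟩ := Zt_e8 hv
      have hS := Zt_S_up h3 (toO_VP (P := P) v) (Zt_up h1) (by
        have := h2.neg
        rwa [neg_sub] at this)
      have hS0 := hS.ne_zero
      have e1 := Zt_S_mul (toO v) (zt P v)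
      have e2 : toO v ^ 8 - 1 = 3 * toO w := by
        have := congrArg toO hw
        have h3' : toO (3 : OO n t) = 3 := by
          have := toO_nat (n := n) (t := t) 3
          rwa [Nat.cast_ofNat, Nat.cast_ofNat] at this
        rwa [toO_sub, toO_pow, toO_one, toO_mul, h3'] at this
      refine ⟨-(toO w * (Zt_S (toO v) (zt P v))⁻¹), (DI.VP.mul (toO_VP w) hS.inv.1).neg, ?_⟩
      rw [h1, e2] at e1
      field_simp
      linear_combination -e1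
    · symm
      refine Zt_eq h3 (cop_mul hv hu) ?_ ?_
      · rw [mul_pow, h1, h1', one_mul]
      · rw [toO_mul]
        have a1 := DI.MP.mul_left (Zt_up (P := P) h1).1 h2'
        have a2 := DI.MP.mul_right h2 (toO_VP (P := P) u)
        have := DI.MP.add a1 a2
        have e : zt P v * (zt P u - toO u) + (zt P v - toO v) * toO u =
            zt P v * zt P u - toO v * toO u := by ring
        rwa [e] at this
    · intro hd
      refine Zt_eq h3 hu h1 ?_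
      have h4 := Zt_tm h3 (Zt_three (P := P) hd)
      rw [toO_sub] at h4
      have := DI.MP.add h2 h4
      have e : zt P v - toO v + (toO v - toO u) = zt P v - toO u := by ring
      rwa [e] at this
    · intro he
      by_contra hd
      have hc := (cop3_iff (v - u)).2 hd
      refine (Zt_toO h3 hc).2 ?_
      rw [toO_sub]
      rw [← he] at h2'
      have := DI.MP.sub h2' h2
      have e : zt P v - toO u - (zt P v - toO v) = toO v - toO u := by ring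
      rwa [e] at this
    · intro σ hσ
      refine Zt_uni h3 ?_ h1 (DI.VP.inertia hσ (Zt_up h1).1)
      rw [← map_pow, h1, map_one]

/-- The eighth roots of unity. -/
theorem tZt : S_Zt := by
  refine ⟨⟨Zt_w8, fun n t _ P hP v u => Zt_cases n t P hP v u⟩, Zt_w0, ?_, ?_⟩
  · intro P hP
    have hPr : P.IsPrime := hP.1.1
    have h3 : MP P 3 := hP.2
    refine ⟨?_, fun y y' hy hy' h => Zt_dif h3 hy hy' h⟩
    have h1 := DL.vl_pow (pl hP) Zt_w0 8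
    have h2 := DL.vl_two (pl hP)
    rw [Nat.cast_ofNat] at h2
    rw [Zt_w8, h2] at h1
    have h4 : vP P w8 = DL.vl P 3 w8 := rfl
    rw [h4]
    push_cast at h1
    linarith
  · intro n t _ P hP
    have hPr : P.IsPrime := hP.1.1
    have h3 : MP P 3 := hP.2
    refine ⟨fun v hv => Zt_e8 hv, fun v hv y hy hyv => Zt_eq h3 hv hy hyv, fun v hv =>
      ⟨Zt_toO h3 hv, Zt_up (Zt_spec h3 hv).1⟩, ?_⟩
    symm
    refine Zt_eq h3 (cop_one 3) (one_pow 8) ?_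
    rw [toO_one, sub_self]
    exact DI.MP.zero

end Pool.Agent.DM.GL
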